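import Mathlib

/-!
# Families of complex numbers with equal power sums
-/

set_option autoImplicit false

open Finset Polynomial

namespace Pool.Agent.Q262.RL

theorem esymm_eq {n : ℕ} (a b : Fin n → ℂ)
    (h : ∀ k, 1 ≤ k → k ≤ n → ∑ i, a i ^ k = ∑ i, b i ^ k) (k : ℕ) (hk : k ≤ n) :
    MvPolynomial.aeval a (MvPolynomial.esymm (Fin n) ℂ k) =
      MvPolynomial.aeval b (MvPolynomial.esymm (Fin n) ℂ k) := by
  induction k using Nat.strong_induction_on with
  | _ k ih =>
    rcases Nat.eq_zero_or_pos k with h0 | h0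
    · subst h0
      rw [MvPolynomial.esymm_zero, map_one, map_one]
    · have key := MvPolynomial.mul_esymm_eq_sum (Fin n) ℂ k
      have ha := congrArg (MvPolynomial.aeval a) key
      have hb := congrArg (MvPolynomial.aeval b) key
      have hs : ∀ c : Fin n → ℂ, ∀ j : ℕ, MvPolynomial.aeval c (MvPolynomial.psum (Fin n) ℂ j) =
          ∑ i, c i ^ j := by
        intro c j
        unfold MvPolynomial.psum
        simp
      have h1 : MvPolynomial.aeval a ((-1) ^ (k + 1) * ∑ x ∈ antidiagonal k with x.1 < k,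
            (-1) ^ x.1 * MvPolynomial.esymm (Fin n) ℂ x.1 * MvPolynomial.psum (Fin n) ℂ x.2) =
          MvPolynomial.aeval b ((-1) ^ (k + 1) * ∑ x ∈ antidiagonal k with x.1 < k,
            (-1) ^ x.1 * MvPolynomial.esymm (Fin n) ℂ x.1 * MvPolynomial.psum (Fin n) ℂ x.2) := by
        simp only [map_mul, map_sum, map_pow, map_neg, map_one, hs]
        congr 1
        refine sum_congr rfl fun x hx => ?_
        rw [mem_filter, HasAntidiagonal.mem_antidiagonal] at hx
        rw [ih x.1 hx.2 (by omega), h x.2 (by omega) (by omega)]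
      have h2 : (k : ℂ) * MvPolynomial.aeval a (MvPolynomial.esymm (Fin n) ℂ k) =
          (k : ℂ) * MvPolynomial.aeval b (MvPolynomial.esymm (Fin n) ℂ k) := by
        have e1 : ∀ c : Fin n → ℂ, MvPolynomial.aeval c
            ((k : MvPolynomial (Fin n) ℂ) * MvPolynomial.esymm (Fin n) ℂ k) =
              (k : ℂ) * MvPolynomial.aeval c (MvPolynomial.esymm (Fin n) ℂ k) := by
          intro c
          rw [map_mul, map_natCast]
        rw [← e1, ← e1, ha, hb, h1]
      have hk0 : (k : ℂ) ≠ 0 := by exact_mod_cast h0.ne'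
      exact mul_left_cancel₀ hk0 h2

theorem exists_eq_fin {n : ℕ} (a b : Fin n → ℂ)
    (h : ∀ k, 1 ≤ k → k ≤ n → ∑ i, a i ^ k = ∑ i, b i ^ k) (i : Fin n) : ∃ j, a i = b j := by
  have hc : ∀ c : Fin n → ℂ, Multiset.card ((univ : Finset (Fin n)).val.map c) = n := by
    intro c
    rw [Multiset.card_map]
    simp
  have h1 : (((univ : Finset (Fin n)).val.map a).map fun t => (X - C t : ℂ[X])).prod =
      (((univ : Finset (Fin n)).val.map b).map fun t => (X - C t : ℂ[X])).prod := by
    rw [Multiset.prod_X_sub_X_eq_sum_esymm, Multiset.prod_X_sub_X_eq_sum_esymm, hc, hc]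
    refine sum_congr rfl fun j hj => ?_
    rw [mem_range] at hj
    have h2 := esymm_eq a b h j (by omega)
    rw [MvPolynomial.aeval_esymm_eq_multiset_esymm, MvPolynomial.aeval_esymm_eq_multiset_esymm] at h2
    rw [h2]
  have h3 := congrArg (Polynomial.eval (a i)) h1
  rw [Multiset.map_map, Multiset.map_map] at h3
  change eval (a i) (∏ l, (X - C (a l))) = eval (a i) (∏ l, (X - C (b l))) at h3
  rw [eval_prod, eval_prod, prod_eq_zero (mem_univ i) (by simp)] at h3
  obtain ⟨j, -, hj⟩ := prod_eq_zero_iff.1 h3.symm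
  refine ⟨j, ?_⟩
  rw [eval_sub, eval_X, eval_C, sub_eq_zero] at hj
  exact hj

/-- Two finite families with the same number `m` of members and the same power sums up to the
exponent `m` have the same values. -/
theorem exists_eq {ι : Type*} (s t : Finset ι) (hst : s.card = t.card) (a b : ι → ℂ)
    (h : ∀ k, 1 ≤ k → k ≤ s.card → ∑ i ∈ s, a i ^ k = ∑ i ∈ t, b i ^ k) {i : ι} (hi : i ∈ s) :
    ∃ j ∈ t, a i = b j := by
  classical
  let e := s.equivFin
  let e' : t ≃ Fin s.card := t.equivFin.trans (finCongr hst.symm)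
  have h1 : ∀ (c : ι → ℂ) (k : ℕ), ∑ l : Fin s.card, (c (e.symm l)) ^ k = ∑ i ∈ s, c i ^ k := by
    intro c k
    rw [← Finset.sum_coe_sort s (fun i => c i ^ k)]
    exact Fintype.sum_equiv e.symm _ _ fun l => rfl
  have h2 : ∀ (c : ι → ℂ) (k : ℕ), ∑ l : Fin s.card, (c (e'.symm l)) ^ k = ∑ i ∈ t, c i ^ k := by
    intro c k
    rw [← Finset.sum_coe_sort t (fun i => c i ^ k)]
    exact Fintype.sum_equiv e'.symm _ _ fun l => rfl
  obtain ⟨j, hj⟩ := exists_eq_fin (fun l => a (e.symm l)) (fun l => b (e'.symm l))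
    (fun k hk1 hk2 => by rw [h1, h2, h k hk1 hk2]) (e ⟨i, hi⟩)
  refine ⟨e'.symm j, (e'.symm j).2, ?_⟩
  simpa using hj

end Pool.Agent.Q262.RL
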