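import Mathlib
import Pool.Agent.Q262.AB.Witt
import Pool.Agent.Q262.RL.PS

/-!
# Relative traces of powers of an algebraic integer
-/

set_option autoImplicit false
set_option linter.unusedSectionVars false
set_option linter.style.haveILetI false

open Finset Polynomial Pool.Agent.Q262.AB

namespace Pool.Agent.Q262.RL

lemma one_le_prodR {ι : Type*} (s : Finset ι) (f : ι → ℝ) (h : ∀ i, 1 ≤ f i) :
    1 ≤ ∏ i ∈ s, f i := by
  have h1 := Finset.prod_le_prod (s := s) (f := fun _ => (1 : ℝ)) (g := f)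
    (fun _ _ => zero_le_one) fun i _ => h i
  rwa [prod_const_one] at h1

lemma nonempty_emb (F : Type) [Field F] [Algebra ℚ F] [FiniteDimensional ℚ F] :
    Nonempty (F →ₐ[ℚ] ℂ) := ⟨IsAlgClosed.lift⟩

section

variable {F L : Type} [Field F] [Field L] [Algebra ℚ F] [Algebra ℚ L] [Algebra F L]
  [IsScalarTower ℚ F L] [FiniteDimensional ℚ L]

/-- the relative trace of the `n`-th power -/
noncomputable def T (F : Type) {L : Type} [Field F] [Field L] [Algebra F L] (α : L) (n : ℕ) : F :=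
  Algebra.trace F L (α ^ n)

lemma T_fib (v : F →ₐ[ℚ] ℂ) (α : L) (n : ℕ) : v (T F α n) = ∑ τ ∈ fib (L := L) v, τ α ^ n := by
  unfold T
  rw [trace_fib]
  exact sum_congr rfl fun τ _ => map_pow τ α n

/-- the Mahler measure over an embedding of `F` -/
noncomputable def A (α : L) (v : F →ₐ[ℚ] ℂ) : ℝ := ∏ τ ∈ fib (L := L) v, max 1 ‖τ α‖

/-- the product over all embeddings -/
noncomputable def MM (α : L) : ℝ := ∏ τ : L →ₐ[ℚ] ℂ, max 1 ‖τ α‖

lemma one_le_A (α : L) (v : F →ₐ[ℚ] ℂ) : 1 ≤ A α v :=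
  one_le_prodR _ _ fun _ => le_max_left _ _

lemma one_le_MM (α : L) : 1 ≤ MM α := one_le_prodR _ _ fun _ => le_max_left _ _

lemma norm_T (v : F →ₐ[ℚ] ℂ) (α : L) (n : ℕ) :
    ‖v (T F α n)‖ ≤ Module.finrank F L * A α v ^ n := by
  classical
  rw [T_fib, ← card_fib (L := L) v]
  refine (norm_sum_le _ _).trans ?_
  rw [← nsmul_eq_mul]
  refine sum_le_card_nsmul _ _ _ fun τ hτ => ?_
  rw [norm_pow]
  refine pow_le_pow_left₀ (norm_nonneg _) ?_ n
  refine (le_max_right 1 ‖τ α‖).trans ?_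
  unfold A
  rw [← mul_prod_erase _ _ hτ]
  refine le_mul_of_one_le_right (le_trans zero_le_one (le_max_left _ _)) ?_
  exact one_le_prodR _ _ fun _ => le_max_left _ _

open Classical in
lemma prod_A [FiniteDimensional ℚ F] (α : L) : ∏ v : F →ₐ[ℚ] ℂ, A α v = MM α := by
  unfold A MM
  have h1 : ∀ v : F →ₐ[ℚ] ℂ, fib (L := L) v =
      univ.filter fun τ : L →ₐ[ℚ] ℂ => τ.comp (IsScalarTower.toAlgHom ℚ F L) = v := by
    intro v
    ext τ
    rw [mem_fib, mem_filter]
    constructor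
    · intro h
      exact ⟨mem_univ _, AlgHom.ext h⟩
    · rintro ⟨-, h⟩ x
      rw [← h]
      rfl
  simp only [h1]
  exact Finset.prod_fiberwise univ (fun τ : L →ₐ[ℚ] ℂ => τ.comp (IsScalarTower.toAlgHom ℚ F L))
    fun τ => max 1 ‖τ α‖

lemma comp_bij [FiniteDimensional ℚ F] (φ : F →ₐ[ℚ] F) :
    Function.Bijective fun v : F →ₐ[ℚ] ℂ => v.comp φ := by
  have hs : Function.Surjective φ :=
    (LinearMap.injective_iff_surjective (f := φ.toLinearMap)).1 φ.injective
  have hi : Function.Injective fun v : F →ₐ[ℚ] ℂ => v.comp φ := by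
    intro v w h
    ext x
    obtain ⟨y, rfl⟩ := hs x
    exact congrArg (fun f : F →ₐ[ℚ] ℂ => f y) h
  exact Finite.injective_iff_bijective.1 hi

lemma prod_A_comp [FiniteDimensional ℚ F] (α : L) (φ : F →ₐ[ℚ] F) :
    ∏ v : F →ₐ[ℚ] ℂ, A α (v.comp φ) = MM α := by
  classical
  rw [← prod_A (F := F) α]
  exact Function.Bijective.prod_comp (comp_bij φ) fun v => A α v

/-- the congruences -/
theorem T_cong {α : L} (hα : IsIntegral ℤ α) {p : ℕ} (hp : p.Prime) (φ : F →ₐ[ℚ] F)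
    (hφ : ∀ x : F, IsIntegral ℤ x → ∃ y : F, IsIntegral ℤ y ∧ x ^ p = φ x + p * y) (n k : ℕ) :
    ∃ y : F, IsIntegral ℤ y ∧
      T F α (n * p ^ (k + 1)) - φ (T F α (n * p ^ k)) = ((p ^ (k + 1) : ℕ) : F) * y := by
  classical
  haveI : Fact p.Prime := ⟨hp⟩
  haveI : FiniteDimensional ℚ F := FiniteDimensional.left ℚ F L
  obtain ⟨v⟩ := nonempty_emb F
  obtain ⟨c, hc, hs⟩ := exists_coord v (p := p) (fib (L := L) v) (fun τ => τ α ^ n)
    (fun τ _ => (hα.map (τ.restrictScalars ℤ)).pow n) (fun k => T F α (n * p ^ k)) (by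
      intro k
      rw [T_fib]
      exact sum_congr rfl fun τ _ => by rw [← pow_mul])
  exact cong_pow (AlgHom.id ℚ F) φ hφ (fun k => T F α (n * p ^ k)) c hc hs k

/-- `z ^ p` is a zero of the minimal polynomial of `x ^ p` if `z` is a zero of that of `x` -/
lemma root_pow {x : L} (p : ℕ) {z : ℂ} (hz : aeval z (minpoly ℚ x) = 0) :
    aeval (z ^ p) (minpoly ℚ (x ^ p)) = 0 := by
  have h1 : aeval x ((minpoly ℚ (x ^ p)).comp (X ^ p)) = 0 := by
    rw [aeval_comp, map_pow, aeval_X, minpoly.aeval]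
  obtain ⟨g, hg⟩ := minpoly.dvd ℚ x h1
  have h2 : aeval z ((minpoly ℚ (x ^ p)).comp (X ^ p)) = 0 := by
    rw [hg, map_mul, hz, zero_mul]
  rwa [aeval_comp, map_pow, aeval_X] at h2

/-- if `x` and `x ^ p` are conjugate then `x` is zero or a root of unity -/
lemma torsion_of_conj {x : L} {p : ℕ} (hp : 2 ≤ p) (hx0 : x ≠ 0)
    (h : minpoly ℚ (x ^ p) = minpoly ℚ x) : ∃ n : ℕ, 0 < n ∧ x ^ n = 1 := by
  have hxi : IsIntegral ℚ x := Algebra.IsIntegral.isIntegral x
  obtain ⟨τ⟩ := nonempty_emb L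
  have hroot : ∀ k : ℕ, aeval (τ x ^ p ^ k) (minpoly ℚ x) = 0 := by
    intro k
    induction k with
    | zero =>
      rw [pow_zero, pow_one, aeval_algHom_apply, minpoly.aeval, map_zero]
    | succ k ih =>
      have := root_pow p ih
      rwa [h, ← pow_mul, ← pow_succ] at this
  have hfin : (Set.range fun k : ℕ => τ x ^ p ^ k).Finite := by
    refine Set.Finite.subset (Finset.finite_toSet ((minpoly ℚ x).aroots ℂ).toFinset) ?_
    rintro _ ⟨k, rfl⟩
    rw [mem_coe, Multiset.mem_toFinset, mem_aroots]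
    exact ⟨minpoly.ne_zero hxi, hroot k⟩
  have hni : ¬ Function.Injective fun k : ℕ => τ x ^ p ^ k := by
    intro hi
    exact (Set.infinite_range_of_injective hi) hfin
  rw [Function.Injective] at hni
  push Not at hni
  obtain ⟨i, j, hij, hne⟩ := hni
  wlog hlt : i < j generalizing i j
  · exact this j i hij.symm hne.symm (by omega)
  have hij' : τ (x ^ p ^ i) = τ (x ^ p ^ j) := by
    rw [map_pow, map_pow]
    exact hij
  have h1 := τ.injective hij'
  have h2 : p ^ i < p ^ j := Nat.pow_lt_pow_right (by omega) hlt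
  refine ⟨p ^ j - p ^ i, by omega, ?_⟩
  have h3 : x ^ p ^ i * x ^ (p ^ j - p ^ i) = x ^ p ^ i * 1 := by
    rw [← pow_add, Nat.add_sub_cancel' h2.le, mul_one, ← h1]
  exact mul_left_cancel₀ (pow_ne_zero _ hx0) h3

/-- for some small multiple of the exponents the two traces are different -/
theorem exists_ne {α : L} {p : ℕ} (hp : 2 ≤ p) (hα0 : α ≠ 0)
    (hroot : ∀ n : ℕ, 0 < n → α ^ n ≠ 1) (φ : F →ₐ[ℚ] F) (k : ℕ) :
    ∃ n, 1 ≤ n ∧ n ≤ Module.finrank F L ∧
      T F α (n * p ^ (k + 1)) - φ (T F α (n * p ^ k)) ≠ 0 := by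
  classical
  haveI : FiniteDimensional ℚ F := FiniteDimensional.left ℚ F L
  by_contra hcon
  push Not at hcon
  obtain ⟨v⟩ := nonempty_emb F
  have hcard : (fib (L := L) v).card = Module.finrank F L := card_fib v
  have hpos : 0 < Module.finrank F L := by
    haveI : FiniteDimensional F L := FiniteDimensional.right ℚ F L
    exact Module.finrank_pos
  obtain ⟨τ, hτ⟩ : (fib (L := L) v).Nonempty := by
    rw [← card_pos, hcard]
    exact hpos
  obtain ⟨τ', -, h⟩ := exists_eq (fib (L := L) v) (fib (L := L) (v.comp φ))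
    (by rw [card_fib, card_fib]) (fun σ : L →ₐ[ℚ] ℂ => σ α ^ p ^ (k + 1))
    (fun σ : L →ₐ[ℚ] ℂ => σ α ^ p ^ k) (by
      intro n hn1 hn2
      rw [hcard] at hn2
      have h1 := sub_eq_zero.1 (hcon n hn1 hn2)
      have h2 := congrArg v h1
      have h3 : v (φ (T F α (n * p ^ k))) = (v.comp φ) (T F α (n * p ^ k)) := rfl
      rw [h3, T_fib, T_fib] at h2
      simp only [← pow_mul]
      simp only [mul_comm (p ^ (k + 1)) n, mul_comm (p ^ k) n]
      exact h2) hτ
  have h4 : τ ((α ^ p ^ k) ^ p) = τ' (α ^ p ^ k) := by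
    rw [← pow_mul, ← pow_succ, map_pow, map_pow]
    exact h
  have h5 : minpoly ℚ ((α ^ p ^ k) ^ p) = minpoly ℚ (α ^ p ^ k) := by
    rw [← minpoly.algHom_eq τ τ.injective ((α ^ p ^ k) ^ p), h4,
      minpoly.algHom_eq τ' τ'.injective]
  obtain ⟨n, hn, hn1⟩ := torsion_of_conj hp (pow_ne_zero _ hα0) h5
  refine hroot (p ^ k * n) (Nat.mul_pos (pow_pos (by omega) _) hn) ?_
  rw [pow_mul]
  exact hn1

/-- **The norm inequality.** -/
theorem ineq [FiniteDimensional ℚ F] {α : L} (hα : IsIntegral ℤ α) {p : ℕ} (hp : p.Prime) (hα0 : α ≠ 0)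
    (hroot : ∀ n : ℕ, 0 < n → α ^ n ≠ 1) (φ : F →ₐ[ℚ] F)
    (hφ : ∀ x : F, IsIntegral ℤ x → ∃ y : F, IsIntegral ℤ y ∧ x ^ p = φ x + p * y) (k : ℕ) :
    ((p : ℝ) ^ (k + 1)) ^ Module.finrank ℚ F ≤ (2 * (Module.finrank F L : ℝ)) ^ Module.finrank ℚ F *
      MM α ^ (Module.finrank F L * (p ^ (k + 1) + p ^ k)) := by
  classical
  haveI : FiniteDimensional F L := FiniteDimensional.right ℚ F L
  obtain ⟨n, hn1, hn2, hne⟩ := exists_ne (F := F) hp.two_le hα0 hroot φ k
  obtain ⟨y, hy, hyz⟩ := T_cong (F := F) hα hp φ hφ n k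
  have h1 := W738.SAL.pow_le_prod hy hyz hne
  have hm : (1 : ℝ) ≤ Module.finrank F L := by
    exact_mod_cast (Module.finrank_pos : 0 < Module.finrank F L)
  have h2 : ∀ v : F →ₐ[ℚ] ℂ, ‖v (T F α (n * p ^ (k + 1)) - φ (T F α (n * p ^ k)))‖ ≤
      2 * (Module.finrank F L : ℝ) * (A α v ^ (n * p ^ (k + 1)) * A α (v.comp φ) ^ (n * p ^ k)) := by
    intro v
    have e1 := norm_T v α (n * p ^ (k + 1))
    have e2 := norm_T (v.comp φ) α (n * p ^ k)
    have e3 : ‖v (T F α (n * p ^ (k + 1)) - φ (T F α (n * p ^ k)))‖ ≤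
        ‖v (T F α (n * p ^ (k + 1)))‖ + ‖(v.comp φ) (T F α (n * p ^ k))‖ := by
      rw [map_sub]
      exact norm_sub_le _ _
    have e4 : 1 ≤ A α v ^ (n * p ^ (k + 1)) := one_le_pow₀ (one_le_A α v)
    have e5 : 1 ≤ A α (v.comp φ) ^ (n * p ^ k) := one_le_pow₀ (one_le_A α _)
    set a := A α v ^ (n * p ^ (k + 1))
    set b := A α (v.comp φ) ^ (n * p ^ k)
    have e6 : a + b ≤ 2 * (a * b) := by nlinarith
    calc _ ≤ _ := e3
      _ ≤ Module.finrank F L * a + Module.finrank F L * b := add_le_add e1 e2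
      _ = Module.finrank F L * (a + b) := by ring
      _ ≤ Module.finrank F L * (2 * (a * b)) := mul_le_mul_of_nonneg_left e6 (by linarith)
      _ = _ := by ring
  have h3 := h1.trans (prod_le_prod (fun _ _ => norm_nonneg _) fun v _ => h2 v)
  rw [prod_mul_distrib, prod_const, card_univ, AlgHom.card ℚ F ℂ, prod_mul_distrib,
    prod_pow, prod_pow, prod_A, prod_A_comp, ← pow_add] at h3
  push_cast at h3
  refine h3.trans (mul_le_mul_of_nonneg_left ?_ (by positivity))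
  refine pow_le_pow_right₀ (one_le_MM α) ?_
  rw [← mul_add]
  exact Nat.mul_le_mul_right _ hn2

/-- **The norm inequality**, `p` splits completely. -/
theorem ineq_split [FiniteDimensional ℚ F] {α : L} (hα : IsIntegral ℤ α) {p : ℕ} (hp : p.Prime) (hα0 : α ≠ 0)
    (hroot : ∀ n : ℕ, 0 < n → α ^ n ≠ 1)
    (hφ : ∀ x : F, IsIntegral ℤ x → ∃ y : F, IsIntegral ℤ y ∧ x ^ p = x + p * y) (k : ℕ) :
    ((p : ℝ) ^ (k + 1)) ^ Module.finrank ℚ F ≤ (2 * (Module.finrank F L : ℝ)) ^ Module.finrank ℚ F *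
      MM α ^ (Module.finrank F L * p ^ (k + 1)) := by
  classical
  haveI : FiniteDimensional F L := FiniteDimensional.right ℚ F L
  obtain ⟨n, hn1, hn2, hne⟩ := exists_ne (F := F) hp.two_le hα0 hroot (AlgHom.id ℚ F) k
  obtain ⟨y, hy, hyz⟩ := T_cong (F := F) hα hp (AlgHom.id ℚ F) hφ n k
  have h1 := W738.SAL.pow_le_prod hy hyz hne
  have hm : (1 : ℝ) ≤ Module.finrank F L := by
    exact_mod_cast (Module.finrank_pos : 0 < Module.finrank F L)
  have h2 : ∀ v : F →ₐ[ℚ] ℂ, ‖v (T F α (n * p ^ (k + 1)) - AlgHom.id ℚ F (T F α (n * p ^ k)))‖ ≤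
      2 * (Module.finrank F L : ℝ) * A α v ^ (n * p ^ (k + 1)) := by
    intro v
    have e1 := norm_T v α (n * p ^ (k + 1))
    have e2 := norm_T v α (n * p ^ k)
    have e3 : ‖v (T F α (n * p ^ (k + 1)) - AlgHom.id ℚ F (T F α (n * p ^ k)))‖ ≤
        ‖v (T F α (n * p ^ (k + 1)))‖ + ‖v (T F α (n * p ^ k))‖ := by
      rw [map_sub, AlgHom.coe_id, id]
      exact norm_sub_le _ _
    have e4 : A α v ^ (n * p ^ k) ≤ A α v ^ (n * p ^ (k + 1)) :=
      pow_le_pow_right₀ (one_le_A α v)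
        (Nat.mul_le_mul_left _ (Nat.pow_le_pow_right hp.pos (Nat.le_succ k)))
    have e5 : (Module.finrank F L : ℝ) * A α v ^ (n * p ^ k) ≤
        Module.finrank F L * A α v ^ (n * p ^ (k + 1)) :=
      mul_le_mul_of_nonneg_left e4 (by linarith)
    linarith
  have h3 := h1.trans (prod_le_prod (fun _ _ => norm_nonneg _) fun v _ => h2 v)
  rw [prod_mul_distrib, prod_const, card_univ, AlgHom.card ℚ F ℂ, prod_pow, prod_A] at h3
  push_cast at h3
  refine h3.trans (mul_le_mul_of_nonneg_left ?_ (by positivity))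
  exact pow_le_pow_right₀ (one_le_MM α) (Nat.mul_le_mul_right _ hn2)

end

end Pool.Agent.Q262.RL
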