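import Mathlib
import Pool.Agent.Q262.RL.Tr

/-!
# The Mahler measure and the product over the embeddings
-/

set_option autoImplicit false
set_option linter.unusedSectionVars false
set_option linter.style.haveILetI false

open Finset Polynomial Pool.Agent.Q262.AB

namespace Pool.Agent.Q262.RL

theorem mahler_gen {E : Type} [Field E] [Algebra ℚ E] [FiniteDimensional ℚ E] {x : E}
    (hx : IsIntegral ℤ x) (hinj : ∀ σ τ : E →ₐ[ℚ] ℂ, σ x = τ x → σ = τ) :
    MM x = ((minpoly ℤ x).map (Int.castRingHom ℂ)).mahlerMeasure := by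
  classical
  have hxQ : IsIntegral ℚ x := hx.tower_top
  have hP : (minpoly ℤ x).map (Int.castRingHom ℂ) = (minpoly ℚ x).map (algebraMap ℚ ℂ) := by
    rw [minpoly.isIntegrallyClosed_eq_field_fractions' ℚ hx, Polynomial.map_map]
    rfl
  have hnd : ((minpoly ℚ x).map (algebraMap ℚ ℂ)).roots.Nodup := by
    refine nodup_roots ?_
    exact ((minpoly.irreducible hxQ).separable).map
  have hmon : ((minpoly ℚ x).map (algebraMap ℚ ℂ)).Monic := (minpoly.monic hxQ).map _
  have hroots : (univ : Finset (E →ₐ[ℚ] ℂ)).val.map (fun τ => τ x) =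
      ((minpoly ℚ x).map (algebraMap ℚ ℂ)).roots := by
    refine (Multiset.Nodup.ext (Multiset.Nodup.map (fun σ τ h => hinj σ τ h) univ.nodup) hnd).2 ?_
    intro z
    rw [Multiset.mem_map, mem_roots hmon.ne_zero, IsRoot.def, eval_map_algebraMap]
    constructor
    · rintro ⟨τ, -, rfl⟩
      rw [aeval_algHom_apply, minpoly.aeval, map_zero]
    · intro h
      have h1 : z ∈ (minpoly ℚ x).rootSet ℂ := by
        rw [mem_rootSet]
        exact ⟨minpoly.ne_zero hxQ, h⟩
      rw [← Algebra.IsAlgebraic.range_eval_eq_rootSet_minpoly (K := E) ℂ x] at h1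
      obtain ⟨τ, hτ⟩ := h1
      exact ⟨τ, by simp, hτ⟩
  rw [hP, mahlerMeasure_eq_leadingCoeff_mul_prod_roots, hmon.leadingCoeff, norm_one, one_mul,
    ← hroots, Multiset.map_map]
  rfl

theorem log_MM_aux {L E : Type} [Field L] [Field E] [Algebra ℚ L] [Algebra ℚ E] [Algebra E L]
    [IsScalarTower ℚ E L] [FiniteDimensional ℚ L] {α : L} (hα : IsIntegral ℤ α) {x : E}
    (hxα : algebraMap E L x = α) (hinj : ∀ σ τ : E →ₐ[ℚ] ℂ, σ x = τ x → σ = τ)
    (h3 : Module.finrank ℚ E = (minpoly ℤ α).natDegree) :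
    Real.log (MM α) * (minpoly ℤ α).natDegree = Module.finrank ℚ L *
      Real.log ((minpoly ℤ α).map (Int.castRingHom ℂ)).mahlerMeasure := by
  classical
  haveI hfin : FiniteDimensional ℚ E := FiniteDimensional.left ℚ E L
  have hxi : IsIntegral ℤ x := by
    rw [← hxα] at hα
    exact (isIntegral_algebraMap_iff (algebraMap E L).injective).mp hα
  have hmin : minpoly ℤ x = minpoly ℤ α := by
    rw [← hxα]
    exact (minpoly.algebraMap_eq (algebraMap E L).injective x).symm
  have h1 := mahler_gen hxi hinj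
  rw [hmin] at h1
  have h2 : MM α = MM x ^ Module.finrank E L := by
    rw [← prod_A (F := E) α]
    unfold MM
    rw [← prod_pow]
    refine prod_congr rfl fun σ _ => ?_
    unfold A
    rw [← card_fib (L := L) σ, ← prod_const]
    refine prod_congr rfl fun τ hτ => ?_
    rw [← hxα, mem_fib.1 hτ x]
  rw [h2, Real.log_pow, h1, ← h3, ← Module.finrank_mul_finrank ℚ E L]
  push_cast
  ring

theorem log_MM {L : Type} [Field L] [Algebra ℚ L] [FiniteDimensional ℚ L] {α : L}
    (hα : IsIntegral ℤ α) :
    Real.log (MM α) * (minpoly ℤ α).natDegree = Module.finrank ℚ L *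
      Real.log ((minpoly ℤ α).map (Int.castRingHom ℂ)).mahlerMeasure := by
  have hαQ : IsIntegral ℚ α := hα.tower_top
  refine @log_MM_aux L (IntermediateField.adjoin ℚ {α}) _ _ _
    (IntermediateField.adjoin ℚ {α}).algebra' _ _ _ α hα
    (IntermediateField.AdjoinSimple.gen ℚ α) (IntermediateField.AdjoinSimple.algebraMap_gen ℚ α)
    ?_ ?_
  · intro σ τ h
    apply IntermediateField.adjoin_algHom_ext ℚ (s := {α})
    intro y hy
    rw [Set.mem_singleton_iff] at hy
    subst hy
    exact h
  · rw [IntermediateField.adjoin.finrank hαQ,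
      minpoly.isIntegrallyClosed_eq_field_fractions' ℚ hα]
    exact natDegree_map_eq_of_injective (algebraMap ℤ ℚ).injective_int _

end Pool.Agent.Q262.RL
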