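import Mathlib
import Pool.Agent.TH53.HR3

/-!
# The energy bound by Hadamard's inequality
-/

set_option autoImplicit false

open Finset

namespace Pool.Agent.Q262.RL

lemma sum_symm {N : ℕ} (F : Fin N → Fin N → ℝ) (hs : ∀ i j, F i j = F j i) (h0 : ∀ i, F i i = 0) :
    ∑ i, ∑ j, F i j = 2 * ∑ i, ∑ j ∈ Ioi i, F i j := by
  have h1 : ∀ i, ∑ j, F i j = ∑ j ∈ Ioi i, F i j + ∑ j ∈ Iio i, F i j := by
    intro i
    have h2 : (Finset.univ : Finset (Fin N)) = (Ioi i ∪ Iio i) ∪ {i} := by
      ext j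
      simp only [Finset.mem_univ, Finset.mem_union, Finset.mem_Ioi, Finset.mem_Iio,
        Finset.mem_singleton, true_iff]
      rcases lt_trichotomy i j with h | h | h
      · exact Or.inl (Or.inl h)
      · exact Or.inr h.symm
      · exact Or.inl (Or.inr h)
    rw [h2, Finset.sum_union, Finset.sum_union, Finset.sum_singleton, h0, add_zero]
    · rw [Finset.disjoint_left]
      intro j hj hj'
      rw [Finset.mem_Ioi] at hj
      rw [Finset.mem_Iio] at hj'
      exact absurd hj (not_lt.mpr hj'.le)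
    · rw [Finset.disjoint_left]
      intro j hj hj'
      rw [Finset.mem_singleton] at hj'
      subst hj'
      simp at hj
  have h3 : ∑ i, ∑ j ∈ Iio i, F i j = ∑ i, ∑ j ∈ Ioi i, F i j := by
    rw [Finset.sum_comm' (t' := Finset.univ) (s' := fun j => Ioi j) (by
      intro i j
      simp)]
    refine Finset.sum_congr rfl fun i _ => Finset.sum_congr rfl fun j _ => hs j i
  rw [Finset.sum_congr rfl fun i _ => h1 i, Finset.sum_add_distrib, h3]
  ring

lemma energy_fin_le {N : ℕ} (v : Fin N → ℂ) (hv : Function.Injective v) :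
    ∑ i, ∑ j, Real.log ‖v i - v j‖ ≤
      N * Real.log N + 2 * ((N : ℝ) - 1) * ∑ i, Real.log (max 1 ‖v i‖) := by
  rcases Nat.eq_zero_or_pos N with hN | hN
  · subst hN
    simp
  have hdet0 : (Matrix.vandermonde v).det ≠ 0 := Matrix.det_vandermonde_ne_zero_iff.mpr hv
  have hlog : Real.log ‖(Matrix.vandermonde v).det‖ = ∑ i, ∑ j ∈ Ioi i, Real.log ‖v i - v j‖ := by
    rw [Matrix.det_vandermonde, norm_prod, Real.log_prod]
    · refine Finset.sum_congr rfl fun i _ => ?_
      rw [norm_prod, Real.log_prod]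
      · refine Finset.sum_congr rfl fun j _ => ?_
        rw [norm_sub_rev]
      · intro j hj
        rw [Finset.mem_Ioi] at hj
        rw [Ne, norm_eq_zero, sub_eq_zero]
        intro h
        exact hj.ne' (hv h)
    · intro i _
      rw [norm_prod, Finset.prod_ne_zero_iff]
      intro j hj
      rw [Finset.mem_Ioi] at hj
      rw [Ne, norm_eq_zero, sub_eq_zero]
      intro h
      exact hj.ne' (hv h)
  rw [sum_symm (fun i j => Real.log ‖v i - v j‖)
    (fun i j => by rw [norm_sub_rev]) (fun i => by rw [sub_self, norm_zero, Real.log_zero]), ← hlog]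
  have hd : 0 < ‖(Matrix.vandermonde v).det‖ := norm_pos_iff.mpr hdet0
  have h1 := Real.log_le_log (by positivity) (Pool.Agent.TH53.HR.vandermonde_le v)
  have hN0 : (0:ℝ) < N := by exact_mod_cast hN
  have hm : ∀ i, (0:ℝ) < max 1 ‖v i‖ := fun i => lt_of_lt_of_le one_pos (le_max_left _ _)
  rw [Real.log_pow, Real.log_mul (by positivity) (Finset.prod_ne_zero_iff.mpr fun i _ =>
    (pow_pos (hm i) _).ne'), Real.log_pow, Real.log_prod fun i _ => (pow_pos (hm i) _).ne'] at h1
  simp only [Real.log_pow] at h1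
  rw [← Finset.mul_sum] at h1
  have h2 : ((2 * (N - 1) : ℕ) : ℝ) = 2 * ((N : ℝ) - 1) := by
    rw [Nat.cast_mul, Nat.cast_sub hN]; norm_num
  rw [h2] at h1
  exact_mod_cast h1


/-- **The energy bound** for a finite family of different complex numbers. -/
theorem energy_on {ι : Type*} (s : Finset ι) (z : ι → ℂ) (hinj : Set.InjOn z s) :
    ∑ a ∈ s, ∑ b ∈ s, Real.log ‖z a - z b‖ ≤
      s.card * Real.log s.card + 2 * ((s.card : ℝ) - 1) * ∑ a ∈ s, Real.log (max 1 ‖z a‖) := by
  set e := s.equivFin.symm with he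
  have h := energy_fin_le (fun i : Fin s.card => z (e i)) (by
    intro i j hij
    exact e.injective (Subtype.ext (hinj (e i).2 (e j).2 hij)))
  have h1 : ∑ a ∈ s, ∑ b ∈ s, Real.log ‖z a - z b‖ =
      ∑ i, ∑ j, Real.log ‖z (e i) - z (e j)‖ := by
    rw [← Finset.sum_coe_sort s, ← Equiv.sum_comp e]
    refine Finset.sum_congr rfl fun i _ => ?_
    rw [← Finset.sum_coe_sort s, ← Equiv.sum_comp e]
  have h2 : ∑ a ∈ s, Real.log (max 1 ‖z a‖) = ∑ i, Real.log (max 1 ‖z (e i)‖) := by
    rw [← Finset.sum_coe_sort s, ← Equiv.sum_comp e]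
  rw [h1, h2]
  exact h

end Pool.Agent.Q262.RL
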