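import Mathlib
import Pool.Agent.Q262.RL.Tr

/-!
# The minimal polynomial over a subfield and the embeddings
-/

set_option autoImplicit false
set_option linter.unusedSectionVars false
set_option linter.style.haveILetI false

open Finset Polynomial Pool.Agent.Q262.AB

namespace Pool.Agent.Q262.RL

section

variable {F L : Type} [Field F] [Field L] [Algebra ℚ F] [Algebra ℚ L] [Algebra F L]
  [IsScalarTower ℚ F L] [FiniteDimensional ℚ L]

/-- `x` has different images under the embeddings over `v`. -/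
def Inj (v : F →ₐ[ℚ] ℂ) (x : L) : Prop :=
  ∀ τ ∈ fib (L := L) v, ∀ τ' ∈ fib (L := L) v, τ x = τ' x → τ = τ'

theorem minpoly_fib (v : F →ₐ[ℚ] ℂ) {x : L} (hinj : Inj v x) :
    (minpoly F x).map (v : F →+* ℂ) = ∏ τ ∈ fib (L := L) v, (X - C (τ x)) := by
  classical
  letI : Algebra F ℂ := v.toRingHom.toAlgebra
  haveI : IsScalarTower ℚ F ℂ := IsScalarTower.of_algebraMap_eq fun q => (v.commutes q).symm
  haveI : FiniteDimensional F L := FiniteDimensional.right ℚ F L
  haveI : CharZero F := charZero_of_injective_algebraMap (algebraMap ℚ F).injective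
  have hx : IsIntegral F x := Algebra.IsIntegral.isIntegral x
  have hv : (v : F →+* ℂ) = algebraMap F ℂ := rfl
  rw [hv]
  set P := (minpoly F x).map (algebraMap F ℂ) with hP
  have hmon : P.Monic := (minpoly.monic hx).map _
  have hnd : P.roots.Nodup := nodup_roots ((minpoly.irreducible hx).separable).map
  have hroots : P.roots = (fib (L := L) v).val.map (fun τ => τ x) := by
    refine (Multiset.Nodup.ext hnd ?_).2 ?_
    · refine Multiset.Nodup.map_on ?_ (fib (L := L) v).nodup
      intro τ hτ τ' hτ' h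
      exact hinj τ hτ τ' hτ' h
    · intro z
      rw [Multiset.mem_map, mem_roots hmon.ne_zero, IsRoot.def, hP, eval_map_algebraMap]
      constructor
      · intro h
        have h1 : z ∈ (minpoly F x).rootSet ℂ := by
          rw [mem_rootSet]
          exact ⟨minpoly.ne_zero hx, h⟩
        rw [← Algebra.IsAlgebraic.range_eval_eq_rootSet_minpoly (K := L) ℂ x] at h1
        obtain ⟨ψ, hψ⟩ := h1
        exact ⟨ψ.restrictScalars ℚ, mem_fib.2 fun a => ψ.commutes a, hψ⟩
      · rintro ⟨τ, hτ, rfl⟩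
        have hτ' : τ ∈ fib (L := L) v := hτ
        let ψ : L →ₐ[F] ℂ := { τ.toRingHom with commutes' := mem_fib.1 hτ' }
        have h2 : τ x = ψ x := rfl
        rw [h2, aeval_algHom_apply, minpoly.aeval, map_zero]
  have h3 : P = (P.roots.map fun a => X - C a).prod :=
    (IsAlgClosed.splits P).eq_prod_roots_of_monic hmon
  rw [h3, hroots, Multiset.map_map]
  rfl

theorem minpoly_eval (v : F →ₐ[ℚ] ℂ) {x : L} (hinj : Inj v x) (z : ℂ) :
    eval z ((minpoly F x).map (v : F →+* ℂ)) = ∏ τ ∈ fib (L := L) v, (z - τ x) := by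
  rw [minpoly_fib v hinj, eval_prod]
  exact prod_congr rfl fun τ _ => by simp

open Classical in
theorem minpoly_deriv (v : F →ₐ[ℚ] ℂ) {x : L} (hinj : Inj v x) {τ : L →ₐ[ℚ] ℂ}
    (hτ : τ ∈ fib (L := L) v) :
    τ (aeval x (derivative (minpoly F x))) = ∏ τ' ∈ (fib (L := L) v).erase τ, (τ x - τ' x) := by
  have h1 : τ (aeval x (derivative (minpoly F x))) =
      eval (τ x) (derivative ((minpoly F x).map (v : F →+* ℂ))) := by
    letI : Algebra F ℂ := v.toRingHom.toAlgebra
    let ψ : L →ₐ[F] ℂ := { τ.toRingHom with commutes' := mem_fib.1 hτ }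
    have e1 : τ (aeval x (derivative (minpoly F x))) = ψ (aeval x (derivative (minpoly F x))) := rfl
    have e2 : τ x = ψ x := rfl
    have e3 : (v : F →+* ℂ) = algebraMap F ℂ := rfl
    rw [e1, e2, e3, ← aeval_algHom_apply, derivative_map, eval_map_algebraMap]
  rw [h1, minpoly_fib v hinj, derivative_prod_finset, eval_finset_sum]
  rw [sum_eq_single_of_mem τ hτ]
  · rw [eval_mul, eval_prod]
    simp
  · intro τ' hτ' hne
    rw [eval_mul, eval_prod, prod_eq_zero (mem_erase.2 ⟨hne.symm, hτ⟩) (by simp), zero_mul]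

/-- Evaluation of a conjugate polynomial. -/
theorem eval_conj (v : F →ₐ[ℚ] ℂ) {τ : L →ₐ[ℚ] ℂ} (hτ : τ ∈ fib (L := L) v) (φ : F →ₐ[ℚ] F)
    (Q : F[X]) (z : L) :
    τ (aeval z (Q.map (φ : F →+* F))) = eval (τ z) (Q.map ((v.comp φ : F →ₐ[ℚ] ℂ) : F →+* ℂ)) := by
  letI : Algebra F ℂ := v.toRingHom.toAlgebra
  let ψ : L →ₐ[F] ℂ := { τ.toRingHom with commutes' := mem_fib.1 hτ }
  have e1 : τ (aeval z (Q.map (φ : F →+* F))) = ψ (aeval z (Q.map (φ : F →+* F))) := rfl
  have e2 : τ z = ψ z := rfl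
  have e3 : ((v.comp φ : F →ₐ[ℚ] ℂ) : F →+* ℂ) = (algebraMap F ℂ).comp (φ : F →+* F) := rfl
  rw [e1, e2, e3, ← aeval_algHom_apply, ← Polynomial.map_map, eval_map_algebraMap]

end

end Pool.Agent.Q262.RL
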