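import Mathlib
import Pool.Agent.Q262.RL.Min
import Pool.Agent.Q262.RL.En

/-!
# The inequality in the nondegenerate case
-/

set_option autoImplicit false
set_option linter.unusedSectionVars false
set_option linter.style.haveILetI false

open Finset Polynomial Pool.Agent.Q262.AB

namespace Pool.Agent.Q262.RL

section

variable {F L : Type} [Field F] [Field L] [Algebra ℚ F] [Algebra ℚ L] [Algebra F L]
  [IsScalarTower ℚ F L] [FiniteDimensional ℚ L]

lemma natDegree_minpoly_fib (v : F →ₐ[ℚ] ℂ) {x : L} (hinj : Inj v x) :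
    (minpoly F x).natDegree = Module.finrank F L := by
  have h1 := congrArg natDegree (minpoly_fib v hinj)
  rw [natDegree_map, natDegree_prod_of_monic _ _ fun τ _ => monic_X_sub_C _] at h1
  simpa [card_fib] using h1

/-- the coefficients as sums of powers -/
lemma coeff_fib (v : F →ₐ[ℚ] ℂ) {x : L} (hinj : Inj v x) {i : ℕ} (hi : i ≤ Module.finrank F L) :
    v ((-1) ^ (Module.finrank F L - i) * (minpoly F x).coeff i) =
      ∑ S ∈ powersetCard (Module.finrank F L - i) (fib (L := L) v), ∏ τ ∈ S, τ x := by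
  have h1 := congrArg (fun P : ℂ[X] => P.coeff i) (minpoly_fib v hinj)
  simp only [coeff_map] at h1
  have h2 : (∏ τ ∈ fib (L := L) v, (X - C (τ x))) =
      (((fib (L := L) v).val.map fun τ => τ x).map fun t => (X - C t : ℂ[X])).prod := by
    rw [Multiset.map_map]
    rfl
  have hcard : Multiset.card ((fib (L := L) v).val.map fun τ => τ x) = Module.finrank F L := by
    rw [Multiset.card_map]
    exact card_fib v
  rw [h2, Multiset.prod_X_sub_C_coeff _ (by rw [hcard]; exact hi), hcard,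
    Finset.esymm_map_val] at h1
  have h3 : v ((minpoly F x).coeff i) = (v : F →+* ℂ) ((minpoly F x).coeff i) := rfl
  rw [map_mul, map_pow, map_neg, map_one, h3, h1, ← mul_assoc, ← mul_pow, neg_one_mul, neg_neg,
    one_pow, one_mul]

lemma coeff_int (v : F →ₐ[ℚ] ℂ) {x : L} (hx : IsIntegral ℤ x) (hinj : Inj v x) (i : ℕ) :
    IsIntegral ℤ ((minpoly F x).coeff i) := by
  rcases le_or_gt i (Module.finrank F L) with hi | hi
  · set e := Module.finrank F L - i with he
    have h1 : IsIntegral ℤ ((-1) ^ e * (minpoly F x).coeff i) := by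
      have h2 : IsIntegral ℤ (v ((-1) ^ e * (minpoly F x).coeff i)) := by
        rw [coeff_fib v hinj hi]
        exact IsIntegral.sum _ fun S _ => IsIntegral.prod _ fun τ _ => hx.map (τ.restrictScalars ℤ)
      exact (isIntegral_algHom_iff (v.restrictScalars ℤ) v.injective).1 h2
    have h3 : (minpoly F x).coeff i = (-1) ^ e * ((-1) ^ e * (minpoly F x).coeff i) := by
      rw [← mul_assoc, ← mul_pow, neg_one_mul, neg_neg, one_pow, one_mul]
    rw [h3]
    exact (isIntegral_one.neg.pow e).mul h1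
  · rw [coeff_eq_zero_of_natDegree_lt (by rw [natDegree_minpoly_fib v hinj]; exact hi)]
    exact isIntegral_zero

theorem coeff_cong {α : L} (hα : IsIntegral ℤ α) {p : ℕ} (hp : p.Prime) (φ : F →ₐ[ℚ] F)
    (hφ : ∀ x : F, IsIntegral ℤ x → ∃ y : F, IsIntegral ℤ y ∧ x ^ p = φ x + p * y)
    (v : F →ₐ[ℚ] ℂ) (hnd : ∀ j, Inj v (α ^ p ^ j)) (k i : ℕ) :
    ∃ y : F, IsIntegral ℤ y ∧ (minpoly F (α ^ p ^ (k + 1))).coeff i -
      φ ((minpoly F (α ^ p ^ k)).coeff i) = ((p ^ (k + 1) : ℕ) : F) * y := by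
  classical
  haveI : Fact p.Prime := ⟨hp⟩
  rcases le_or_gt i (Module.finrank F L) with hi | hi
  · set e := Module.finrank F L - i with he
    obtain ⟨c, hc, hs⟩ := exists_coord v (p := p) (powersetCard e (fib (L := L) v))
      (fun S => ∏ τ ∈ S, τ α) (fun S _ => IsIntegral.prod _ fun τ _ => hα.map (τ.restrictScalars ℤ))
      (fun j => (-1) ^ e * (minpoly F (α ^ p ^ j)).coeff i) (by
        intro j
        rw [coeff_fib v (hnd j) hi]
        refine sum_congr rfl fun S _ => ?_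
        rw [← prod_pow]
        exact prod_congr rfl fun τ _ => map_pow τ α _)
    obtain ⟨y, hy, hyz⟩ := cong_pow (AlgHom.id ℚ F) φ hφ
      (fun j => (-1) ^ e * (minpoly F (α ^ p ^ j)).coeff i) c hc hs k
    refine ⟨(-1) ^ e * y, ?_, ?_⟩
    · exact (isIntegral_one.neg.pow e).mul hy
    · have h1 : ((-1 : F) ^ e) * ((-1) ^ e) = 1 := by
        rw [← mul_pow, neg_one_mul, neg_neg, one_pow]
      simp only [AlgHom.coe_id, id, map_mul, map_pow, map_neg, map_one] at hyz
      calc (minpoly F (α ^ p ^ (k + 1))).coeff i - φ ((minpoly F (α ^ p ^ k)).coeff i)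
          = ((-1) ^ e * (-1) ^ e) * ((minpoly F (α ^ p ^ (k + 1))).coeff i -
            φ ((minpoly F (α ^ p ^ k)).coeff i)) := by rw [h1, one_mul]
        _ = (-1) ^ e * ((-1) ^ e * (minpoly F (α ^ p ^ (k + 1))).coeff i -
            (-1) ^ e * φ ((minpoly F (α ^ p ^ k)).coeff i)) := by ring
        _ = (-1) ^ e * (((p ^ (k + 1) : ℕ) : F) * y) := by rw [hyz]
        _ = _ := by ring
  · refine ⟨0, isIntegral_zero, ?_⟩
    rw [coeff_eq_zero_of_natDegree_lt (by rw [natDegree_minpoly_fib v (hnd _)]; exact hi),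
      coeff_eq_zero_of_natDegree_lt (by rw [natDegree_minpoly_fib v (hnd _)]; exact hi),
      map_zero, sub_zero, mul_zero]

/-- the conjugates of consecutive powers are different -/
lemma ne_conj {α : L} {p : ℕ} (hp : 2 ≤ p) (hα0 : α ≠ 0) (hroot : ∀ n : ℕ, 0 < n → α ^ n ≠ 1)
    (k : ℕ) (τ τ' : L →ₐ[ℚ] ℂ) : τ (α ^ p ^ (k + 1)) ≠ τ' (α ^ p ^ k) := by
  intro h
  have h5 : minpoly ℚ ((α ^ p ^ k) ^ p) = minpoly ℚ (α ^ p ^ k) := by
    rw [← pow_mul, ← pow_succ, ← minpoly.algHom_eq τ τ.injective (α ^ p ^ (k + 1)), h,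
      minpoly.algHom_eq τ' τ'.injective]
  obtain ⟨n, hn, hn1⟩ := torsion_of_conj hp (pow_ne_zero _ hα0) h5
  refine hroot (p ^ k * n) (Nat.mul_pos (pow_pos (by omega) _) hn) ?_
  rw [pow_mul]
  exact hn1

/-- the value of the conjugate polynomial -/
theorem value {α : L} (hα : IsIntegral ℤ α) {p : ℕ} (hp : p.Prime) (φ : F →ₐ[ℚ] F)
    (hφ : ∀ x : F, IsIntegral ℤ x → ∃ y : F, IsIntegral ℤ y ∧ x ^ p = φ x + p * y)
    (v : F →ₐ[ℚ] ℂ) (hnd : ∀ j, Inj v (α ^ p ^ j)) (k : ℕ) :
    ∃ h : L, IsIntegral ℤ h ∧ aeval (α ^ p ^ (k + 1)) ((minpoly F (α ^ p ^ k)).map (φ : F →+* F)) =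
      ((p ^ (k + 1) : ℕ) : L) * h := by
  choose y hy hyz using coeff_cong hα hp φ hφ v hnd k
  set x := α ^ p ^ (k + 1) with hx
  set N := Module.finrank F L + 1 with hN
  have hxi : IsIntegral ℤ x := hα.pow _
  refine ⟨-∑ i ∈ range N, algebraMap F L (y i) * x ^ i, ?_, ?_⟩
  · refine IsIntegral.neg (IsIntegral.sum _ fun i _ => ?_)
    exact ((hy i).algebraMap).mul (hxi.pow i)
  · have h1 : aeval x (minpoly F x) = 0 := minpoly.aeval F x
    have h2 : aeval x ((minpoly F (α ^ p ^ k)).map (φ : F →+* F)) =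
        -aeval x (minpoly F x - (minpoly F (α ^ p ^ k)).map (φ : F →+* F)) := by
      rw [map_sub, h1, zero_sub, neg_neg]
    have hdeg : (minpoly F x - (minpoly F (α ^ p ^ k)).map (φ : F →+* F)).natDegree < N := by
      refine lt_of_le_of_lt (natDegree_sub_le _ _) ?_
      rw [natDegree_map, hx, natDegree_minpoly_fib v (hnd _), natDegree_minpoly_fib v (hnd _),
        max_self]
      exact Nat.lt_succ_self _
    rw [h2, aeval_eq_sum_range' hdeg, mul_neg, mul_sum]
    congr 1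
    refine sum_congr rfl fun i _ => ?_
    rw [coeff_sub, coeff_map]
    have h3 : (minpoly F x).coeff i - (φ : F →+* F) ((minpoly F (α ^ p ^ k)).coeff i) =
        ((p ^ (k + 1) : ℕ) : F) * y i := hyz i
    rw [h3, Algebra.smul_def, map_mul, map_natCast]
    ring

open Classical in
lemma sum_fibers [FiniteDimensional ℚ F] (f : (L →ₐ[ℚ] ℂ) → ℝ) :
    ∑ τ : L →ₐ[ℚ] ℂ, f τ = ∑ v : F →ₐ[ℚ] ℂ, ∑ τ ∈ fib (L := L) v, f τ := by
  have h1 : ∀ v : F →ₐ[ℚ] ℂ, fib (L := L) v =
      univ.filter fun τ : L →ₐ[ℚ] ℂ => τ.comp (IsScalarTower.toAlgHom ℚ F L) = v := by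
    intro v
    ext τ
    rw [mem_fib, mem_filter]
    constructor
    · intro h
      exact ⟨mem_univ _, AlgHom.ext h⟩
    · rintro ⟨-, h⟩ x
      rw [← h]
      rfl
  simp only [h1]
  exact (Finset.sum_fiberwise univ (fun τ : L →ₐ[ℚ] ℂ => τ.comp (IsScalarTower.toAlgHom ℚ F L))
    f).symm

/-- the discriminants are at least one -/
theorem disc_nonneg [FiniteDimensional ℚ F] {x : L} (hx : IsIntegral ℤ x)
    (hinj : ∀ v : F →ₐ[ℚ] ℂ, Inj v x) :
    0 ≤ ∑ v : F →ₐ[ℚ] ℂ, ∑ τ ∈ fib (L := L) v, ∑ τ' ∈ fib (L := L) v, Real.log ‖τ x - τ' x‖ := by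
  classical
  haveI : FiniteDimensional F L := FiniteDimensional.right ℚ F L
  haveI : CharZero F := charZero_of_injective_algebraMap (algebraMap ℚ F).injective
  set d := aeval x (derivative (minpoly F x)) with hd
  have hxF : IsIntegral F x := Algebra.IsIntegral.isIntegral x
  have hval : ∀ v : F →ₐ[ℚ] ℂ, ∀ τ ∈ fib (L := L) v,
      ∑ τ' ∈ fib (L := L) v, Real.log ‖τ x - τ' x‖ = Real.log ‖τ d‖ := by
    intro v τ hτ
    rw [hd, minpoly_deriv v (hinj v) hτ, norm_prod, Real.log_prod, ← add_sum_erase _ _ hτ,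
      sub_self, norm_zero, Real.log_zero, zero_add]
    intro τ' hτ'
    rw [mem_erase] at hτ'
    rw [Ne, norm_eq_zero, sub_eq_zero]
    intro h
    exact hτ'.1 (hinj v τ hτ τ' hτ'.2 h).symm
  have hd0 : d ≠ 0 := by
    intro h0
    have h1 := minpoly.dvd F x h0
    have h2 : (minpoly F x).natDegree ≤ (derivative (minpoly F x)).natDegree := by
      refine natDegree_le_of_dvd h1 ?_
      exact (separable_iff_derivative_ne_zero (minpoly.irreducible hxF)).1
        (minpoly.irreducible hxF).separable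
    have h3 := natDegree_derivative_lt (minpoly.natDegree_pos hxF).ne'
    omega
  obtain ⟨v0⟩ := nonempty_emb F
  have hdi : IsIntegral ℤ d := by
    have hx' : ∀ i, IsIntegral ℤ ((derivative (minpoly F x)).coeff i) := by
      intro i
      rw [coeff_derivative]
      have hci : IsIntegral ℤ ((minpoly F x).coeff (i + 1)) := by
        exact coeff_int v0 hx (hinj v0) _
      exact hci.mul (by exact_mod_cast (isIntegral_algebraMap (R := ℤ) (x := ((i + 1 : ℕ) : ℤ))))
    rw [hd, aeval_eq_sum_range]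
    refine IsIntegral.sum _ fun i _ => ?_
    rw [Algebra.smul_def]
    exact ((hx' i).algebraMap).mul (hx.pow i)
  have h1 : 0 ≤ Real.log (∏ τ : L →ₐ[ℚ] ℂ, ‖τ d‖) :=
    Real.log_nonneg (W738.SAL.one_le_prod hdi hd0)
  rw [Real.log_prod (fun τ _ => by
    rw [Ne, norm_eq_zero]
    exact (map_ne_zero τ).2 hd0), sum_fibers (F := F)] at h1
  refine h1.trans (le_of_eq (sum_congr rfl fun v _ => sum_congr rfl fun τ hτ => ?_))
  rw [hval v τ hτ]

end

end Pool.Agent.Q262.RL
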