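import Mathlib
import Pool.Agent.Q262.RL.ND
import Pool.Agent.Q262.AB.Num2

/-!
# The linear inequality in the nondegenerate case
-/

set_option autoImplicit false
set_option linter.unusedSectionVars false
set_option linter.style.haveILetI false

open Finset Polynomial Pool.Agent.Q262.AB

namespace Pool.Agent.Q262.RL

section

variable {F L : Type} [Field F] [Field L] [Algebra ℚ F] [Algebra ℚ L] [Algebra F L]
  [IsScalarTower ℚ F L] [FiniteDimensional ℚ L]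

lemma log_max_pow (z : ℂ) (n : ℕ) : Real.log (max 1 ‖z ^ n‖) = n * Real.log (max 1 ‖z‖) := by
  have h : max 1 ‖z ^ n‖ = max 1 ‖z‖ ^ n := by
    rw [norm_pow]
    rcases le_total ‖z‖ 1 with h | h
    · rw [max_eq_left h, max_eq_left (pow_le_one₀ (norm_nonneg _) h), one_pow]
    · rw [max_eq_right h, max_eq_right (one_le_pow₀ h)]
  rw [h, Real.log_pow]

/-- the energy inequality over one embedding -/
theorem energy_fib {α : L} {p : ℕ} (hp : 2 ≤ p) (hα0 : α ≠ 0) (hroot : ∀ n : ℕ, 0 < n → α ^ n ≠ 1)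
    (v w : F →ₐ[ℚ] ℂ) (k : ℕ) (h1 : Inj v (α ^ p ^ (k + 1))) (h2 : Inj w (α ^ p ^ k)) :
    ∑ τ ∈ fib (L := L) v, ∑ τ' ∈ fib (L := L) v,
        Real.log ‖τ (α ^ p ^ (k + 1)) - τ' (α ^ p ^ (k + 1))‖ +
      2 * ∑ τ ∈ fib (L := L) v, ∑ τ' ∈ fib (L := L) w,
        Real.log ‖τ (α ^ p ^ (k + 1)) - τ' (α ^ p ^ k)‖ +
      ∑ τ ∈ fib (L := L) w, ∑ τ' ∈ fib (L := L) w,
        Real.log ‖τ (α ^ p ^ k) - τ' (α ^ p ^ k)‖ ≤
      (2 * (Module.finrank F L : ℝ)) * Real.log (2 * (Module.finrank F L : ℝ)) +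
        2 * (2 * (Module.finrank F L : ℝ) - 1) *
          ((p : ℝ) ^ (k + 1) * ∑ τ ∈ fib (L := L) v, Real.log (max 1 ‖τ α‖) +
            (p : ℝ) ^ k * ∑ τ ∈ fib (L := L) w, Real.log (max 1 ‖τ α‖)) := by
  classical
  set x := α ^ p ^ (k + 1) with hx
  set y := α ^ p ^ k with hy
  set z : (L →ₐ[ℚ] ℂ) ⊕ (L →ₐ[ℚ] ℂ) → ℂ := Sum.elim (fun τ => τ x) (fun τ => τ y) with hz
  have hne : ∀ τ τ' : L →ₐ[ℚ] ℂ, τ x ≠ τ' y := ne_conj hp hα0 hroot k
  have hinj : Set.InjOn z ((fib (L := L) v).disjSum (fib (L := L) w)) := by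
    rintro (τ | τ) hτ (τ' | τ') hτ' h
    · rw [mem_coe, inl_mem_disjSum] at hτ hτ'
      exact congrArg Sum.inl (h1 τ hτ τ' hτ' h)
    · exact absurd h (hne τ τ')
    · exact absurd h.symm (hne τ' τ)
    · rw [mem_coe, inr_mem_disjSum] at hτ hτ'
      exact congrArg Sum.inr (h2 τ hτ τ' hτ' h)
  have h := energy_on _ z hinj
  have hcard : ((((fib (L := L) v).disjSum (fib (L := L) w)).card : ℕ) : ℝ) =
      2 * (Module.finrank F L : ℝ) := by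
    rw [card_disjSum, card_fib, card_fib]
    push_cast
    ring
  rw [hcard] at h
  simp only [sum_disjSum, hz, Sum.elim_inl, Sum.elim_inr] at h
  have e1 : ∑ τ ∈ fib (L := L) v, Real.log (max 1 ‖τ x‖) =
      (p : ℝ) ^ (k + 1) * ∑ τ ∈ fib (L := L) v, Real.log (max 1 ‖τ α‖) := by
    rw [mul_sum]
    refine sum_congr rfl fun τ _ => ?_
    rw [hx, map_pow, log_max_pow]
    push_cast
    rfl
  have e2 : ∑ τ ∈ fib (L := L) w, Real.log (max 1 ‖τ y‖) =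
      (p : ℝ) ^ k * ∑ τ ∈ fib (L := L) w, Real.log (max 1 ‖τ α‖) := by
    rw [mul_sum]
    refine sum_congr rfl fun τ _ => ?_
    rw [hy, map_pow, log_max_pow]
    push_cast
    rfl
  have e3 : ∑ τ ∈ fib (L := L) w, ∑ τ' ∈ fib (L := L) v, Real.log ‖τ y - τ' x‖ =
      ∑ τ ∈ fib (L := L) v, ∑ τ' ∈ fib (L := L) w, Real.log ‖τ x - τ' y‖ := by
    rw [sum_comm]
    refine sum_congr rfl fun τ _ => sum_congr rfl fun τ' _ => ?_
    rw [norm_sub_rev]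
  rw [e1, e2] at h
  simp only [sum_add_distrib] at h
  rw [e3] at h
  linarith

/-- the product of the mixed differences -/
theorem mixed [FiniteDimensional ℚ F] {α : L} (hα : IsIntegral ℤ α) {p : ℕ} (hp : p.Prime)
    (hα0 : α ≠ 0) (hroot : ∀ n : ℕ, 0 < n → α ^ n ≠ 1) (φ : F →ₐ[ℚ] F)
    (hφ : ∀ x : F, IsIntegral ℤ x → ∃ y : F, IsIntegral ℤ y ∧ x ^ p = φ x + p * y)
    (hnd : ∀ (v : F →ₐ[ℚ] ℂ) (j : ℕ), Inj v (α ^ p ^ j)) (k : ℕ) :
    (Module.finrank ℚ L : ℝ) * ((k + 1) * Real.log p) ≤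
      ∑ v : F →ₐ[ℚ] ℂ, ∑ τ ∈ fib (L := L) v, ∑ τ' ∈ fib (L := L) (v.comp φ),
        Real.log ‖τ (α ^ p ^ (k + 1)) - τ' (α ^ p ^ k)‖ := by
  classical
  obtain ⟨v0⟩ := nonempty_emb F
  set x := α ^ p ^ (k + 1) with hx
  set y := α ^ p ^ k with hy
  set g := aeval x ((minpoly F y).map (φ : F →+* F)) with hg
  obtain ⟨h, hh, hgh⟩ := value hα hp φ hφ v0 (hnd v0) k
  have hval : ∀ v : F →ₐ[ℚ] ℂ, ∀ τ ∈ fib (L := L) v,
      τ g = ∏ τ' ∈ fib (L := L) (v.comp φ), (τ x - τ' y) := by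
    intro v τ hτ
    rw [hg, eval_conj v hτ φ, minpoly_eval (v.comp φ) (hnd _ k)]
  have hne : ∀ τ τ' : L →ₐ[ℚ] ℂ, τ x ≠ τ' y := ne_conj hp.two_le hα0 hroot k
  have hfib : ∀ τ : L →ₐ[ℚ] ℂ, τ ∈ fib (L := L) (τ.comp (IsScalarTower.toAlgHom ℚ F L)) :=
    fun τ => mem_fib.2 fun a => rfl
  have hg0 : g ≠ 0 := by
    intro h0
    obtain ⟨τ⟩ := nonempty_emb L
    have e1 := hval _ τ (hfib τ)
    rw [h0, map_zero] at e1
    exact (prod_ne_zero_iff.2 fun τ' _ => sub_ne_zero.2 (hne τ τ')) e1.symm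
  have h1 := W738.SAL.pow_le_prod hh hgh hg0
  have hp0 : (0 : ℝ) < p := by exact_mod_cast hp.pos
  have h2 := Real.log_le_log (by push_cast; positivity) h1
  rw [Real.log_prod (fun τ _ => by
    rw [Ne, norm_eq_zero]
    exact (map_ne_zero τ).2 hg0), sum_fibers (F := F), Real.log_pow] at h2
  push_cast at h2
  rw [Real.log_pow] at h2
  push_cast at h2
  refine h2.trans (le_of_eq (sum_congr rfl fun v _ => sum_congr rfl fun τ hτ => ?_))
  rw [hval v τ hτ, norm_prod, Real.log_prod]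
  intro τ' _
  rw [Ne, norm_eq_zero, sub_eq_zero]
  exact hne τ τ'

lemma log_MM_sum [FiniteDimensional ℚ F] (α : L) :
    Real.log (MM α) = ∑ v : F →ₐ[ℚ] ℂ, ∑ τ ∈ fib (L := L) v, Real.log (max 1 ‖τ α‖) := by
  unfold MM
  rw [Real.log_prod (fun τ _ => (lt_of_lt_of_le one_pos (le_max_left _ _)).ne'),
    sum_fibers (F := F)]

/-- **The linear inequality.** -/
theorem lin [FiniteDimensional ℚ F] {α : L} (hα : IsIntegral ℤ α) {p : ℕ} (hp : p.Prime)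
    (hα0 : α ≠ 0) (hroot : ∀ n : ℕ, 0 < n → α ^ n ≠ 1) (φ : F →ₐ[ℚ] F)
    (hφ : ∀ x : F, IsIntegral ℤ x → ∃ y : F, IsIntegral ℤ y ∧ x ^ p = φ x + p * y)
    (hnd : ∀ (v : F →ₐ[ℚ] ℂ) (j : ℕ), Inj v (α ^ p ^ j)) (k : ℕ) :
    (Module.finrank ℚ F : ℝ) *
        ((k + 1) * Real.log p - Real.log (2 * (Module.finrank F L : ℝ))) ≤
      2 * ((p : ℝ) ^ (k + 1) + (p : ℝ) ^ k) * Real.log (MM α) := by
  classical
  haveI : FiniteDimensional F L := FiniteDimensional.right ℚ F L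
  have hm : (1 : ℝ) ≤ Module.finrank F L := by
    exact_mod_cast (Module.finrank_pos : 0 < Module.finrank F L)
  set m : ℝ := (Module.finrank F L : ℝ) with hmdef
  set x := α ^ p ^ (k + 1) with hx
  set y := α ^ p ^ k with hy
  have hE := sum_le_sum fun v (_ : v ∈ (univ : Finset (F →ₐ[ℚ] ℂ))) =>
    energy_fib (F := F) hp.two_le hα0 hroot v (v.comp φ) k (hnd v (k + 1)) (hnd _ k)
  simp only [sum_add_distrib, ← mul_sum] at hE
  simp only [sum_const, card_univ, nsmul_eq_mul] at hE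
  rw [AlgHom.card ℚ F ℂ] at hE
  have h1 := disc_nonneg (F := F) (hα.pow (p ^ (k + 1))) fun v => hnd v (k + 1)
  have h2 := disc_nonneg (F := F) (hα.pow (p ^ k)) fun v => hnd v k
  have h3 := mixed hα hp hα0 hroot φ hφ hnd k
  have h4 : ∑ v : F →ₐ[ℚ] ℂ, ∑ τ ∈ fib (L := L) (v.comp φ), ∑ τ' ∈ fib (L := L) (v.comp φ),
      Real.log ‖τ y - τ' y‖ = ∑ v : F →ₐ[ℚ] ℂ, ∑ τ ∈ fib (L := L) v, ∑ τ' ∈ fib (L := L) v,
      Real.log ‖τ y - τ' y‖ :=
    Function.Bijective.sum_comp (comp_bij φ) fun v => ∑ τ ∈ fib (L := L) v,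
      ∑ τ' ∈ fib (L := L) v, Real.log ‖τ y - τ' y‖
  have h5 : ∑ v : F →ₐ[ℚ] ℂ, ∑ τ ∈ fib (L := L) (v.comp φ), Real.log (max 1 ‖τ α‖) =
      ∑ v : F →ₐ[ℚ] ℂ, ∑ τ ∈ fib (L := L) v, Real.log (max 1 ‖τ α‖) :=
    Function.Bijective.sum_comp (comp_bij φ) fun v => ∑ τ ∈ fib (L := L) v,
      Real.log (max 1 ‖τ α‖)
  rw [h4, h5, ← log_MM_sum, ← hmdef, ← hx, ← hy] at hE
  rw [← hx] at h1
  rw [← hy] at h2
  rw [← hx, ← hy, ← Module.finrank_mul_finrank ℚ F L] at h3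
  push_cast at h3
  rw [← hmdef] at h3
  have hMM : 0 ≤ Real.log (MM α) := Real.log_nonneg (one_le_MM α)
  set D : ℝ := (Module.finrank ℚ F : ℝ) with hD
  have h6 : 2 * (D * m * ((k + 1) * Real.log p)) ≤ D * (2 * m * Real.log (2 * m)) +
      2 * (2 * m - 1) * ((p : ℝ) ^ (k + 1) * Real.log (MM α) + (p : ℝ) ^ k * Real.log (MM α)) := by
    linarith
  have h7 : 0 ≤ ((p : ℝ) ^ (k + 1) + (p : ℝ) ^ k) * Real.log (MM α) := by positivity
  have h8 : (2 * m) * (D * ((k + 1) * Real.log p - Real.log (2 * m))) ≤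
      (2 * m) * (2 * ((p : ℝ) ^ (k + 1) + (p : ℝ) ^ k) * Real.log (MM α)) := by
    nlinarith
  exact le_of_mul_le_mul_left h8 (by linarith)

end

end Pool.Agent.Q262.RL
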