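import Mathlib
import Pool.Agent.Q262.RL.Lin

/-!
# Congruences between two levels
-/

set_option autoImplicit false
set_option linter.unusedSectionVars false
set_option linter.style.haveILetI false

open Finset Polynomial Pool.Agent.Q262.AB

namespace Pool.Agent.Q262.RL

/-- The congruence `x ^ (p ^ (g + a)) ≡ Φ(x) ^ (p ^ a) mod p` for all integers `x` of `F`. -/
def Fr {F : Type} [Field F] [Algebra ℚ F] (p g a : ℕ) (Φ : F →ₐ[ℚ] F) : Prop :=
  ∀ x : F, IsIntegral ℤ x → ∃ y : F, IsIntegral ℤ y ∧ x ^ p ^ (g + a) = Φ x ^ p ^ a + p * y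

/-- powers of congruent numbers are congruent -/
lemma cong_pow_pow {F : Type} [Field F] {p : ℕ} {u w : F} (hu : IsIntegral ℤ u)
    (hw : IsIntegral ℤ w) (h : ∃ y : F, IsIntegral ℤ y ∧ u = w + p * y) (n : ℕ) :
    ∃ y : F, IsIntegral ℤ y ∧ u ^ n = w ^ n + p * y := by
  obtain ⟨y, hy, huw⟩ := h
  have h1 := Commute.mul_geom_sum₂ (Commute.all u w) n
  refine ⟨y * ∑ i ∈ range n, u ^ i * w ^ (n - 1 - i), ?_, ?_⟩
  · exact hy.mul (IsIntegral.sum _ fun i _ => (hu.pow i).mul (hw.pow _))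
  · have h2 : u - w = p * y := by rw [huw]; ring
    rw [h2] at h1
    linear_combination -h1

lemma Fr_iter {F : Type} [Field F] [Algebra ℚ F] {p f a : ℕ} {φ : F →ₐ[ℚ] F} (h : Fr p f a φ)
    (d : ℕ) : Fr p (f * d) a (φ ^ d) := by
  induction d with
  | zero =>
    intro x hx
    refine ⟨0, isIntegral_zero, ?_⟩
    rw [mul_zero, zero_add, mul_zero, add_zero, pow_zero]
    rfl
  | succ d ih =>
    intro x hx
    obtain ⟨y, hy, hxy⟩ := h (x ^ p ^ (f * d)) (hx.pow _)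
    have hφx : IsIntegral ℤ (φ x) := hx.map (φ.restrictScalars ℤ)
    obtain ⟨y', hy', hxy'⟩ := ih (φ x) hφx
    refine ⟨y + y', hy.add hy', ?_⟩
    have e1 : x ^ p ^ (f * (d + 1) + a) = (x ^ p ^ (f * d)) ^ p ^ (f + a) := by
      rw [← pow_mul, ← pow_add]
      congr 2
      ring
    have e2 : φ (x ^ p ^ (f * d)) ^ p ^ a = φ x ^ p ^ (f * d + a) := by
      rw [map_pow, ← pow_mul, ← pow_add]
    have e3 : (φ ^ (d + 1)) x = (φ ^ d) (φ x) := by
      rw [pow_succ]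
      rfl
    rw [e1, hxy, e2, hxy', e3]
    ring

/-- The congruence modulo `p ^ (e + 1)`. -/
theorem cong_gen {F : Type} [Field F] [Algebra ℚ F] {p : ℕ} [hp : Fact p.Prime] {g a : ℕ}
    {Φ : F →ₐ[ℚ] F} (hab : Fr p g a Φ)
    (s c : ℕ → F) (hc : ∀ j, IsIntegral ℤ (c j))
    (hs : ∀ n, s n = ∑ j ∈ range (n + 1), (p : F) ^ j * c j ^ p ^ (n - j)) (e : ℕ) :
    ∃ y : F, IsIntegral ℤ y ∧ s (e + g + a) - Φ (s (e + a)) = ((p ^ (e + 1) : ℕ) : F) * y := by
  have hb : ∀ j, IsIntegral ℤ (Φ (c j)) := fun j => (hc j).map (Φ.restrictScalars ℤ)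
  let A : ℕ → integralClosure ℤ F := fun j => ⟨c j, hc j⟩
  let B : ℕ → integralClosure ℤ F := fun j => ⟨Φ (c j), hb j⟩
  have h1 : ∀ j, (p : integralClosure ℤ F) ∣ A j ^ p ^ (g + a) - B j ^ p ^ a := by
    intro j
    obtain ⟨y, hy, h⟩ := hab (c j) (hc j)
    refine ⟨⟨y, hy⟩, Subtype.ext ?_⟩
    show c j ^ p ^ (g + a) - Φ (c j) ^ p ^ a = (p : F) * y
    rw [h]
    ring
  have h2 : ∀ j ∈ range (e + 1), ((p : integralClosure ℤ F) ^ (e + 1)) ∣
      (p : integralClosure ℤ F) ^ j * A j ^ p ^ (e + g + a - j) -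
        (p : integralClosure ℤ F) ^ j * B j ^ p ^ (e + a - j) := by
    intro j hj
    rw [mem_range] at hj
    have e1 : e + g + a - j = (g + a) + (e - j) := by omega
    have e2 : e + a - j = a + (e - j) := by omega
    have e3 : e + 1 = j + (e - j + 1) := by omega
    rw [← mul_sub, e1, e2, pow_add p, pow_add p a, pow_mul, pow_mul, e3, pow_add]
    exact mul_dvd_mul_left _ (dvd_sub_pow_of_dvd_sub (h1 j) (e - j))
  have h2a : ∀ (C : ℕ → integralClosure ℤ F) (N : ℕ), ∀ j ∈ Ico (e + 1) (N + 1),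
      ((p : integralClosure ℤ F) ^ (e + 1)) ∣ (p : integralClosure ℤ F) ^ j * C j ^ p ^ (N - j) := by
    intro C N j hj
    rw [mem_Ico] at hj
    exact (pow_dvd_pow _ hj.1).mul_right _
  have hsplit : ∀ (C : ℕ → integralClosure ℤ F) (N : ℕ), e ≤ N →
      ∑ j ∈ range (N + 1), (p : integralClosure ℤ F) ^ j * C j ^ p ^ (N - j) =
      ∑ j ∈ range (e + 1), (p : integralClosure ℤ F) ^ j * C j ^ p ^ (N - j) +
      ∑ j ∈ Ico (e + 1) (N + 1), (p : integralClosure ℤ F) ^ j * C j ^ p ^ (N - j) := by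
    intro C N hN
    exact (sum_range_add_sum_Ico _ (by omega)).symm
  have h3 : ((p : integralClosure ℤ F) ^ (e + 1)) ∣
      ∑ j ∈ range (e + g + a + 1), (p : integralClosure ℤ F) ^ j * A j ^ p ^ (e + g + a - j) -
        ∑ j ∈ range (e + a + 1), (p : integralClosure ℤ F) ^ j * B j ^ p ^ (e + a - j) := by
    rw [hsplit A (e + g + a) (by omega), hsplit B (e + a) (by omega)]
    have e1 : ∀ u1 u2 w1 w2 : integralClosure ℤ F, u1 + u2 - (w1 + w2) = (u1 - w1) + (u2 - w2) := by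
      intros
      ring
    rw [e1, ← sum_sub_distrib]
    exact dvd_add (dvd_sum h2) (dvd_sub (dvd_sum (h2a A _)) (dvd_sum (h2a B _)))
  obtain ⟨y, hy⟩ := h3
  refine ⟨y, y.2, ?_⟩
  have h4 := congrArg (fun z : integralClosure ℤ F => (z : F)) hy
  simp only [Subalgebra.coe_sub, Subalgebra.coe_mul, SubmonoidClass.coe_pow,
    AddSubmonoidClass.coe_finsetSum] at h4
  rw [hs, hs, map_sum]
  have h6 : ∀ j, Φ ((p : F) ^ j * c j ^ p ^ (e + a - j)) =
      (p : F) ^ j * Φ (c j) ^ p ^ (e + a - j) := by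
    intro j
    rw [map_mul, map_pow, map_pow, map_natCast]
  simp only [h6]
  push_cast
  exact h4

section

variable {F L : Type} [Field F] [Field L] [Algebra ℚ F] [Algebra ℚ L] [Algebra F L]
  [IsScalarTower ℚ F L] [FiniteDimensional ℚ L]

theorem coeff_cong' {α : L} (hα : IsIntegral ℤ α) {p : ℕ} (hp : p.Prime) {g a : ℕ}
    {Φ : F →ₐ[ℚ] F} (hΦ : Fr p g a Φ)
    (v : F →ₐ[ℚ] ℂ) (hnd : ∀ j, Inj v (α ^ p ^ j)) (e i : ℕ) :
    ∃ y : F, IsIntegral ℤ y ∧ (minpoly F (α ^ p ^ (e + g + a))).coeff i -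
      Φ ((minpoly F (α ^ p ^ (e + a))).coeff i) = ((p ^ (e + 1) : ℕ) : F) * y := by
  classical
  haveI : Fact p.Prime := ⟨hp⟩
  rcases le_or_gt i (Module.finrank F L) with hi | hi
  · set r := Module.finrank F L - i with hr
    obtain ⟨c, hc, hs⟩ := exists_coord v (p := p) (powersetCard r (fib (L := L) v))
      (fun S => ∏ τ ∈ S, τ α) (fun S _ => IsIntegral.prod _ fun τ _ => hα.map (τ.restrictScalars ℤ))
      (fun j => (-1) ^ r * (minpoly F (α ^ p ^ j)).coeff i) (by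
        intro j
        rw [coeff_fib v (hnd j) hi]
        refine sum_congr rfl fun S _ => ?_
        rw [← prod_pow]
        exact prod_congr rfl fun τ _ => map_pow τ α _)
    obtain ⟨y, hy, hyz⟩ := cong_gen hΦ
      (fun j => (-1) ^ r * (minpoly F (α ^ p ^ j)).coeff i) c hc hs e
    refine ⟨(-1) ^ r * y, ?_, ?_⟩
    · exact (isIntegral_one.neg.pow r).mul hy
    · have h1 : ((-1 : F) ^ r) * ((-1) ^ r) = 1 := by
        rw [← mul_pow, neg_one_mul, neg_neg, one_pow]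
      simp only [map_mul, map_pow, map_neg, map_one] at hyz
      calc (minpoly F (α ^ p ^ (e + g + a))).coeff i - Φ ((minpoly F (α ^ p ^ (e + a))).coeff i)
          = ((-1) ^ r * (-1) ^ r) * ((minpoly F (α ^ p ^ (e + g + a))).coeff i -
            Φ ((minpoly F (α ^ p ^ (e + a))).coeff i)) := by rw [h1, one_mul]
        _ = (-1) ^ r * ((-1) ^ r * (minpoly F (α ^ p ^ (e + g + a))).coeff i -
            (-1) ^ r * Φ ((minpoly F (α ^ p ^ (e + a))).coeff i)) := by ring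
        _ = (-1) ^ r * (((p ^ (e + 1) : ℕ) : F) * y) := by rw [hyz]
        _ = _ := by ring
  · refine ⟨0, isIntegral_zero, ?_⟩
    rw [coeff_eq_zero_of_natDegree_lt (by rw [natDegree_minpoly_fib v (hnd _)]; exact hi),
      coeff_eq_zero_of_natDegree_lt (by rw [natDegree_minpoly_fib v (hnd _)]; exact hi),
      map_zero, sub_zero, mul_zero]

/-- the conjugates of different powers are different -/
lemma ne_conj' {α : L} {p : ℕ} (hp : 2 ≤ p) (hα0 : α ≠ 0) (hroot : ∀ n : ℕ, 0 < n → α ^ n ≠ 1)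
    {M N : ℕ} (hMN : M < N) (τ τ' : L →ₐ[ℚ] ℂ) : τ (α ^ p ^ N) ≠ τ' (α ^ p ^ M) := by
  intro h
  obtain ⟨d, rfl⟩ : ∃ d, N = M + (d + 1) := ⟨N - M - 1, by omega⟩
  have h5 : minpoly ℚ ((α ^ p ^ M) ^ (p ^ (d + 1))) = minpoly ℚ (α ^ p ^ M) := by
    rw [← pow_mul, ← pow_add, ← minpoly.algHom_eq τ τ.injective (α ^ p ^ (M + (d + 1))), h,
      minpoly.algHom_eq τ' τ'.injective]
  have h2 : 2 ≤ p ^ (d + 1) := hp.trans (Nat.le_self_pow (by omega) p)
  obtain ⟨n, hn, hn1⟩ := torsion_of_conj h2 (pow_ne_zero _ hα0) h5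
  refine hroot (p ^ M * n) (Nat.mul_pos (pow_pos (by omega) _) hn) ?_
  rw [pow_mul]
  exact hn1

/-- the value of the conjugate polynomial -/
theorem value' {α : L} (hα : IsIntegral ℤ α) {p : ℕ} (hp : p.Prime) {g a : ℕ}
    {Φ : F →ₐ[ℚ] F} (hΦ : Fr p g a Φ)
    (v : F →ₐ[ℚ] ℂ) (hnd : ∀ j, Inj v (α ^ p ^ j)) (e : ℕ) :
    ∃ h : L, IsIntegral ℤ h ∧
      aeval (α ^ p ^ (e + g + a)) ((minpoly F (α ^ p ^ (e + a))).map (Φ : F →+* F)) =
      ((p ^ (e + 1) : ℕ) : L) * h := by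
  choose y hy hyz using coeff_cong' hα hp hΦ v hnd e
  set x := α ^ p ^ (e + g + a) with hx
  set N := Module.finrank F L + 1 with hN
  have hxi : IsIntegral ℤ x := hα.pow _
  refine ⟨-∑ i ∈ range N, algebraMap F L (y i) * x ^ i, ?_, ?_⟩
  · refine IsIntegral.neg (IsIntegral.sum _ fun i _ => ?_)
    exact ((hy i).algebraMap).mul (hxi.pow i)
  · have h1 : aeval x (minpoly F x) = 0 := minpoly.aeval F x
    have h2 : aeval x ((minpoly F (α ^ p ^ (e + a))).map (Φ : F →+* F)) =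
        -aeval x (minpoly F x - (minpoly F (α ^ p ^ (e + a))).map (Φ : F →+* F)) := by
      rw [map_sub, h1, zero_sub, neg_neg]
    have hdeg : (minpoly F x - (minpoly F (α ^ p ^ (e + a))).map (Φ : F →+* F)).natDegree < N := by
      refine lt_of_le_of_lt (natDegree_sub_le _ _) ?_
      rw [natDegree_map, hx, natDegree_minpoly_fib v (hnd _), natDegree_minpoly_fib v (hnd _),
        max_self]
      exact Nat.lt_succ_self _
    rw [h2, aeval_eq_sum_range' hdeg, mul_neg, mul_sum]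
    congr 1
    refine sum_congr rfl fun i _ => ?_
    rw [coeff_sub, coeff_map]
    have h3 : (minpoly F x).coeff i - (Φ : F →+* F) ((minpoly F (α ^ p ^ (e + a))).coeff i) =
        ((p ^ (e + 1) : ℕ) : F) * y i := hyz i
    rw [h3, Algebra.smul_def, map_mul, map_natCast]
    ring

/-- the product of the mixed differences -/
theorem mixed' [FiniteDimensional ℚ F] {α : L} (hα : IsIntegral ℤ α) {p : ℕ} (hp : p.Prime)
    (hα0 : α ≠ 0) (hroot : ∀ n : ℕ, 0 < n → α ^ n ≠ 1) {g a : ℕ} (hg : 0 < g) {Φ : F →ₐ[ℚ] F}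
    (hΦ : Fr p g a Φ) (hnd : ∀ (v : F →ₐ[ℚ] ℂ) (j : ℕ), Inj v (α ^ p ^ j)) (e : ℕ) :
    (Module.finrank ℚ L : ℝ) * ((e + 1) * Real.log p) ≤
      ∑ v : F →ₐ[ℚ] ℂ, ∑ τ ∈ fib (L := L) v, ∑ τ' ∈ fib (L := L) (v.comp Φ),
        Real.log ‖τ (α ^ p ^ (e + g + a)) - τ' (α ^ p ^ (e + a))‖ := by
  classical
  obtain ⟨v0⟩ := nonempty_emb F
  set x := α ^ p ^ (e + g + a) with hx
  set y := α ^ p ^ (e + a) with hy
  set G := aeval x ((minpoly F y).map (Φ : F →+* F)) with hG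
  obtain ⟨h, hh, hgh⟩ := value' hα hp hΦ v0 (hnd v0) e
  have hval : ∀ v : F →ₐ[ℚ] ℂ, ∀ τ ∈ fib (L := L) v,
      τ G = ∏ τ' ∈ fib (L := L) (v.comp Φ), (τ x - τ' y) := by
    intro v τ hτ
    rw [hG, eval_conj v hτ Φ, minpoly_eval (v.comp Φ) (hnd _ _)]
  have hne : ∀ τ τ' : L →ₐ[ℚ] ℂ, τ x ≠ τ' y := ne_conj' hp.two_le hα0 hroot (by omega)
  have hfib : ∀ τ : L →ₐ[ℚ] ℂ, τ ∈ fib (L := L) (τ.comp (IsScalarTower.toAlgHom ℚ F L)) :=
    fun τ => mem_fib.2 fun a => rfl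
  have hg0 : G ≠ 0 := by
    intro h0
    obtain ⟨τ⟩ := nonempty_emb L
    have e1 := hval _ τ (hfib τ)
    rw [h0, map_zero] at e1
    exact (prod_ne_zero_iff.2 fun τ' _ => sub_ne_zero.2 (hne τ τ')) e1.symm
  have h1 := W738.SAL.pow_le_prod hh hgh hg0
  have hp0 : (0 : ℝ) < p := by exact_mod_cast hp.pos
  have h2 := Real.log_le_log (by push_cast; positivity) h1
  rw [Real.log_prod (fun τ _ => by
    rw [Ne, norm_eq_zero]
    exact (map_ne_zero τ).2 hg0), sum_fibers (F := F), Real.log_pow] at h2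
  push_cast at h2
  rw [Real.log_pow] at h2
  push_cast at h2
  refine h2.trans (le_of_eq (sum_congr rfl fun v _ => sum_congr rfl fun τ hτ => ?_))
  rw [hval v τ hτ, norm_prod, Real.log_prod]
  intro τ' _
  rw [Ne, norm_eq_zero, sub_eq_zero]
  exact hne τ τ'

end

end Pool.Agent.Q262.RL
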