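import Mathlib
import Pool.Agent.Q262.RL.G1

/-!
# The energy of many levels
-/

set_option autoImplicit false
set_option linter.unusedSectionVars false
set_option linter.style.haveILetI false

open Finset Polynomial Pool.Agent.Q262.AB

namespace Pool.Agent.Q262.RL

/-- the exponent of the prime number for the levels `b`, `b'` -/
noncomputable def wt (f k b b' : ℕ) : ℝ := if b = b' then 0 else (f : ℝ) * (k + min b b' : ℕ) + 1

lemma sum_wt (f k J : ℕ) : ∑ b ∈ range J, ∑ b' ∈ range J, wt f k b b' =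
    (J : ℝ) * (((J : ℝ) - 1) * (1 + f * k + f * ((J : ℝ) - 2) / 3)) := by
  have hlin : ∀ J : ℕ, ∑ b ∈ range J, ((f : ℝ) * (k + b : ℕ) + 1) =
      (J : ℝ) * (1 + f * k) + f * (J : ℝ) * ((J : ℝ) - 1) / 2 := by
    intro J
    induction J with
    | zero => simp
    | succ J ih =>
      rw [sum_range_succ, ih]
      push_cast
      ring
  induction J with
  | zero => simp
  | succ J ih =>
    have h1 : ∑ b ∈ range J, ∑ b' ∈ range (J + 1), wt f k b b' =
        ∑ b ∈ range J, ∑ b' ∈ range J, wt f k b b' + ∑ b ∈ range J, ((f : ℝ) * (k + b : ℕ) + 1) := by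
      rw [← sum_add_distrib]
      refine sum_congr rfl fun b hb => ?_
      rw [mem_range] at hb
      rw [sum_range_succ]
      congr 1
      unfold wt
      rw [if_neg (by omega), min_eq_left hb.le]
    have h2 : ∑ b' ∈ range (J + 1), wt f k J b' = ∑ b ∈ range J, ((f : ℝ) * (k + b : ℕ) + 1) := by
      rw [sum_range_succ]
      have e1 : wt f k J J = 0 := by
        unfold wt
        rw [if_pos rfl]
      rw [e1, add_zero]
      refine sum_congr rfl fun b hb => ?_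
      rw [mem_range] at hb
      unfold wt
      rw [if_neg (by omega), min_eq_right hb.le]
    rw [sum_range_succ, h1, h2, ih, hlin]
    push_cast
    ring

section

variable {F L : Type} [Field F] [Field L] [Algebra ℚ F] [Algebra ℚ L] [Algebra F L]
  [IsScalarTower ℚ F L] [FiniteDimensional ℚ L]

/-- the energy inequality over one embedding for many levels -/
theorem energy_levels {α : L} {p : ℕ} (hp : 2 ≤ p) (hα0 : α ≠ 0)
    (hroot : ∀ n : ℕ, 0 < n → α ^ n ≠ 1) (J : ℕ) (N : ℕ → ℕ) (hN : StrictMono N)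
    (w : ℕ → (F →ₐ[ℚ] ℂ)) (hinj : ∀ b, Inj (w b) (α ^ p ^ N b)) :
    ∑ b ∈ range J, ∑ b' ∈ range J, ∑ τ ∈ fib (L := L) (w b), ∑ τ' ∈ fib (L := L) (w b'),
        Real.log ‖τ (α ^ p ^ N b) - τ' (α ^ p ^ N b')‖ ≤
      (J * (Module.finrank F L : ℝ)) * Real.log (J * (Module.finrank F L : ℝ)) +
        2 * (J * (Module.finrank F L : ℝ) - 1) * ∑ b ∈ range J,
          (p : ℝ) ^ N b * ∑ τ ∈ fib (L := L) (w b), Real.log (max 1 ‖τ α‖) := by
  classical
  set s : Finset (Σ _ : ℕ, (L →ₐ[ℚ] ℂ)) := (range J).sigma fun b => fib (L := L) (w b) with hs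
  set z : (Σ _ : ℕ, (L →ₐ[ℚ] ℂ)) → ℂ := fun x => x.2 (α ^ p ^ N x.1) with hz
  have hzinj : Set.InjOn z s := by
    rintro ⟨b, τ⟩ hb ⟨b', τ'⟩ hb' h
    rw [mem_coe, hs, mem_sigma] at hb hb'
    simp only [hz] at h
    rcases lt_trichotomy b b' with hlt | heq | hgt
    · exact absurd h.symm (ne_conj' hp hα0 hroot (hN hlt) τ' τ)
    · subst heq
      rw [hinj b τ hb.2 τ' hb'.2 h]
    · exact absurd h (ne_conj' hp hα0 hroot (hN hgt) τ τ')
  have h := energy_on s z hzinj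
  have hcard : (s.card : ℝ) = J * (Module.finrank F L : ℝ) := by
    rw [hs, card_sigma, sum_congr rfl fun b _ => card_fib (L := L) (w b), sum_const, card_range,
      smul_eq_mul, Nat.cast_mul]
  rw [hcard] at h
  simp only [hs, sum_sigma, hz] at h
  have e1 : ∀ b ∈ range J, ∑ τ ∈ fib (L := L) (w b), Real.log (max 1 ‖τ (α ^ p ^ N b)‖) =
      (p : ℝ) ^ N b * ∑ τ ∈ fib (L := L) (w b), Real.log (max 1 ‖τ α‖) := by
    intro b _
    rw [mul_sum]
    refine sum_congr rfl fun τ _ => ?_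
    rw [map_pow, log_max_pow]
    push_cast
    rfl
  rw [sum_congr rfl e1] at h
  refine le_trans (le_of_eq (sum_congr rfl fun b _ => ?_)) h
  rw [sum_comm]

/-- the lower bound for a pair of levels -/
theorem pair_ge [FiniteDimensional ℚ F] {α : L} (hα : IsIntegral ℤ α) {p : ℕ} (hp : p.Prime)
    (hα0 : α ≠ 0) (hroot : ∀ n : ℕ, 0 < n → α ^ n ≠ 1) {f a : ℕ} (hf : 0 < f) {φ : F →ₐ[ℚ] F}
    (hφ : Fr p f a φ) (hnd : ∀ (v : F →ₐ[ℚ] ℂ) (j : ℕ), Inj v (α ^ p ^ j)) (k J b b' : ℕ)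
    (hbJ : b' < J) (hbb : b ≤ b') :
    (Module.finrank ℚ L : ℝ) * (wt f k b b' * Real.log p) ≤
      ∑ v : F →ₐ[ℚ] ℂ, ∑ τ ∈ fib (L := L) (v.comp (φ ^ (J - 1 - b'))),
        ∑ τ' ∈ fib (L := L) (v.comp (φ ^ (J - 1 - b))),
        Real.log ‖τ (α ^ p ^ (f * (k + b') + a)) - τ' (α ^ p ^ (f * (k + b) + a))‖ := by
  classical
  have hre : ∀ (d : ℕ) (G : (F →ₐ[ℚ] ℂ) → ℝ),
      ∑ v : F →ₐ[ℚ] ℂ, G (v.comp (φ ^ d)) = ∑ v : F →ₐ[ℚ] ℂ, G v := fun d G =>
    Function.Bijective.sum_comp (comp_bij (φ ^ d)) G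
  rcases eq_or_lt_of_le hbb with h | h
  · subst h
    have h1 := disc_nonneg (F := F) (hα.pow (p ^ (f * (k + b) + a))) fun v => hnd v _
    unfold wt
    rw [if_pos rfl, zero_mul, mul_zero]
    rw [hre (J - 1 - b) fun w => ∑ τ ∈ fib (L := L) w, ∑ τ' ∈ fib (L := L) w,
      Real.log ‖τ (α ^ p ^ (f * (k + b) + a)) - τ' (α ^ p ^ (f * (k + b) + a))‖]
    exact h1
  · obtain ⟨d, hd, rfl⟩ : ∃ d, 0 < d ∧ b' = b + d := ⟨b' - b, by omega, by omega⟩
    have h1 := mixed' hα hp hα0 hroot (Nat.mul_pos hf hd) (Fr_iter hφ d) hnd (f * (k + b))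
    have e1 : f * (k + b) + f * d + a = f * (k + (b + d)) + a := by ring
    rw [e1, ← hre (J - 1 - (b + d))] at h1
    have e2 : ∀ v : F →ₐ[ℚ] ℂ, (v.comp (φ ^ (J - 1 - (b + d)))).comp (φ ^ d) =
        v.comp (φ ^ (J - 1 - b)) := by
      intro v
      rw [AlgHom.comp_assoc]
      congr 1
      have e3 : J - 1 - b = (J - 1 - (b + d)) + d := by omega
      rw [e3, pow_add]
      rfl
    simp only [e2] at h1
    refine le_trans (le_of_eq ?_) h1
    unfold wt
    rw [if_neg (by omega), min_eq_left (by omega)]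
    push_cast
    ring

/-- **The inequality for many levels.** -/
theorem levels [FiniteDimensional ℚ F] {α : L} (hα : IsIntegral ℤ α) {p : ℕ} (hp : p.Prime)
    (hα0 : α ≠ 0) (hroot : ∀ n : ℕ, 0 < n → α ^ n ≠ 1) {f a : ℕ} (hf : 0 < f) {φ : F →ₐ[ℚ] F}
    (hφ : Fr p f a φ) (hnd : ∀ (v : F →ₐ[ℚ] ℂ) (j : ℕ), Inj v (α ^ p ^ j)) (k : ℕ) {J : ℕ}
    (hJ : 1 ≤ J) :
    (Module.finrank ℚ F : ℝ) *
        (((J : ℝ) - 1) * (1 + f * k + f * ((J : ℝ) - 2) / 3) * Real.log p -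
          Real.log (J * (Module.finrank F L : ℝ))) ≤
      2 * (∑ b ∈ range J, (p : ℝ) ^ (f * (k + b) + a)) * Real.log (MM α) := by
  classical
  haveI : FiniteDimensional F L := FiniteDimensional.right ℚ F L
  have hm : (1 : ℝ) ≤ Module.finrank F L := by
    exact_mod_cast (Module.finrank_pos : 0 < Module.finrank F L)
  have hJ' : (1 : ℝ) ≤ J := by exact_mod_cast hJ
  set m : ℝ := (Module.finrank F L : ℝ) with hmdef
  set N : ℕ → ℕ := fun b => f * (k + b) + a with hN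
  have hNm : StrictMono N := by
    intro b b' hb
    simp only [hN]
    have := Nat.mul_lt_mul_of_pos_left (show k + b < k + b' by omega) hf
    omega
  have hE := sum_le_sum fun v (_ : v ∈ (univ : Finset (F →ₐ[ℚ] ℂ))) =>
    energy_levels (F := F) hp.two_le hα0 hroot J N hNm (fun b => v.comp (φ ^ (J - 1 - b)))
      fun b => hnd _ _
  -- the left-hand side
  have hL : (Module.finrank ℚ L : ℝ) * (((J : ℝ) * (((J : ℝ) - 1) *
      (1 + f * k + f * ((J : ℝ) - 2) / 3))) * Real.log p) ≤ ∑ v : F →ₐ[ℚ] ℂ,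
      ∑ b ∈ range J, ∑ b' ∈ range J, ∑ τ ∈ fib (L := L) (v.comp (φ ^ (J - 1 - b))),
        ∑ τ' ∈ fib (L := L) (v.comp (φ ^ (J - 1 - b'))),
        Real.log ‖τ (α ^ p ^ N b) - τ' (α ^ p ^ N b')‖ := by
    rw [← sum_wt, sum_mul, mul_sum, sum_comm]
    refine sum_le_sum fun b hb => ?_
    rw [sum_mul, mul_sum, sum_comm]
    refine sum_le_sum fun b' hb' => ?_
    rw [mem_range] at hb hb'
    rcases le_total b b' with h | h
    · refine (pair_ge hα hp hα0 hroot hf hφ hnd k J b b' hb' h).trans (le_of_eq ?_)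
      refine sum_congr rfl fun v _ => ?_
      rw [sum_comm]
      refine sum_congr rfl fun τ _ => sum_congr rfl fun τ' _ => ?_
      rw [norm_sub_rev]
    · have e1 : wt f k b b' = wt f k b' b := by
        unfold wt
        rw [min_comm]
        simp only [eq_comm]
      rw [e1]
      exact pair_ge hα hp hα0 hroot hf hφ hnd k J b' b hb h
  -- the right-hand side
  have hR : ∑ v : F →ₐ[ℚ] ℂ, ((J * m) * Real.log (J * m) +
        2 * (J * m - 1) * ∑ b ∈ range J,
          (p : ℝ) ^ N b * ∑ τ ∈ fib (L := L) (v.comp (φ ^ (J - 1 - b))), Real.log (max 1 ‖τ α‖)) =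
      (Module.finrank ℚ F : ℝ) * ((J * m) * Real.log (J * m)) +
        2 * (J * m - 1) * ((∑ b ∈ range J, (p : ℝ) ^ N b) * Real.log (MM α)) := by
    rw [sum_add_distrib, sum_const, card_univ, AlgHom.card ℚ F ℂ, nsmul_eq_mul, ← mul_sum,
      sum_comm, sum_mul]
    congr 2
    refine sum_congr rfl fun b _ => ?_
    rw [← mul_sum, log_MM_sum (F := F) α]
    congr 1
    exact Function.Bijective.sum_comp (comp_bij (φ ^ (J - 1 - b))) fun v =>
      ∑ τ ∈ fib (L := L) v, Real.log (max 1 ‖τ α‖)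
  have h1 := hL.trans (hE.trans (le_of_eq hR))
  rw [← Module.finrank_mul_finrank ℚ F L] at h1
  push_cast at h1
  rw [← hmdef] at h1
  have hMM : 0 ≤ Real.log (MM α) := Real.log_nonneg (one_le_MM α)
  have hp0 : (0 : ℝ) < p := by exact_mod_cast hp.pos
  have hB : 0 ≤ (∑ b ∈ range J, (p : ℝ) ^ N b) * Real.log (MM α) :=
    mul_nonneg (sum_nonneg fun b _ => by positivity) hMM
  set D : ℝ := (Module.finrank ℚ F : ℝ) with hD
  set B : ℝ := (∑ b ∈ range J, (p : ℝ) ^ N b) * Real.log (MM α) with hBdef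
  have h8 : (J * m) * (D * (((J : ℝ) - 1) * (1 + f * k + f * ((J : ℝ) - 2) / 3) * Real.log p -
      Real.log (J * m))) ≤ (J * m) * (2 * B) := by
    nlinarith
  have h9 := le_of_mul_le_mul_left h8 (by positivity)
  refine h9.trans (le_of_eq ?_)
  rw [hBdef]
  ring

end

end Pool.Agent.Q262.RL
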