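import Mathlib
import Pool.Agent.Q262.RL.G2

/-!
# The degenerate case and the main inequality
-/

set_option autoImplicit false
set_option linter.unusedSectionVars false
set_option linter.style.haveILetI false

open Finset Polynomial Pool.Agent.Q262.AB

namespace Pool.Agent.Q262.RL

theorem norm_fib {F L : Type} [Field F] [Field L] [Algebra ℚ F] [Algebra ℚ L] [Algebra F L]
    [IsScalarTower ℚ F L] [FiniteDimensional ℚ L] (v : F →ₐ[ℚ] ℂ) (x : L) :
    v (Algebra.norm F x) = ∏ φ ∈ fib (L := L) v, φ x := by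
  classical
  letI : Algebra F ℂ := v.toRingHom.toAlgebra
  haveI : IsScalarTower ℚ F ℂ := IsScalarTower.of_algebraMap_eq fun q => (v.commutes q).symm
  haveI : FiniteDimensional F L := FiniteDimensional.right ℚ F L
  haveI : CharZero F := charZero_of_injective_algebraMap (algebraMap ℚ F).injective
  have h1 : algebraMap F ℂ (Algebra.norm F x) = ∏ σ : L →ₐ[F] ℂ, σ x :=
    Algebra.norm_eq_prod_embeddings F ℂ x
  have h2 : v (Algebra.norm F x) = algebraMap F ℂ (Algebra.norm F x) := rfl
  rw [h2, h1]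
  refine prod_bij (fun σ _ => σ.restrictScalars ℚ) ?_ ?_ ?_ ?_
  · intro σ _
    exact mem_fib.2 fun a => σ.commutes a
  · intro σ _ τ _ h
    ext y
    exact congrArg (fun f : L →ₐ[ℚ] ℂ => f y) h
  · intro τ hτ
    exact ⟨{ τ.toRingHom with commutes' := mem_fib.1 hτ }, mem_univ _, rfl⟩
  · intro σ _
    rfl

theorem descent {E L : Type} [Field E] [Field L] [Algebra ℚ E] [Algebra ℚ L] [Algebra E L]
    [IsScalarTower ℚ E L] [FiniteDimensional ℚ L] [FiniteDimensional ℚ E] {α : L} (hα : IsIntegral ℤ α) (hα0 : α ≠ 0)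
    (hroot : ∀ n : ℕ, 0 < n → α ^ n ≠ 1) {N : ℕ} (hN : 0 < N) {x : E}
    (hx : algebraMap E L x = α ^ N) :
    ∃ ν : E, IsIntegral ℤ ν ∧ ν ≠ 0 ∧ (∀ n : ℕ, 0 < n → ν ^ n ≠ 1) ∧ MM ν = MM α := by
  classical
  haveI : FiniteDimensional E L := FiniteDimensional.right ℚ E L
  have hpos : 0 < Module.finrank E L := Module.finrank_pos
  have hν0 : Algebra.norm E α ≠ 0 := (Algebra.norm_ne_zero_iff).2 hα0
  refine ⟨Algebra.norm E α, ?_, hν0, ?_, ?_⟩
  · obtain ⟨σ⟩ := nonempty_emb E
    have h3 : IsIntegral ℤ (σ (Algebra.norm E α)) := by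
      rw [norm_fib]
      exact IsIntegral.prod _ fun τ _ => hα.map (τ.restrictScalars ℤ)
    exact (isIntegral_algHom_iff (σ.restrictScalars ℤ) σ.injective).1 h3
  · intro n hn h
    have h1 : Algebra.norm E α ^ N = x ^ Module.finrank E L := by
      rw [← map_pow, ← hx, Algebra.norm_algebraMap]
    have h2 : x ^ (Module.finrank E L * n) = 1 := by
      rw [pow_mul, ← h1, ← pow_mul, mul_comm N n, pow_mul, h, one_pow]
    refine hroot (N * (Module.finrank E L * n)) (by positivity) ?_
    rw [pow_mul, ← hx, ← map_pow, h2, map_one]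
  · rw [← prod_A (F := E) α]
    unfold MM A
    refine prod_congr rfl fun σ _ => ?_
    have hr : ∀ τ ∈ fib (L := L) σ, ‖τ α‖ ^ N = ‖σ x‖ := by
      intro τ hτ
      rw [← norm_pow, ← map_pow, ← hx, mem_fib.1 hτ]
    have hne : (fib (L := L) σ).Nonempty := by
      rw [← card_pos, card_fib]
      exact hpos
    obtain ⟨τ0, hτ0⟩ := hne
    have hr' : ∀ τ ∈ fib (L := L) σ, ‖τ α‖ = ‖τ0 α‖ := by
      intro τ hτ
      exact (pow_left_inj₀ (norm_nonneg _) (norm_nonneg _) hN.ne').1
        ((hr τ hτ).trans (hr τ0 hτ0).symm)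
    rw [norm_fib, norm_prod, prod_congr rfl hr', prod_const,
      prod_congr rfl fun τ hτ => by rw [hr' τ hτ], prod_const]
    rcases le_total ‖τ0 α‖ 1 with h | h
    · rw [max_eq_left h, max_eq_left (pow_le_one₀ (norm_nonneg _) h), one_pow]
    · rw [max_eq_right h, max_eq_right (one_le_pow₀ h)]

theorem inj_of_adjoin {F L : Type} [Field F] [Field L] [Algebra ℚ F] [Algebra ℚ L] [Algebra F L]
    [IsScalarTower ℚ F L] [FiniteDimensional ℚ L] (v : F →ₐ[ℚ] ℂ) {x : L}
    (hx : IntermediateField.adjoin F {x} = ⊤) : Inj v x := by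
  intro τ hτ τ' hτ' h
  haveI : FiniteDimensional F L := FiniteDimensional.right ℚ F L
  letI : Algebra F ℂ := v.toRingHom.toAlgebra
  let ψ : L →ₐ[F] ℂ := { τ.toRingHom with commutes' := mem_fib.1 hτ }
  let ψ' : L →ₐ[F] ℂ := { τ'.toRingHom with commutes' := mem_fib.1 hτ' }
  have htop : Algebra.adjoin F {x} = ⊤ := by
    rw [← IntermediateField.adjoin_toSubalgebra, hx, IntermediateField.top_toSubalgebra]
  have h1 : ψ = ψ' := by
    refine AlgHom.ext_of_adjoin_eq_top htop ?_
    intro y hy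
    rw [Set.mem_singleton_iff] at hy
    subst hy
    exact h
  ext y
  exact congrArg (fun g : L →ₐ[F] ℂ => g y) h1

/-- the statement for the relative degree `m` -/
def P (F : Type) [Field F] [Algebra ℚ F] (D A B J : ℝ) (m : ℕ) : Prop :=
  ∀ (L : Type) [Field L] [Algebra ℚ L] [Algebra F L] [IsScalarTower ℚ F L]
    [FiniteDimensional ℚ L] (α : L), Module.finrank F L = m → IsIntegral ℤ α → α ≠ 0 →
    (∀ n : ℕ, 0 < n → α ^ n ≠ 1) → D * (A - Real.log (J * (m : ℝ))) ≤ B * Real.log (MM α)

theorem step_abs {F L E : Type} [Field F] [Field L] [Field E] [Algebra ℚ F] [Algebra ℚ L]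
    [Algebra ℚ E] [Algebra F L] [Algebra F E] [Algebra E L] [IsScalarTower ℚ F L]
    [IsScalarTower F E L] [FiniteDimensional ℚ L] {D A B J : ℝ} (hD : 0 ≤ D) (hJ : 0 < J)
    (hih : P F D A B J (Module.finrank F E)) (hlt : Module.finrank F E < Module.finrank F L)
    {α : L} (hα : IsIntegral ℤ α) (hα0 : α ≠ 0)
    (hroot : ∀ n : ℕ, 0 < n → α ^ n ≠ 1) {N : ℕ} (hN : 0 < N) {x : E}
    (hx : algebraMap E L x = α ^ N) :
    D * (A - Real.log (J * (Module.finrank F L : ℝ))) ≤ B * Real.log (MM α) := by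
  haveI : IsScalarTower ℚ F E := IsScalarTower.of_algebraMap_eq fun q => by simp
  haveI : IsScalarTower ℚ E L := IsScalarTower.of_algebraMap_eq fun q => by simp
  haveI : FiniteDimensional ℚ E := FiniteDimensional.left ℚ E L
  haveI : FiniteDimensional F E := FiniteDimensional.right ℚ F E
  obtain ⟨ν, hν, hν0, hνr, hMM⟩ := descent (E := E) hα hα0 hroot hN hx
  have h := hih E ν rfl hν hν0 hνr
  have hEpos : 0 < Module.finrank F E := Module.finrank_pos
  rw [← hMM]
  refine le_trans (mul_le_mul_of_nonneg_left (sub_le_sub_left ?_ _) hD) h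
  have hE' : (0 : ℝ) < Module.finrank F E := by exact_mod_cast hEpos
  refine Real.log_le_log (mul_pos hJ hE') (mul_le_mul_of_nonneg_left ?_ hJ.le)
  exact_mod_cast hlt.le

section

variable {F : Type} [Field F] [Algebra ℚ F] [FiniteDimensional ℚ F]

/-- **The main inequality.** -/
theorem main {p : ℕ} (hp : p.Prime) {f a : ℕ} (hf : 0 < f) {φ : F →ₐ[ℚ] F}
    (hφ : Fr p f a φ) (k : ℕ) {J : ℕ} (hJ : 1 ≤ J) (m : ℕ) :
    P F (Module.finrank ℚ F : ℝ)
      (((J : ℝ) - 1) * (1 + f * k + f * ((J : ℝ) - 2) / 3) * Real.log p)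
      (2 * (∑ b ∈ range J, (p : ℝ) ^ (f * (k + b) + a))) J m := by
  induction m using Nat.strong_induction_on with
  | _ m ih =>
    intro L _ _ _ _ _ α hm hα hα0 hroot
    haveI : FiniteDimensional F L := FiniteDimensional.right ℚ F L
    have hJ' : (0 : ℝ) < J := by exact_mod_cast hJ
    by_cases hall : ∀ j : ℕ, IntermediateField.adjoin F {α ^ p ^ j} = ⊤
    · rw [← hm]
      exact levels hα hp hα0 hroot hf hφ (fun v j => inj_of_adjoin v (hall j)) k hJ
    · push Not at hall
      obtain ⟨j, hj⟩ := hall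
      have hlt : Module.finrank F (IntermediateField.adjoin F {α ^ p ^ j}) <
          Module.finrank F L := by
        by_contra hc
        push Not at hc
        refine hj (IntermediateField.toSubalgebra_injective ?_)
        rw [IntermediateField.top_toSubalgebra]
        apply Subalgebra.toSubmodule_injective
        rw [Algebra.top_toSubmodule]
        exact Submodule.eq_top_of_finrank_eq
          (le_antisymm (Submodule.finrank_le _) hc)
      rw [← hm]
      exact step_abs (E := IntermediateField.adjoin F {α ^ p ^ j}) (Nat.cast_nonneg _) hJ'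
        (ih _ (hm ▸ hlt)) hlt hα hα0 hroot (pow_pos hp.pos j)
        (x := IntermediateField.AdjoinSimple.gen F (α ^ p ^ j))
        (IntermediateField.AdjoinSimple.algebraMap_gen F (α ^ p ^ j))

end

end Pool.Agent.Q262.RL
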