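import Mathlib
import Pool.Agent.Q262.RL.Step
import Pool.Agent.Q262.RL.Mah

/-!
# The choice of the number of levels
-/

set_option autoImplicit false

open Finset Polynomial Pool.Agent.Q262.AB

namespace Pool.Agent.Q262.RL

lemma geom_le {q : ℝ} (hq : 2 ≤ q) (j : ℕ) : ∑ b ∈ range (j + 1), q ^ b ≤ 2 * q ^ j := by
  induction j with
  | zero => simp
  | succ j ih =>
    rw [sum_range_succ]
    have h1 : 2 * q ^ j ≤ q ^ (j + 1) := by
      rw [pow_succ, mul_comm]
      exact mul_le_mul_of_nonneg_left hq (by positivity)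
    linarith

lemma four_mul_le (j : ℕ) : 4 * (j + 3) ≤ 3 * 2 ^ (j + 2) := by
  induction j with
  | zero => norm_num
  | succ j ih =>
    have : 3 * 2 ^ (j + 1 + 2) = 2 * (3 * 2 ^ (j + 2)) := by ring
    omega

lemma log_J_le (j : ℕ) {p : ℝ} (hp : 2 ≤ p) :
    Real.log ((j : ℝ) + 3) + 2 / 5 * Real.log p ≤ ((j : ℝ) + 2) * Real.log p := by
  have hp0 : 0 < p := by linarith
  have h2p : Real.log 2 ≤ Real.log p := Real.log_le_log (by norm_num) hp
  have h1 : (j : ℝ) + 3 ≤ 3 / 4 * 2 ^ (j + 2) := by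
    have := four_mul_le j
    have h : (4 * ((j : ℝ) + 3)) ≤ 3 * 2 ^ (j + 2) := by exact_mod_cast this
    linarith
  have h3 : Real.log ((j : ℝ) + 3) ≤ Real.log (3 / 4) + (j + 2) * Real.log 2 := by
    have e1 := Real.log_le_log (by positivity) h1
    rw [Real.log_mul (by norm_num) (by positivity), Real.log_pow] at e1
    push_cast at e1
    exact e1
  have h4 : Real.log (3 / 4) + 2 / 5 * Real.log 2 ≤ 0 := by
    have e1 : Real.log ((3 / 4 : ℝ) ^ 5 * 2 ^ 2) ≤ 0 :=
      Real.log_nonpos (by norm_num) (by norm_num)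
    rw [Real.log_mul (by norm_num) (by norm_num), Real.log_pow, Real.log_pow] at e1
    push_cast at e1
    linarith
  have hj : (0 : ℝ) ≤ j := Nat.cast_nonneg j
  nlinarith [mul_nonneg hj (sub_nonneg.2 h2p)]

/-- the choice of `J` -/
theorem choose_J {D m B : ℝ} (hD : 0 ≤ D) (hm : 1 ≤ m) (hB : 0 ≤ B) {p : ℝ} (hp : 2 ≤ p) {f a : ℕ}
    (hf : 0 < f)
    (h : ∀ J : ℕ, 1 ≤ J → D * (((J : ℝ) - 1) * (1 + f * (0 : ℕ) + f * ((J : ℝ) - 2) / 3) *
      Real.log p - Real.log (J * m)) ≤ 2 * (∑ b ∈ range J, p ^ (f * (0 + b) + a)) * B) :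
    D * Real.log p ≤ 10 * p ^ (a + 2 * f) * Real.exp (√(3 * (f * Real.log p) * Real.log m)) * B := by
  have hp0 : 0 < p := by linarith
  have hlp : 0 < Real.log p := Real.log_pos (by linarith)
  have hlm : 0 ≤ Real.log m := Real.log_nonneg hm
  have hf' : (1 : ℝ) ≤ f := by exact_mod_cast hf
  set Q : ℝ := f * Real.log p with hQ
  have hQ0 : 0 < Q := by positivity
  set s : ℝ := √(3 * Real.log m / Q) with hs
  have hs0 : 0 ≤ s := Real.sqrt_nonneg _
  have hs2 : s ^ 2 * Q = 3 * Real.log m := by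
    rw [hs, Real.sq_sqrt (by positivity)]
    field_simp
  set j := ⌊s⌋₊ with hj
  have hj1 : (j : ℝ) ≤ s := Nat.floor_le hs0
  have hj2 : s < j + 1 := Nat.lt_floor_add_one s
  have h1 := h (j + 3) (by omega)
  push_cast at h1
  have hJm : Real.log (((j : ℝ) + 3) * m) = Real.log ((j : ℝ) + 3) + Real.log m :=
    Real.log_mul (by positivity) (by linarith)
  rw [hJm] at h1
  have h2 := log_J_le j hp
  -- lower bound for the left-hand side
  have h3 : 2 / 5 * Real.log p ≤ ((j : ℝ) + 3 - 1) * (1 + f * 0 + f * ((j : ℝ) + 3 - 2) / 3) *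
      Real.log p - (Real.log ((j : ℝ) + 3) + Real.log m) := by
    have e1 : ((j : ℝ) + 3 - 1) * (1 + f * 0 + f * ((j : ℝ) + 3 - 2) / 3) * Real.log p =
        ((j : ℝ) + 2) * Real.log p + ((j : ℝ) + 2) * ((j : ℝ) + 1) / 3 * Q := by
      rw [hQ]
      ring
    have e2 : Real.log m ≤ ((j : ℝ) + 2) * ((j : ℝ) + 1) / 3 * Q := by
      have e3 : s ^ 2 ≤ ((j : ℝ) + 2) * ((j : ℝ) + 1) := by nlinarith
      have e4 := mul_le_mul_of_nonneg_right e3 hQ0.le
      linarith
    rw [e1]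
    linarith
  have h4 : D * (2 / 5 * Real.log p) ≤
      2 * (∑ b ∈ range (j + 3), p ^ (f * (0 + b) + a)) * B :=
    (mul_le_mul_of_nonneg_left h3 hD).trans h1
  -- upper bound for the sum
  have hq : (2 : ℝ) ≤ p ^ f := by
    have := pow_le_pow_right₀ (show (1 : ℝ) ≤ p by linarith) (show 1 ≤ f from hf)
    rw [pow_one] at this
    linarith
  have h5 : ∑ b ∈ range (j + 3), p ^ (f * (0 + b) + a) ≤ p ^ a * (2 * (p ^ f) ^ (j + 2)) := by
    have e1 : ∀ b ∈ range (j + 3), p ^ (f * (0 + b) + a) = p ^ a * (p ^ f) ^ b := by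
      intro b _
      rw [zero_add, pow_add, pow_mul, mul_comm]
    rw [sum_congr rfl e1, ← mul_sum]
    exact mul_le_mul_of_nonneg_left (geom_le hq (j + 2)) (by positivity)
  have h6 : (p ^ f) ^ j ≤ Real.exp (√(3 * Q * Real.log m)) := by
    have e1 : (p ^ f) ^ j = Real.exp (j * Q) := by
      rw [hQ, Real.exp_nat_mul, Real.exp_nat_mul, Real.exp_log hp0]
    rw [e1]
    refine Real.exp_le_exp.2 ?_
    refine (mul_le_mul_of_nonneg_right hj1 hQ0.le).trans (le_of_eq ?_)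
    have e2 : 3 * Q * Real.log m = (s * Q) ^ 2 := by
      have : (s * Q) ^ 2 = (s ^ 2 * Q) * Q := by ring
      rw [this, hs2]
      ring
    rw [e2, Real.sqrt_sq (by positivity)]
  have h7 : 2 * (∑ b ∈ range (j + 3), p ^ (f * (0 + b) + a)) * B ≤
      4 * p ^ (a + 2 * f) * Real.exp (√(3 * Q * Real.log m)) * B := by
    refine mul_le_mul_of_nonneg_right ?_ hB
    have e1 : p ^ (a + 2 * f) = p ^ a * (p ^ f) ^ 2 := by
      rw [← pow_mul, ← pow_add]
      congr 1
      ring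
    calc 2 * (∑ b ∈ range (j + 3), p ^ (f * (0 + b) + a))
        ≤ 2 * (p ^ a * (2 * (p ^ f) ^ (j + 2))) := by linarith
      _ = 4 * (p ^ a * (p ^ f) ^ 2) * (p ^ f) ^ j := by ring
      _ ≤ 4 * (p ^ a * (p ^ f) ^ 2) * Real.exp (√(3 * Q * Real.log m)) :=
          mul_le_mul_of_nonneg_left h6 (by positivity)
      _ = _ := by rw [e1]
  have h8 := h4.trans h7
  nlinarith

end Pool.Agent.Q262.RL
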