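import Mathlib
import Pool.Agent.Q191.MV.Gap

/-!
# Fields with a Frobenius automorphism modulo all prime ideals above a prime number
-/

set_option autoImplicit false

open Finset NumberField Module

namespace Pool.Agent.Q262.RL

open Pool.Agent.TH53.HR (resDegSum span_ne_bot)
open Pool.Agent.Q191.MV (FrobeniusAt)

/-- all the residue degrees of `F` above `p` are at most `f` -/
def SmallRes (p f : ℕ) (F : Type) [Field F] [NumberField F] : Prop :=
  ∀ P ∈ (Ideal.span {(p : ℤ)}).primesOver (𝓞 F), P.inertiaDeg ℤ ≤ f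

/-- `F` has an automorphism which is congruent to the `q`-th power map modulo all the prime ideals
above `p`. -/
def FrobAll (p q : ℕ) (F : Type) [Field F] [NumberField F] : Prop :=
  ∃ τ : F ≃+* F, ∀ P ∈ (Ideal.span {(p : ℤ)}).primesOver (𝓞 F),
    ∀ x : 𝓞 F, x ^ q - RingOfIntegers.mapRingHom (τ : F →+* F) x ∈ P

theorem frobAll_of_smallRes {F : Type} [Field F] [NumberField F] {p : ℕ} (hp : p.Prime) {f : ℕ}
    (h : SmallRes p f F) : FrobAll p (p ^ f.factorial) F := by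
  classical
  haveI : Fact p.Prime := ⟨hp⟩
  refine ⟨RingEquiv.refl F, ?_⟩
  rintro P ⟨hPp, hPo⟩ x
  haveI := hPp
  haveI := hPo
  have hpP : (p : 𝓞 F) ∈ P := by
    have h1 : (p : ℤ) ∈ Ideal.span {(p : ℤ)} := Ideal.mem_span_singleton_self _
    rw [hPo.over] at h1
    have h2 : algebraMap ℤ (𝓞 F) (p : ℤ) ∈ P := h1
    simpa using h2
  have hp0 : (p : 𝓞 F) ≠ 0 := by exact_mod_cast hp.ne_zero
  have hP0 : P ≠ ⊥ := by
    rintro rfl
    exact hp0 (by simpa using hpP)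
  haveI : P.IsMaximal := hPp.isMaximal hP0
  letI : Field (𝓞 F ⧸ P) := Ideal.Quotient.field P
  have hcard : Nat.card (𝓞 F ⧸ P) = p ^ P.inertiaDeg ℤ := by
    rw [Ideal.pow_inertiaDeg p P, Ideal.absNorm_apply, Submodule.cardQuot_apply]
  haveI : Finite (𝓞 F ⧸ P) := Nat.finite_of_card_ne_zero (by
    rw [hcard]
    exact pow_ne_zero _ hp.ne_zero)
  letI : Fintype (𝓞 F ⧸ P) := Fintype.ofFinite _
  have hle : P.inertiaDeg ℤ ≤ f := h P ⟨hPp, hPo⟩
  have hpos : 0 < P.inertiaDeg ℤ := by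
    by_contra hc
    have h0 : P.inertiaDeg ℤ = 0 := by omega
    rw [h0, pow_zero] at hcard
    have h1 : 1 < Nat.card (𝓞 F ⧸ P) := Finite.one_lt_card
    omega
  obtain ⟨c, hc⟩ := Nat.dvd_factorial hpos hle
  have h1 := FiniteField.pow_card_pow c (Ideal.Quotient.mk P x)
  rw [← Nat.card_eq_fintype_card, hcard, ← pow_mul, ← hc] at h1
  have h2 : RingOfIntegers.mapRingHom ((RingEquiv.refl F : F ≃+* F) : F →+* F) x = x :=
    RingOfIntegers.ext rfl
  rw [h2, ← Ideal.Quotient.eq_zero_iff_mem, map_sub, map_pow, h1, sub_self]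

theorem frob_of_all {F : Type} [Field F] [NumberField F] {p : ℕ} (hp : p.Prime) {l : ℕ}
    (hl : 0 < l) (h : FrobAll p (p ^ l) F) {B : ℕ} (hB : finrank ℚ F ≤ resDegSum F p * B) :
    FrobeniusAt F (p ^ l) B := by
  classical
  haveI : Fact p.Prime := ⟨hp⟩
  obtain ⟨τ, hτ⟩ := h
  set T := IsDedekindDomain.primesOverFinset (Ideal.span {(p : ℤ)}) (𝓞 F) with hT
  have hmemT : ∀ P ∈ T, P.IsPrime ∧ P.LiesOver (Ideal.span {(p : ℤ)}) := by
    intro P hP
    rw [hT, IsDedekindDomain.mem_primesOverFinset_iff (span_ne_bot hp)] at hP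
    exact ⟨hP.1, hP.2⟩
  have hnorm : ∀ P ∈ T, Ideal.absNorm P = p ^ P.inertiaDeg ℤ := by
    intro P hP
    haveI := (hmemT P hP).1
    haveI := (hmemT P hP).2
    exact (Ideal.pow_inertiaDeg p P).symm
  refine ⟨p, l, τ, T, hp, hl, rfl, ?_, ?_⟩
  · intro P hP
    haveI hPp := (hmemT P hP).1
    haveI hPo := (hmemT P hP).2
    have hpP : (p : 𝓞 F) ∈ P := by
      have h1 : (p : ℤ) ∈ Ideal.span {(p : ℤ)} := Ideal.mem_span_singleton_self _
      rw [hPo.over] at h1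
      have h2 : algebraMap ℤ (𝓞 F) (p : ℤ) ∈ P := h1
      simpa using h2
    exact ⟨hPp, hpP, hτ P ⟨hPp, hPo⟩⟩
  · rw [prod_congr rfl hnorm, prod_pow_eq_pow_sum, ← pow_mul]
    exact Nat.pow_le_pow_right hp.pos hB

end Pool.Agent.Q262.RL
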