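import Mathlib
import Pool.Agent.Q262.RL.Step
import Pool.Agent.Q262.RL.Num3
import Pool.Agent.Q262.RL.Res

/-!
# Fields with a Frobenius automorphism and bounded ramification indices
-/

set_option autoImplicit false
set_option linter.unusedSectionVars false
set_option linter.style.haveILetI false

open Finset NumberField Module UniqueFactorizationMonoid

namespace Pool.Agent.Q262.RL

open Pool.Agent.TH53.HR (span_ne_bot span_maximal)
open Pool.Agent.H388SL (lam lam_nonneg)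
open Pool.Agent.H225R3.Marg (emb)
open Pool.Agent.Q191.MV (lam_le)
open Pool.Agent.Y399.MG (gap_of)

lemma liesOver_of_mem {F : Type} [Field F] [NumberField F] {p : ℕ} (hp : p.Prime)
    {P : Ideal (𝓞 F)} (hP : P.IsPrime) (hpP : (p : 𝓞 F) ∈ P) :
    P.LiesOver (Ideal.span {(p : ℤ)}) := by
  have hmax := span_maximal hp
  refine ⟨hmax.eq_of_le ?_ ?_⟩
  · exact (Ideal.IsPrime.under ℤ P).ne_top
  · rw [Ideal.span_singleton_le_iff_mem]
    change algebraMap ℤ (𝓞 F) (p : ℤ) ∈ P
    simpa using hpP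

open Classical in
theorem cong_of_frob {F : Type} [Field F] [NumberField F] {p : ℕ} (hp : p.Prime) {l a : ℕ}
    (τ : 𝓞 F →+* 𝓞 F)
    (h : ∀ P ∈ (Ideal.span {(p : ℤ)}).primesOver (𝓞 F),
      (∀ X : 𝓞 F, X ^ p ^ l - τ X ∈ P) ∧ P.ramificationIdx ℤ ≤ p ^ a) (X : 𝓞 F) :
    ∃ Y : 𝓞 F, X ^ p ^ (l + a) = τ X ^ p ^ a + p * Y := by
  set Z : 𝓞 F := X ^ p ^ l - τ X with hZ
  have hp0 : (p : 𝓞 F) ≠ 0 := by exact_mod_cast hp.ne_zero
  have hZd : ∃ Y : 𝓞 F, Z ^ p ^ a = p * Y := by
    by_cases hZ0 : Z = 0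
    · refine ⟨0, ?_⟩
      rw [hZ0, zero_pow (pow_ne_zero _ hp.ne_zero), mul_zero]
    · have hs : Ideal.span {(p : 𝓞 F)} ≠ 0 := by
        rw [Ne, Ideal.zero_eq_bot, Ideal.span_singleton_eq_bot]
        exact hp0
      have hsZ : Ideal.span {Z} ≠ 0 := by
        rw [Ne, Ideal.zero_eq_bot, Ideal.span_singleton_eq_bot]
        exact hZ0
      have hmap : (Ideal.span {(p : ℤ)}).map (algebraMap ℤ (𝓞 F)) = Ideal.span {(p : 𝓞 F)} := by
        rw [Ideal.map_span, Set.image_singleton]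
        congr 2
        simp
      have hdvd : Ideal.span {(p : 𝓞 F)} ∣ Ideal.span {Z} ^ p ^ a := by
        rw [dvd_iff_normalizedFactors_le_normalizedFactors hs (pow_ne_zero _ hsZ),
          Multiset.le_iff_count]
        intro P
        by_cases hP : P ∈ normalizedFactors (Ideal.span {(p : 𝓞 F)})
        · have hPp := prime_of_normalized_factor P hP
          haveI hPi : P.IsPrime := Ideal.isPrime_of_prime hPp
          have hPd : P ∣ Ideal.span {(p : 𝓞 F)} := dvd_of_mem_normalizedFactors hP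
          have hpP : (p : 𝓞 F) ∈ P := (Ideal.span_singleton_le_iff_mem _).1 (Ideal.le_of_dvd hPd)
          haveI hlo := liesOver_of_mem hp hPi hpP
          obtain ⟨hmem, hram⟩ := h P ⟨hPi, hlo⟩
          rw [normalizedFactors_pow, Multiset.count_nsmul]
          have h1 : 1 ≤ Multiset.count P (normalizedFactors (Ideal.span {Z})) := by
            rw [Multiset.one_le_count_iff_mem, mem_normalizedFactors_iff hsZ]
            exact ⟨hPp, Ideal.dvd_iff_le.2 ((Ideal.span_singleton_le_iff_mem _).2 (hmem X))⟩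
          have h2 : Multiset.count P (normalizedFactors (Ideal.span {(p : 𝓞 F)})) ≤ p ^ a := by
            refine le_trans (le_of_eq ?_) hram
            rw [Ideal.IsDedekindDomain.ramificationIdx_eq_normalizedFactors_count
              (Ideal.span {(p : ℤ)}) P (by rw [hmap]; exact hs), hmap]
          exact h2.trans (Nat.le_mul_of_pos_right _ h1)
        · rw [Multiset.count_eq_zero_of_notMem hP]
          exact Nat.zero_le _
      have hmemZ : Z ^ p ^ a ∈ Ideal.span {(p : 𝓞 F)} := by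
        have h1 := Ideal.le_of_dvd hdvd
        rw [Ideal.span_singleton_pow] at h1
        exact h1 (Ideal.mem_span_singleton_self _)
      obtain ⟨Y, hY⟩ := Ideal.mem_span_singleton.1 hmemZ
      exact ⟨Y, hY⟩
  obtain ⟨Y, hY⟩ := hZd
  obtain ⟨r, hr⟩ := exists_add_pow_prime_pow_eq hp (τ X) Z a
  refine ⟨Y + τ X * Z * r, ?_⟩
  have h1 : X ^ p ^ (l + a) = (τ X + Z) ^ p ^ a := by
    have e1 : τ X + Z = X ^ p ^ l := by rw [hZ]; ring
    rw [e1, ← pow_mul, ← pow_add]
  rw [h1, hr, hY]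
  ring

/-- all the ramification indices of `F` above `p` are at most `E` -/
def RamLe (p E : ℕ) (F : Type) [Field F] [NumberField F] : Prop :=
  ∀ P ∈ (Ideal.span {(p : ℤ)}).primesOver (𝓞 F), P.ramificationIdx ℤ ≤ E

theorem fr_of_frob {F : Type} [Field F] [NumberField F] {p : ℕ} (hp : p.Prime) {l a : ℕ}
    {τ : F ≃+* F} (hτ : ∀ P ∈ (Ideal.span {(p : ℤ)}).primesOver (𝓞 F),
      ∀ x : 𝓞 F, x ^ p ^ l - RingOfIntegers.mapRingHom (τ : F →+* F) x ∈ P)
    (hE : RamLe p (p ^ a) F) : Fr p l a ((τ : F →+* F).toRatAlgHom) := by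
  intro x hx
  obtain ⟨Y, hY⟩ := cong_of_frob hp (RingOfIntegers.mapRingHom (τ : F →+* F))
    (fun P hP => ⟨hτ P hP, hE P hP⟩) (⟨x, hx⟩ : 𝓞 F)
  refine ⟨(Y : F), Y.isIntegral_coe, ?_⟩
  have h1 := congrArg (fun z : 𝓞 F => (z : F)) hY
  simpa using h1

lemma log_MM_lam {L : Type} [Field L] [NumberField L] (x : L) : Real.log (MM x) = lam x := by
  unfold MM lam
  rw [Real.log_prod]
  intro τ _
  exact (lt_of_lt_of_le one_pos (le_max_left _ _)).ne'

/-- the constant -/
noncomputable def rcost (p l E D : ℕ) : ℝ :=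
  10 * (p : ℝ) ^ (2 * l + 1) * E * Real.exp (√(3 * (l * Real.log p) * Real.log D)) / Real.log p

lemma exists_a {p : ℕ} (hp : p.Prime) {E : ℕ} (hE : 1 ≤ E) :
    ∃ a : ℕ, E ≤ p ^ a ∧ p ^ a ≤ p * E := Pool.Agent.TH53.HR.exists_pow_ge hp hE

theorem ramPos {F : Type} [Field F] [NumberField F] {p : ℕ} (hp : p.Prime) {E : ℕ}
    (hE : RamLe p E F) : 1 ≤ E := by
  haveI : (Ideal.span {(p : ℤ)}).IsPrime := (span_maximal hp).isPrime
  obtain ⟨Q, hQ⟩ : Nonempty ((Ideal.span {(p : ℤ)}).primesOver (𝓞 F)) := inferInstance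
  have h1 := hE Q hQ
  haveI := hQ.1
  haveI := hQ.2
  have h2 : 0 < Q.ramificationIdx ℤ := Ideal.ramificationIdx_pos Q ℤ
  omega

/-- **The lower bound, linear in the ramification indices.** -/
theorem ram_bound {F L : Type} [Field F] [NumberField F] [Field L] [NumberField L] [Algebra F L]
    {p : ℕ} (hp : p.Prime) {l E : ℕ} (hl : 0 < l) (hF : FrobAll p (p ^ l) F)
    (hE : RamLe p E F) (x : L) (hx0 : x ≠ 0) (hxi : IsIntegral ℤ x)
    (hroot : ∀ m : ℕ, 0 < m → x ^ m ≠ 1) :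
    (finrank ℚ F : ℝ) ≤ rcost p l E (finrank F L) * lam x := by
  obtain ⟨τ, hτ⟩ := hF
  have hE1 : 1 ≤ E := ramPos hp hE
  obtain ⟨a, ha1, ha2⟩ := exists_a hp hE1
  have hfr := fr_of_frob hp hτ (a := a) (fun P hP => (hE P hP).trans ha1)
  haveI : FiniteDimensional F L := FiniteDimensional.right ℚ F L
  haveI : IsScalarTower ℚ F L := IsScalarTower.of_algebraMap_eq fun q => by simp
  have hD : 0 < finrank F L := finrank_pos
  have hD' : (1 : ℝ) ≤ finrank F L := by exact_mod_cast hD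
  have hp2 : (2 : ℝ) ≤ p := by exact_mod_cast hp.two_le
  have hlp : 0 < Real.log p := Real.log_pos (by linarith)
  have h1 := choose_J (D := (finrank ℚ F : ℝ)) (m := (finrank F L : ℝ)) (B := lam x)
    (Nat.cast_nonneg _) hD' (lam_nonneg _) hp2 (f := l) (a := a) hl (fun J hJ => by
      have := main hp hl hfr 0 hJ (finrank F L) L x rfl hxi hx0 hroot
      rw [log_MM_lam] at this
      simpa using this)
  unfold rcost
  rw [div_mul_eq_mul_div, le_div_iff₀ hlp]
  refine h1.trans (mul_le_mul_of_nonneg_right ?_ (lam_nonneg _))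
  refine mul_le_mul_of_nonneg_right ?_ (Real.exp_pos _).le
  have h2 : (p : ℝ) ^ a ≤ p * E := by exact_mod_cast ha2
  have h3 : (0 : ℝ) < (p : ℝ) ^ (2 * l) := by positivity
  calc 10 * (p : ℝ) ^ (a + 2 * l) = 10 * (p : ℝ) ^ (2 * l) * (p : ℝ) ^ a := by rw [pow_add]; ring
    _ ≤ 10 * (p : ℝ) ^ (2 * l) * (p * E) := by
        exact mul_le_mul_of_nonneg_left h2 (by positivity)
    _ = 10 * (p : ℝ) ^ (2 * l + 1) * E := by rw [pow_succ]; ring

lemma rcost_mono {p : ℕ} (hp : p.Prime) {l E D D' : ℕ} (hD : 0 < D) (hDD : D ≤ D') :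
    rcost p l E D ≤ rcost p l E D' := by
  have hp2 : (2 : ℝ) ≤ p := by exact_mod_cast hp.two_le
  have hlp : 0 < Real.log p := Real.log_pos (by linarith)
  have hD1 : (0 : ℝ) < D := by exact_mod_cast hD
  unfold rcost
  refine div_le_div_of_nonneg_right ?_ hlp.le
  refine mul_le_mul_of_nonneg_left (Real.exp_le_exp.2 (Real.sqrt_le_sqrt ?_)) (by positivity)
  refine mul_le_mul_of_nonneg_left (Real.log_le_log hD1 (by exact_mod_cast hDD)) (by positivity)

lemma rcost_nonneg {p : ℕ} (hp : p.Prime) (l E D : ℕ) : 0 ≤ rcost p l E D := by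
  have hp2 : (2 : ℝ) ≤ p := by exact_mod_cast hp.two_le
  have hlp : 0 < Real.log p := Real.log_pos (by linarith)
  unfold rcost
  positivity

/-- **The gap, linear in the ramification indices.** -/
theorem ram_gap (k : Type) [Field k] [NumberField k] (F : Type) [Field F] [NumberField F]
    [Algebra F k] (n s : ℕ) {p : ℕ} (hp : p.Prime) {l E : ℕ} (hl : 0 < l) (S : Finset (k →+* ℂ))
    (A : Matrix (Fin n) (Fin n) (𝓞 k)) (hF : FrobAll p (p ^ l) F) (hE : RamLe p E F)
    (hS : S.card ≤ s) (hA : IsUnit A)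
    (hout : ∀ σ : k →+* ℂ, σ ∉ S → ∀ l : ℂ, ((emb σ).mapMatrix A).charpoly.IsRoot l → ‖l‖ ≤ 1)
    (hnil : ∀ N : ℕ, 0 < N → ¬ IsNilpotent (A ^ N - 1)) :
    ∃ σ ∈ S, ∃ z : ℂ, ((emb σ).mapMatrix A).charpoly.IsRoot z ∧ 1 < ‖z‖ ∧
      (finrank ℚ F : ℝ) ≤ s * n * rcost p l E (n * finrank F k) * Real.log ‖z‖ := by
  refine gap_of k n S A (fun R => (finrank ℚ F : ℝ) ≤
    s * n * rcost p l E (n * finrank F k) * Real.log R) ?_ hA hout hnil
  intro L _ _ _ x R hx0 hxi hroot hR hout' hin hdeg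
  letI : Algebra F L := ((algebraMap k L).comp (algebraMap F k)).toAlgebra
  haveI : IsScalarTower F k L := IsScalarTower.of_algebraMap_eq fun a => rfl
  haveI : FiniteDimensional k L := FiniteDimensional.right ℚ k L
  haveI : FiniteDimensional F L := FiniteDimensional.right ℚ F L
  have h1 := ram_bound hp hl hF hE x hx0 hxi hroot
  have h2 := lam_le S x R hR hout' hin
  have hlogR : 0 ≤ Real.log R := Real.log_nonneg hR
  have hFL : 0 < finrank F L := finrank_pos
  have h3 : lam x ≤ s * n * Real.log R := by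
    refine h2.trans (mul_le_mul_of_nonneg_right ?_ hlogR)
    have : S.card * finrank k L ≤ s * n := Nat.mul_le_mul hS hdeg
    exact_mod_cast this
  have h4 : finrank F L ≤ n * finrank F k := by
    rw [← Module.finrank_mul_finrank F k L, mul_comm]
    exact Nat.mul_le_mul_right _ hdeg
  have h5 := rcost_mono (l := l) (E := E) hp hFL h4
  calc (finrank ℚ F : ℝ) ≤ rcost p l E (finrank F L) * lam x := h1
    _ ≤ rcost p l E (n * finrank F k) * (s * n * Real.log R) :=
        mul_le_mul h5 h3 (lam_nonneg _) (rcost_nonneg hp _ _ _)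
    _ = _ := by ring

end Pool.Agent.Q262.RL
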