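import Mathlib
import Pool.Agent.TH53.HR1
import Pool.Agent.Q262.RL.Ram

/-!
# The number of the embeddings above a set of prime ideals
-/

set_option autoImplicit false
set_option linter.unusedSectionVars false
set_option linter.style.haveILetI false

open Finset NumberField Module

namespace Pool.Agent.Q262.RL

open Pool.Agent.TH53.HR (Good exists_val span_maximal span_ne_bot)

variable {p : ℕ} {V : ValuationSubring ℂ} {F : Type} [Field F] [NumberField F]

lemma val_le (hV : Good p V) (v : F →ₐ[ℚ] ℂ) (x : 𝓞 F) : V.valuation (v x) ≤ 1 :=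
  (V.valuation_le_one_iff _).2 (hV.int _ (x.isIntegral_coe.map (v.restrictScalars ℤ)))

lemma val_p (hp : p.Prime) (hV : Good p V) : V.valuation (p : ℂ) < 1 := by
  by_contra h
  push Not at h
  apply hV.inv
  rw [← V.valuation_le_one_iff, map_inv₀]
  exact inv_le_one_of_one_le₀ h

/-- the prime ideal of an embedding -/
def pr (hV : Good p V) (v : F →ₐ[ℚ] ℂ) : Ideal (𝓞 F) where
  carrier := {x | V.valuation (v x) < 1}
  add_mem' := by
    intro a b ha hb
    change V.valuation (v ((a + b : 𝓞 F) : F)) < 1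
    rw [show ((a + b : 𝓞 F) : F) = (a : F) + (b : F) from rfl, map_add]
    exact lt_of_le_of_lt (V.valuation.map_add _ _) (max_lt ha hb)
  zero_mem' := by
    change V.valuation (v ((0 : 𝓞 F) : F)) < 1
    simp
  smul_mem' := by
    intro c x hx
    change V.valuation (v ((c * x : 𝓞 F) : F)) < 1
    rw [show ((c * x : 𝓞 F) : F) = (c : F) * (x : F) from rfl, map_mul, map_mul]
    exact lt_of_le_of_lt (mul_le_of_le_one_left' (val_le hV v c)) hx

lemma mem_pr {hV : Good p V} {v : F →ₐ[ℚ] ℂ} {x : 𝓞 F} : x ∈ pr hV v ↔ V.valuation (v x) < 1 :=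
  Iff.rfl

lemma val_eq_one {hV : Good p V} {v : F →ₐ[ℚ] ℂ} {x : 𝓞 F} (h : x ∉ pr hV v) :
    V.valuation (v x) = 1 :=
  le_antisymm (val_le hV v x) (not_lt.1 h)

lemma pr_prime (hV : Good p V) (v : F →ₐ[ℚ] ℂ) : (pr hV v).IsPrime := by
  refine ⟨?_, ?_⟩
  · intro h
    have h1 : (1 : 𝓞 F) ∈ pr hV v := by rw [h]; trivial
    rw [mem_pr] at h1
    simp at h1
  · intro a b hab
    by_contra hc
    push Not at hc
    rw [mem_pr] at hab
    have h1 := val_eq_one hc.1
    have h2 := val_eq_one hc.2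
    rw [show ((a * b : 𝓞 F) : F) = (a : F) * (b : F) from rfl, map_mul, map_mul, h1, h2,
      mul_one] at hab
    exact lt_irrefl _ hab

lemma pr_over (hp : p.Prime) (hV : Good p V) (v : F →ₐ[ℚ] ℂ) :
    pr hV v ∈ (Ideal.span {(p : ℤ)}).primesOver (𝓞 F) := by
  refine ⟨pr_prime hV v, liesOver_of_mem hp (pr_prime hV v) ?_⟩
  rw [mem_pr]
  simpa using val_p hp hV

/-- all primes above `p` -/
noncomputable abbrev All (p : ℕ) (F : Type) [Field F] [NumberField F] : Finset (Ideal (𝓞 F)) :=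
  IsDedekindDomain.primesOverFinset (Ideal.span {(p : ℤ)}) (𝓞 F)

lemma mem_All (hp : p.Prime) {P : Ideal (𝓞 F)} :
    P ∈ All p F ↔ P ∈ (Ideal.span {(p : ℤ)}).primesOver (𝓞 F) := by
  haveI := span_maximal hp
  exact IsDedekindDomain.mem_primesOverFinset_iff (span_ne_bot hp) _

lemma ne_bot_of_over (hp : p.Prime) {P : Ideal (𝓞 F)}
    (hP : P ∈ (Ideal.span {(p : ℤ)}).primesOver (𝓞 F)) : P ≠ ⊥ := by
  haveI := hP.1
  haveI := hP.2
  exact Ideal.ne_bot_of_liesOver_of_ne_bot (span_ne_bot hp) P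

open Classical in
lemma fact_p (hp : p.Prime) :
    Ideal.span {(p : 𝓞 F)} = ∏ P ∈ All p F, P ^ P.ramificationIdx ℤ := by
  haveI := span_maximal hp
  have h1 := Ideal.map_algebraMap_eq_finsetProd_pow (R := 𝓞 F) (p := Ideal.span {(p : ℤ)})
    (by rw [Ideal.zero_eq_bot]; exact span_ne_bot hp)
  have hmap : (Ideal.span {(p : ℤ)}).map (algebraMap ℤ (𝓞 F)) = Ideal.span {(p : 𝓞 F)} := by
    rw [Ideal.map_span, Set.image_singleton]
    congr 2
    simp
  rw [hmap] at h1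
  rw [h1]
  refine Finset.prod_congr ?_ fun _ _ => rfl
  ext P
  rw [Set.mem_toFinset, mem_All hp]

lemma exists_principal (J : Ideal (𝓞 F)) (hJ : J ≠ ⊥) :
    ∃ j : 𝓞 F, J ^ Fintype.card (ClassGroup (𝓞 F)) = Ideal.span {j} := by
  have hJ' : J ∈ nonZeroDivisors (Ideal (𝓞 F)) := mem_nonZeroDivisors_of_ne_zero hJ
  have h1 : ClassGroup.mk0 (⟨J, hJ'⟩ ^ Fintype.card (ClassGroup (𝓞 F))) = 1 := by
    rw [map_pow, pow_card_eq_one]
  have h2 := (ClassGroup.mk0_eq_one_iff (Submonoid.pow_mem _ hJ' _)).1 h1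
  obtain ⟨j, hj⟩ := h2
  exact ⟨j, hj⟩

open Classical in
/-- **The number of the embeddings above a set of prime ideals.** -/
theorem count_emb (hp : p.Prime) (hV : Good p V) (T : Finset (Ideal (𝓞 F)))
    (hT : T ⊆ All p F) :
    ∑ P ∈ T, P.ramificationIdx ℤ * P.inertiaDeg ℤ =
      (univ.filter fun v : F →ₐ[ℚ] ℂ => pr hV v ∈ T).card := by
  set h := Fintype.card (ClassGroup (𝓞 F)) with hh
  have hpos : 0 < h := Fintype.card_pos
  set J : Ideal (𝓞 F) := ∏ P ∈ T, P ^ P.ramificationIdx ℤ with hJ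
  set J' : Ideal (𝓞 F) := ∏ P ∈ All p F \ T, P ^ P.ramificationIdx ℤ with hJ'
  have hJJ : J * J' = Ideal.span {(p : 𝓞 F)} := by
    rw [fact_p hp, hJ, hJ', mul_comm, Finset.prod_sdiff hT]
  have hp0 : (p : 𝓞 F) ≠ 0 := by exact_mod_cast hp.ne_zero
  have hspan : Ideal.span {(p : 𝓞 F)} ≠ ⊥ := by
    rw [Ne, Ideal.span_singleton_eq_bot]
    exact hp0
  have hJ0 : J ≠ ⊥ := fun h0 => hspan (by rw [← hJJ, h0, Ideal.bot_mul])
  have hJ'0 : J' ≠ ⊥ := fun h0 => hspan (by rw [← hJJ, h0, Ideal.mul_bot])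
  obtain ⟨j, hj⟩ := exists_principal J hJ0
  obtain ⟨j', hj'⟩ := exists_principal J' hJ'0
  rw [← hh] at hj hj'
  have hassoc : Associated (j * j') ((p : 𝓞 F) ^ h) := by
    rw [← Ideal.span_singleton_eq_span_singleton, ← Ideal.span_singleton_mul_span_singleton,
      ← hj, ← hj', ← mul_pow, hJJ, Ideal.span_singleton_pow]
  obtain ⟨u, hu⟩ := hassoc
  -- an element of one of the two ideals is not in a prime of the other kind
  have key : ∀ (A B : Finset (Ideal (𝓞 F))) (z : 𝓞 F), A ⊆ All p F → Disjoint A B →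
      (∏ P ∈ A, P ^ P.ramificationIdx ℤ) ^ h = Ideal.span {z} →
      ∀ v : F →ₐ[ℚ] ℂ, pr hV v ∈ B → z ∉ pr hV v := by
    intro A B z hA hAB hz v hv hzv
    haveI := pr_prime hV v
    have h1 : (∏ P ∈ A, P ^ P.ramificationIdx ℤ) ^ h ≤ pr hV v := by
      rw [hz, Ideal.span_singleton_le_iff_mem]
      exact hzv
    rw [Ideal.IsPrime.pow_le_iff hpos.ne', Ideal.IsPrime.prod_le (pr_prime hV v)] at h1
    obtain ⟨P, hP, hPle⟩ := h1
    have hPo := (mem_All hp).1 (hA hP)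
    haveI := hPo.1
    haveI := hPo.2
    have he : P.ramificationIdx ℤ ≠ 0 := (Ideal.ramificationIdx_pos P ℤ).ne'
    rw [Ideal.IsPrime.pow_le_iff he] at hPle
    have hmax : P.IsMaximal := (hPo.1).isMaximal (ne_bot_of_over hp hPo)
    have heq := hmax.eq_of_le (pr_prime hV v).ne_top hPle
    rw [← heq] at hv
    exact (Finset.disjoint_left.1 hAB hP) hv
  have hin : ∀ v : F →ₐ[ℚ] ℂ, pr hV v ∈ T → V.valuation (v j) = V.valuation (p : ℂ) ^ h := by
    intro v hv
    have h1 : V.valuation (v j') = 1 := val_eq_one (hV := hV)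
      (key _ T j' Finset.sdiff_subset Finset.sdiff_disjoint hj' v hv)
    have h2 : V.valuation (v ((u : 𝓞 F) : F)) = 1 := by
      apply val_eq_one (hV := hV)
      intro hc
      exact (pr_prime hV v).ne_top (Ideal.eq_top_of_isUnit_mem _ hc u.isUnit)
    have h3 := congrArg (fun z : 𝓞 F => V.valuation (v (z : F))) hu
    simp only [map_mul, map_pow, h1, h2, mul_one] at h3
    simpa using h3
  have hout : ∀ v : F →ₐ[ℚ] ℂ, pr hV v ∉ T → V.valuation (v j) = 1 := by
    intro v hv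
    exact val_eq_one (hV := hV) (key T (All p F \ T) j hT Finset.disjoint_sdiff hj v
      (Finset.mem_sdiff.2 ⟨(mem_All hp).2 (pr_over hp hV v), hv⟩))
  -- the norm
  have hnorm : Ideal.absNorm J = p ^ ∑ P ∈ T, P.ramificationIdx ℤ * P.inertiaDeg ℤ := by
    rw [hJ, map_prod, ← Finset.prod_pow_eq_pow_sum]
    refine Finset.prod_congr rfl fun P hP => ?_
    have hPo := (mem_All hp).1 (hT hP)
    haveI := hPo.1
    haveI := hPo.2
    rw [map_pow, ← Ideal.pow_inertiaDeg p P, ← pow_mul, mul_comm]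
  have h1 : (Algebra.norm ℤ j).natAbs = p ^ ((∑ P ∈ T, P.ramificationIdx ℤ * P.inertiaDeg ℤ) * h) := by
    rw [← Ideal.absNorm_span_singleton, ← hj, map_pow, hnorm, pow_mul]
  have h2 : ((Algebra.norm ℤ j : ℤ) : ℂ) = ∏ v : F →ₐ[ℚ] ℂ, v j := by
    rw [← Algebra.norm_eq_prod_embeddings ℚ ℂ (j : F), ← Algebra.coe_norm_int]
    simp
  have h3 : V.valuation ((Algebra.norm ℤ j : ℤ) : ℂ) =
      V.valuation (p : ℂ) ^ ((∑ P ∈ T, P.ramificationIdx ℤ * P.inertiaDeg ℤ) * h) := by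
    rcases Int.natAbs_eq (Algebra.norm ℤ j) with h4 | h4
    · rw [h4, h1]
      push_cast
      rw [map_pow]
    · rw [h4, h1]
      push_cast
      rw [Valuation.map_neg, map_pow]
  have h5 : ∏ v : F →ₐ[ℚ] ℂ, V.valuation (v j) =
      V.valuation (p : ℂ) ^ ((univ.filter fun v : F →ₐ[ℚ] ℂ => pr hV v ∈ T).card * h) := by
    rw [← Finset.prod_filter_mul_prod_filter_not univ (fun v : F →ₐ[ℚ] ℂ => pr hV v ∈ T)]
    rw [Finset.prod_congr rfl (fun v hv => hin v (Finset.mem_filter.1 hv).2),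
      Finset.prod_congr rfl (fun v hv => hout v (Finset.mem_filter.1 hv).2), Finset.prod_const,
      Finset.prod_const_one, mul_one, ← pow_mul, mul_comm]
  rw [h2, map_prod, h5] at h3
  have hvp := val_p hp hV
  have hvp0 : V.valuation (p : ℂ) ≠ 0 := by
    rw [Ne, Valuation.zero_iff]
    exact_mod_cast hp.ne_zero
  have h6 : (univ.filter fun v : F →ₐ[ℚ] ℂ => pr hV v ∈ T).card * h =
      (∑ P ∈ T, P.ramificationIdx ℤ * P.inertiaDeg ℤ) * h := by
    rcases lt_trichotomy ((univ.filter fun v : F →ₐ[ℚ] ℂ => pr hV v ∈ T).card * h)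
      ((∑ P ∈ T, P.ramificationIdx ℤ * P.inertiaDeg ℤ) * h) with h7 | h7 | h7
    · exact absurd h3 (pow_lt_pow_right_of_lt_one₀ (zero_lt_iff.2 hvp0) hvp h7).ne'
    · exact h7
    · exact absurd h3 (pow_lt_pow_right_of_lt_one₀ (zero_lt_iff.2 hvp0) hvp h7).ne
  exact (Nat.eq_of_mul_eq_mul_right hpos h6).symm

end Pool.Agent.Q262.RL
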