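import Mathlib

/-!
# Numerical part of the dichotomy
-/

set_option autoImplicit false

namespace Pool.Agent.Q262.RL

/-- the exponential factor is at most a constant times the square root of the degree -/
theorem sqrt_bound {Q l k1 δ a B X : ℝ} (hQ : 0 < Q) (hl : 0 ≤ l) (hk1 : 1 ≤ k1) (hδ0 : 0 ≤ δ)
    (hδ1 : δ ≤ 1) (hδ : 12 * Q * k1 * δ ≤ 1) (ha : 1 ≤ a) (hB0 : 0 ≤ B) (hB : B ≤ δ * l + 2)
    (hX0 : 0 ≤ X) (hX : X ≤ k1 * l + a) :
    √(3 * B * Q * X) ≤ l / 2 + (1 + 3 * Q * (3 * a + 2 * k1)) := by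
  set C : ℝ := 1 + 3 * Q * (3 * a + 2 * k1) with hC
  have hC1 : 1 ≤ C := by
    have : 0 ≤ 3 * Q * (3 * a + 2 * k1) := by positivity
    linarith
  refine Real.sqrt_le_iff.2 ⟨by positivity, ?_⟩
  have h1 : B * X ≤ (δ * l + 2) * (k1 * l + a) := mul_le_mul hB hX hX0 (by positivity)
  have h2 : 3 * B * Q * X ≤ 3 * Q * ((δ * l + 2) * (k1 * l + a)) := by
    have := mul_le_mul_of_nonneg_left h1 (show 0 ≤ 3 * Q by positivity)
    linarith
  refine h2.trans ?_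
  have e1 : 3 * Q * ((δ * l + 2) * (k1 * l + a)) =
      (3 * Q * k1 * δ) * l ^ 2 + 3 * Q * (δ * a + 2 * k1) * l + 3 * Q * (2 * a) := by ring
  have e2 : (l / 2 + C) ^ 2 = 1 / 4 * l ^ 2 + C * l + C ^ 2 := by ring
  rw [e1, e2]
  have h3 : (3 * Q * k1 * δ) * l ^ 2 ≤ 1 / 4 * l ^ 2 :=
    mul_le_mul_of_nonneg_right (by linarith) (sq_nonneg l)
  have h4 : 3 * Q * (δ * a + 2 * k1) * l ≤ C * l := by
    refine mul_le_mul_of_nonneg_right ?_ hl
    have h5 : δ * a ≤ 3 * a := mul_le_mul_of_nonneg_right (by linarith) (by linarith)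
    have h6 : 3 * Q * (δ * a + 2 * k1) ≤ 3 * Q * (3 * a + 2 * k1) :=
      mul_le_mul_of_nonneg_left (by linarith) (by positivity)
    linarith
  have h5 : 3 * Q * (2 * a) ≤ C ^ 2 := by
    have h6 : 3 * Q * (2 * a) ≤ 3 * Q * (3 * a + 2 * k1) :=
      mul_le_mul_of_nonneg_left (by linarith) (by positivity)
    nlinarith
  linarith

end Pool.Agent.Q262.RL
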