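import Mathlib
import Pool.Agent.Q262.RL.Ram
import Pool.Agent.Q262.RL.Key

/-!
# Lehmer's problem and subfields with comparable ramification indices
-/

set_option autoImplicit false
set_option linter.unusedSectionVars false

open Finset NumberField Module IntermediateField Polynomial

namespace Pool.Agent.Q262.RL

open Pool.Agent.TH53.HR (resDegSum number_field resDegSum_le)
open Pool.Agent.Y399.MG (resDegSum_up resDegSum_down log_mahler)
open Pool.Agent.H388SL (lam lam_nonneg)

/-- the ramification indices of `F` above `p` differ by a factor of at most `B` -/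
def RamComp (p B : ℕ) (F : Type) [Field F] [NumberField F] : Prop :=
  ∀ P ∈ (Ideal.span {(p : ℤ)}).primesOver (𝓞 F), ∀ Q ∈ (Ideal.span {(p : ℤ)}).primesOver (𝓞 F),
    P.ramificationIdx ℤ ≤ B * Q.ramificationIdx ℤ

/-- **The lower bound for comparable ramification indices.** -/
theorem key2 {p : ℕ} (hp : p.Prime) {e : ℕ} (he : 0 < e) (B N0 : ℕ) (C : ℝ) : ∃ μ : ℝ, 0 < μ ∧
    ∀ (F L M : Type) [Field F] [NumberField F] [Field L] [NumberField L] [Algebra F L]
      [Field M] [NumberField M] [Algebra M L] (β : 𝓞 M) (D : ℕ), FrobAll p (p ^ e) F →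
      RamComp p B F → finrank F L ≤ D →
      Real.log (2 * (finrank ℚ F * D)) * Real.exp (√(3 * (e * Real.log p) * Real.log D)) ≤
        C * finrank ℚ F →
      finrank M L ≤ N0 → β ≠ 0 →
      (∀ m : ℕ, 0 < m → β ^ m ≠ 1) → (∀ i : ℕ, ℚ⟮(β : M) ^ p ^ i⟯ = ⊤) →
      μ ≤ Real.log ((minpoly ℤ (β : M)).map (Int.castRingHom ℂ)).mahlerMeasure := by
  haveI : Fact p.Prime := ⟨hp⟩
  have hp2 : (2 : ℝ) ≤ p := by exact_mod_cast hp.two_le
  have hlp : 0 < Real.log p := Real.log_pos (by linarith)
  set K0 : ℝ := 10 * (p : ℝ) ^ (2 * e + 1) / Real.log p with hK0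
  have hK0' : 0 < K0 := by positivity
  refine ⟨min (1 / (4 * (p : ℝ) ^ ⌈40 + 20 * (N0 : ℝ)⌉₊)) (1 / (K0 * B * |C| * N0 + 1)),
    lt_min ?_ ?_, ?_⟩
  · have : (0 : ℝ) < p := by exact_mod_cast hp.pos
    positivity
  · positivity
  intro F L M _ _ _ _ _ _ _ _ β D hF hB hD hC hM hβ0 hβr hgen
  haveI : FiniteDimensional F L := FiniteDimensional.right ℚ F L
  haveI : FiniteDimensional M L := FiniteDimensional.right ℚ M L
  have hDpos : 0 < finrank F L := finrank_pos
  have hMpos : 0 < finrank M L := finrank_pos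
  have hmpos : 0 < finrank ℚ M := finrank_pos
  have hNpos : 0 < finrank ℚ F := finrank_pos
  have htow : finrank ℚ M * finrank M L = finrank ℚ F * finrank F L := by
    rw [Module.finrank_mul_finrank ℚ M L, Module.finrank_mul_finrank ℚ F L]
  set N := finrank ℚ F with hN
  set D0 := finrank F L with hD0
  set m := finrank ℚ M with hm
  set r := finrank M L with hr
  set g := resDegSum F p with hg
  have hN' : (1 : ℝ) ≤ N := by exact_mod_cast hNpos
  have hD0' : (1 : ℝ) ≤ D0 := by exact_mod_cast hDpos
  have hDD : (D0 : ℝ) ≤ D := by exact_mod_cast hD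
  have hm' : (1 : ℝ) ≤ m := by exact_mod_cast hmpos
  have hr' : (1 : ℝ) ≤ r := by exact_mod_cast hMpos
  have hrN0 : (r : ℝ) ≤ N0 := by exact_mod_cast hM
  have htow' : (m : ℝ) * r = N * D0 := by exact_mod_cast htow
  set W : ℝ := Real.log (2 * (N * D)) with hW
  have hW0 : 0 < W := Real.log_pos (by nlinarith)
  by_cases hcase : ∀ P ∈ (Ideal.span {(p : ℤ)}).primesOver (𝓞 F), W ≤ (P.ramificationIdx ℤ : ℝ)
  · refine (min_le_left _ _).trans ?_
    have h0 : W * (g : ℝ) ≤ N := resDegSum_le p hcase
    have h1 : (resDegSum M p : ℝ) ≤ D0 * g := by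
      exact_mod_cast (resDegSum_down (k := M) (L := L) p).trans (resDegSum_up (k := F) (L := L) p)
    have hmW : Real.log (2 * m) ≤ W := by
      refine Real.log_le_log (by linarith) ?_
      have : (m : ℝ) ≤ N * D0 := by nlinarith
      nlinarith
    have h2 : (resDegSum M p : ℝ) * Real.log (2 * m) ≤ N0 * m := by
      have h3 : (resDegSum M p : ℝ) * Real.log (2 * m) ≤ D0 * g * W :=
        mul_le_mul h1 hmW (Real.log_nonneg (by linarith)) (by positivity)
      calc (resDegSum M p : ℝ) * Real.log (2 * m) ≤ D0 * g * W := h3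
        _ = D0 * (W * g) := by ring
        _ ≤ D0 * N := mul_le_mul_of_nonneg_left h0 (by linarith)
        _ = m * r := by rw [htow']; ring
        _ ≤ m * N0 := mul_le_mul_of_nonneg_left hrN0 (by linarith)
        _ = N0 * m := by ring
    have h5 := number_field p β hgen hβ0 hβr N0 h2
    exact (Real.le_log_iff_exp_le ((Real.exp_pos _).trans_le h5)).mpr h5
  · refine (min_le_right _ _).trans ?_
    push Not at hcase
    obtain ⟨P0, hP0, hlt⟩ := hcase
    have hE : RamLe p (B * P0.ramificationIdx ℤ) F := fun P hP => hB P hP P0 hP0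
    have hx0 : algebraMap M L (β : M) ≠ 0 := by
      intro h
      apply hβ0
      have h1 := (map_eq_zero (algebraMap M L)).1 h
      exact RingOfIntegers.coe_eq_zero_iff.1 h1
    have hxi : IsIntegral ℤ (algebraMap M L (β : M)) := β.isIntegral_coe.algebraMap
    have hxr : ∀ j : ℕ, 0 < j → (algebraMap M L (β : M)) ^ j ≠ 1 := by
      intro j hj h
      rw [← map_pow, ← map_one (algebraMap M L)] at h
      have h1 := (algebraMap M L).injective h
      exact hβr j hj (RingOfIntegers.ext (by simpa using h1))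
    have h1 := ram_bound hp he hF hE (algebraMap M L (β : M)) hx0 hxi hxr
    rw [lam_algebraMap] at h1
    have h2 : ℚ⟮(β : M)⟯ = ⊤ := by
      have := hgen 0
      rwa [pow_zero, pow_one] at this
    rw [log_mahler β h2]
    have hlam : 0 ≤ lam (β : M) := lam_nonneg _
    set Λ := lam (β : M) with hΛ
    have h3 : rcost p e (B * P0.ramificationIdx ℤ) D0 ≤
        K0 * B * (W * Real.exp (√(3 * (e * Real.log p) * Real.log D))) := by
      have e1 := rcost_mono (l := e) (E := B * P0.ramificationIdx ℤ) hp hDpos hD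
      refine e1.trans ?_
      unfold rcost
      push_cast
      have e2 : 10 * (p : ℝ) ^ (2 * e + 1) * (B * (P0.ramificationIdx ℤ : ℝ)) *
          Real.exp (√(3 * (e * Real.log p) * Real.log D)) / Real.log p =
          K0 * B * ((P0.ramificationIdx ℤ : ℝ) *
            Real.exp (√(3 * (e * Real.log p) * Real.log D))) := by
        rw [hK0]; ring
      rw [e2]
      refine mul_le_mul_of_nonneg_left (mul_le_mul_of_nonneg_right hlt.le (Real.exp_pos _).le) ?_
      positivity
    have h4 : (N : ℝ) ≤ (K0 * B * (|C| * N)) * (N0 * Λ) := by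
      have e1 : W * Real.exp (√(3 * (e * Real.log p) * Real.log D)) ≤ |C| * N :=
        hC.trans (mul_le_mul_of_nonneg_right (le_abs_self C) (by linarith))
      have e2 : rcost p e (B * P0.ramificationIdx ℤ) D0 ≤ K0 * B * (|C| * N) :=
        h3.trans (mul_le_mul_of_nonneg_left e1 (by positivity))
      refine h1.trans (mul_le_mul e2 (mul_le_mul_of_nonneg_right hrN0 hlam) (by positivity) ?_)
      positivity
    have h6 : 1 ≤ K0 * B * |C| * N0 * Λ := by
      have h7 : (N : ℝ) * 1 ≤ N * (K0 * B * |C| * N0 * Λ) := by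
        rw [mul_one]
        refine h4.trans (le_of_eq ?_)
        ring
      exact le_of_mul_le_mul_left h7 (by linarith)
    rw [div_le_iff₀ (by positivity)]
    nlinarith

end Pool.Agent.Q262.RL
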