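import Mathlib
import Pool.Agent.Q262.RL.Key

/-!
# Lehmer's problem and subfields with a Frobenius automorphism at a part of the prime ideals
-/

set_option autoImplicit false
set_option linter.unusedSectionVars false
set_option linter.style.haveILetI false

open Finset NumberField Module IntermediateField Polynomial

namespace Pool.Agent.Q262.RL

open Pool.Agent.TH53.HR (resDegSum number_field span_maximal span_ne_bot)
open Pool.Agent.Q191.MV (FrobeniusAt loss lower_at)
open Pool.Agent.Y399.MG (resDegSum_up resDegSum_down log_mahler)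
open Pool.Agent.H388SL (lam lam_nonneg)
open Pool.Agent.Q262.AB (fib mem_fib card_fib)

/-- `F` has an automorphism `τ` and a set `T` of prime ideals above `p` with `x ^ q ≡ τ x` modulo
each of them, such that the `B`-th power of the product of their norms is at least the product of
the norms of all the prime ideals above `p`. -/
def FrobPart (p q B : ℕ) (F : Type) [Field F] [NumberField F] : Prop :=
  ∃ (τ : F ≃+* F) (T : Finset (Ideal (𝓞 F))),
    (∀ P ∈ T, P ∈ (Ideal.span {(p : ℤ)}).primesOver (𝓞 F) ∧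
      ∀ x : 𝓞 F, x ^ q - RingOfIntegers.mapRingHom (τ : F →+* F) x ∈ P) ∧
    ∏ P ∈ IsDedekindDomain.primesOverFinset (Ideal.span {(p : ℤ)}) (𝓞 F), Ideal.absNorm P ≤
      (∏ P ∈ T, Ideal.absNorm P) ^ B

lemma prod_all {F : Type} [Field F] [NumberField F] {p : ℕ} (hp : p.Prime) :
    ∏ P ∈ IsDedekindDomain.primesOverFinset (Ideal.span {(p : ℤ)}) (𝓞 F), Ideal.absNorm P =
      p ^ resDegSum F p := by
  classical
  haveI : Fact p.Prime := ⟨hp⟩
  have hnorm : ∀ P ∈ IsDedekindDomain.primesOverFinset (Ideal.span {(p : ℤ)}) (𝓞 F),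
      Ideal.absNorm P = p ^ P.inertiaDeg ℤ := by
    intro P hP
    rw [IsDedekindDomain.mem_primesOverFinset_iff (span_ne_bot hp)] at hP
    haveI := hP.1
    haveI := hP.2
    exact (Ideal.pow_inertiaDeg p P).symm
  rw [prod_congr rfl hnorm, prod_pow_eq_pow_sum]
  rfl

theorem frob_of_part {F : Type} [Field F] [NumberField F] {p : ℕ} (hp : p.Prime) {l B : ℕ}
    (hl : 0 < l) (h : FrobPart p (p ^ l) B F) {B1 : ℕ} (hB : finrank ℚ F ≤ resDegSum F p * B1) :
    FrobeniusAt F (p ^ l) (B * B1) := by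
  obtain ⟨τ, T, hT, hN⟩ := h
  rw [prod_all hp] at hN
  refine ⟨p, l, τ, T, hp, hl, rfl, ?_, ?_⟩
  · intro P hP
    obtain ⟨⟨hPp, hPo⟩, hx⟩ := hT P hP
    have hpP : (p : 𝓞 F) ∈ P := by
      have h1 : (p : ℤ) ∈ Ideal.span {(p : ℤ)} := Ideal.mem_span_singleton_self _
      rw [hPo.over] at h1
      have h2 : algebraMap ℤ (𝓞 F) (p : ℤ) ∈ P := h1
      simpa using h2
    exact ⟨hPp, hpP, hx⟩
  · calc p ^ finrank ℚ F ≤ p ^ (resDegSum F p * B1) := Nat.pow_le_pow_right hp.pos hB
      _ = (p ^ resDegSum F p) ^ B1 := by rw [pow_mul]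
      _ ≤ ((∏ P ∈ T, Ideal.absNorm P) ^ B) ^ B1 := Nat.pow_le_pow_left hN _
      _ = _ := by rw [pow_mul]

theorem part_of_all {F : Type} [Field F] [NumberField F] {p : ℕ} (hp : p.Prime) {q : ℕ}
    (h : FrobPart p q 1 F) : FrobAll p q F := by
  classical
  haveI : Fact p.Prime := ⟨hp⟩
  obtain ⟨τ, T, hT, hN⟩ := h
  refine ⟨τ, fun P hP => ?_⟩
  set A := IsDedekindDomain.primesOverFinset (Ideal.span {(p : ℤ)}) (𝓞 F) with hA
  have hsub : T ⊆ A := by
    intro Q hQ
    rw [hA, IsDedekindDomain.mem_primesOverFinset_iff (span_ne_bot hp)]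
    exact (hT Q hQ).1
  have hPA : P ∈ A := by
    rw [hA, IsDedekindDomain.mem_primesOverFinset_iff (span_ne_bot hp)]
    exact hP
  have hone : ∀ Q ∈ A, 1 < Ideal.absNorm Q := by
    intro Q hQ
    rw [hA, IsDedekindDomain.mem_primesOverFinset_iff (span_ne_bot hp)] at hQ
    haveI := hQ.1
    haveI := hQ.2
    rw [← Ideal.pow_inertiaDeg p Q]
    exact Nat.one_lt_pow (Ideal.inertiaDeg_pos Q ℤ).ne' hp.one_lt
  by_contra hc
  have hPT : P ∉ T := fun h => hc ((hT P h).2)
  have h1 : ∏ Q ∈ insert P T, Ideal.absNorm Q ≤ ∏ Q ∈ A, Ideal.absNorm Q :=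
    Finset.prod_le_prod_of_subset_of_one_le' (Finset.insert_subset hPA hsub)
      fun Q hQ _ => (hone Q hQ).le
  rw [Finset.prod_insert hPT] at h1
  rw [pow_one] at hN
  have h2 : 0 < ∏ Q ∈ T, Ideal.absNorm Q :=
    Finset.prod_pos fun Q hQ => (zero_lt_one.trans (hone Q (hsub hQ)))
  have h3 := hone P hPA
  have h4 : 2 * ∏ Q ∈ T, Ideal.absNorm Q ≤ Ideal.absNorm P * ∏ Q ∈ T, Ideal.absNorm Q :=
    Nat.mul_le_mul_right _ h3
  omega

theorem frob_at_prime {F : Type} [Field F] [NumberField F] {p : ℕ} (hp : p.Prime) {f : ℕ}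
    {P : Ideal (𝓞 F)} (hP : P ∈ (Ideal.span {(p : ℤ)}).primesOver (𝓞 F))
    (hle : P.inertiaDeg ℤ ≤ f) (x : 𝓞 F) :
    x ^ p ^ f.factorial - RingOfIntegers.mapRingHom ((RingEquiv.refl F : F ≃+* F) : F →+* F) x
      ∈ P := by
  classical
  haveI : Fact p.Prime := ⟨hp⟩
  obtain ⟨hPp, hPo⟩ := hP
  haveI := hPp
  haveI := hPo
  have hpP : (p : 𝓞 F) ∈ P := by
    have h1 : (p : ℤ) ∈ Ideal.span {(p : ℤ)} := Ideal.mem_span_singleton_self _
    rw [hPo.over] at h1
    have h2 : algebraMap ℤ (𝓞 F) (p : ℤ) ∈ P := h1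
    simpa using h2
  have hp0 : (p : 𝓞 F) ≠ 0 := by exact_mod_cast hp.ne_zero
  have hP0 : P ≠ ⊥ := by
    rintro rfl
    exact hp0 (by simpa using hpP)
  haveI : P.IsMaximal := hPp.isMaximal hP0
  letI : Field (𝓞 F ⧸ P) := Ideal.Quotient.field P
  have hcard : Nat.card (𝓞 F ⧸ P) = p ^ P.inertiaDeg ℤ := by
    rw [Ideal.pow_inertiaDeg p P, Ideal.absNorm_apply, Submodule.cardQuot_apply]
  haveI : Finite (𝓞 F ⧸ P) := Nat.finite_of_card_ne_zero (by
    rw [hcard]
    exact pow_ne_zero _ hp.ne_zero)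
  letI : Fintype (𝓞 F ⧸ P) := Fintype.ofFinite _
  have hpos : 0 < P.inertiaDeg ℤ := by
    by_contra hc
    have h0 : P.inertiaDeg ℤ = 0 := by omega
    rw [h0, pow_zero] at hcard
    have h1 : 1 < Nat.card (𝓞 F ⧸ P) := Finite.one_lt_card
    omega
  obtain ⟨c, hc⟩ := Nat.dvd_factorial hpos hle
  have h1 := FiniteField.pow_card_pow c (Ideal.Quotient.mk P x)
  rw [← Nat.card_eq_fintype_card, hcard, ← pow_mul, ← hc] at h1
  have h2 : RingOfIntegers.mapRingHom ((RingEquiv.refl F : F ≃+* F) : F →+* F) x = x :=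
    RingOfIntegers.ext rfl
  rw [h2, ← Ideal.Quotient.eq_zero_iff_mem, map_sub, map_pow, h1, sub_self]

/-- residue degrees -/
theorem frobPart_of_res {F : Type} [Field F] [NumberField F] {p : ℕ} (hp : p.Prime) {f B : ℕ}
    (T : Finset (Ideal (𝓞 F)))
    (hT : ∀ P ∈ T, P ∈ (Ideal.span {(p : ℤ)}).primesOver (𝓞 F) ∧ P.inertiaDeg ℤ ≤ f)
    (hN : ∏ P ∈ IsDedekindDomain.primesOverFinset (Ideal.span {(p : ℤ)}) (𝓞 F),
      Ideal.absNorm P ≤ (∏ P ∈ T, Ideal.absNorm P) ^ B) : FrobPart p (p ^ f.factorial) B F := by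
  refine ⟨RingEquiv.refl F, T, fun P hP => ⟨(hT P hP).1, ?_⟩, hN⟩
  exact fun x => frob_at_prime hp (hT P hP).1 (hT P hP).2 x

/-- **The lower bound.** -/
theorem key3 {p : ℕ} (hp : p.Prime) {e : ℕ} (he : 0 < e) (B0 κ N0 N1 : ℕ) : ∃ μ : ℝ, 0 < μ ∧
    ∀ (F L M : Type) [Field F] [NumberField F] [Field L] [NumberField L] [Algebra F L]
      [Field M] [NumberField M] [Algebra M L] (β : 𝓞 M), FrobPart p (p ^ e) B0 F →
      finrank F L ≤ N1 * finrank ℚ F ^ κ → finrank M L ≤ N0 → β ≠ 0 →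
      (∀ m : ℕ, 0 < m → β ^ m ≠ 1) → (∀ i : ℕ, ℚ⟮(β : M) ^ p ^ i⟯ = ⊤) →
      μ ≤ Real.log ((minpoly ℤ (β : M)).map (Int.castRingHom ℂ)).mahlerMeasure := by
  haveI : Fact p.Prime := ⟨hp⟩
  set q : ℕ := p ^ e with hq
  have hq2 : 2 ≤ q := by
    have h1 : p ^ 1 ≤ p ^ e := Nat.pow_le_pow_right hp.pos he
    have h2 := hp.two_le
    rw [pow_one] at h1
    omega
  have hq2' : (2 : ℝ) ≤ q := by exact_mod_cast hq2
  set b : ℝ := max 1 (B0 : ℝ) with hb
  have hb1 : 1 ≤ b := le_max_left _ _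
  have hbB : (B0 : ℝ) ≤ b := le_max_right _ _
  set Q : ℝ := b * Real.log q with hQ
  have hlq : 0 < Real.log q := Real.log_pos (by linarith)
  have hQ0 : 0 < Q := mul_pos (by linarith) hlq
  set k1 : ℝ := κ + 1 with hk1
  have hk1' : 1 ≤ k1 := by
    have : (0 : ℝ) ≤ κ := Nat.cast_nonneg κ
    linarith
  set δ : ℝ := 1 / (12 * Q * k1 + 1) with hδ
  have hden : 0 < 12 * Q * k1 + 1 := by positivity
  have hδ0 : 0 < δ := by positivity
  have hδ1 : δ ≤ 1 := by
    rw [hδ, div_le_one hden]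
    have : 0 ≤ 12 * Q * k1 := by positivity
    linarith
  have hδ2 : 12 * Q * k1 * δ ≤ 1 := by
    rw [hδ, mul_one_div, div_le_one hden]
    linarith
  set A1 : ℝ := Real.log (2 * N1) with hA1
  set c : ℝ := N0 * (k1 / δ + |A1|) + 1 with hc
  have hc0 : 0 < c := by positivity
  set a : ℝ := 6 + |Real.log N1| + Real.log b with ha
  set C : ℝ := 1 + 3 * Q * (3 * a + 2 * k1) with hC
  refine ⟨min (1 / (4 * (p : ℝ) ^ ⌈40 + 20 * c⌉₊)) (1 / (4 * (q : ℝ) ^ 3 * Real.exp C * (N0 + 1))),
    lt_min ?_ ?_, ?_⟩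
  · have : (0 : ℝ) < p := by exact_mod_cast hp.pos
    positivity
  · positivity
  intro F L M _ _ _ _ _ _ _ _ β hF hD hM hβ0 hβr hgen
  haveI : FiniteDimensional F L := FiniteDimensional.right ℚ F L
  haveI : FiniteDimensional M L := FiniteDimensional.right ℚ M L
  have hDpos : 0 < finrank F L := finrank_pos
  have hMpos : 0 < finrank M L := finrank_pos
  have hmpos : 0 < finrank ℚ M := finrank_pos
  have hNpos : 0 < finrank ℚ F := finrank_pos
  have htow : finrank ℚ M * finrank M L = finrank ℚ F * finrank F L := by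
    rw [Module.finrank_mul_finrank ℚ M L, Module.finrank_mul_finrank ℚ F L]
  set N := finrank ℚ F with hN
  set D := finrank F L with hDdef
  set m := finrank ℚ M with hm
  set r := finrank M L with hr
  have hgpos : 0 < resDegSum F p := resDegSum_pos hp
  set g := resDegSum F p with hg
  have hN1pos : 0 < N1 := by
    by_contra h
    rw [show N1 = 0 by omega, zero_mul] at hD
    omega
  have hN0pos : 0 < N0 := by omega
  have hN' : (1 : ℝ) ≤ N := by exact_mod_cast hNpos
  have hD' : (1 : ℝ) ≤ D := by exact_mod_cast hDpos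
  have hm' : (1 : ℝ) ≤ m := by exact_mod_cast hmpos
  have hr' : (1 : ℝ) ≤ r := by exact_mod_cast hMpos
  have hN1' : (1 : ℝ) ≤ N1 := by exact_mod_cast hN1pos
  have hN0' : (1 : ℝ) ≤ N0 := by exact_mod_cast hN0pos
  have hg' : (1 : ℝ) ≤ g := by exact_mod_cast hgpos
  have hrN0 : (r : ℝ) ≤ N0 := by exact_mod_cast hM
  have htow' : (m : ℝ) * r = N * D := by exact_mod_cast htow
  set l : ℝ := Real.log N with hl
  have hl0 : 0 ≤ l := Real.log_nonneg hN'
  have hlogD : Real.log D ≤ Real.log N1 + κ * l := by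
    have h1 : (D : ℝ) ≤ N1 * (N : ℝ) ^ κ := by exact_mod_cast hD
    have h2 := Real.log_le_log (by linarith) h1
    rwa [Real.log_mul (by positivity) (by positivity), Real.log_pow] at h2
  set W : ℝ := Real.log (2 * (N * D)) with hW
  have hWle : W ≤ A1 + k1 * l := by
    rw [hW, hA1, Real.log_mul (by norm_num) (by positivity), Real.log_mul (by positivity)
      (by positivity), Real.log_mul (by norm_num) (by positivity), ← hl, hk1]
    linarith
  have hW0 : 0 < W := Real.log_pos (by nlinarith)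
  rcases le_or_gt (g * N0 * W) (c * N) with hcase | hcase
  · -- few residue classes
    refine (min_le_left _ _).trans ?_
    have h1 : (resDegSum M p : ℝ) ≤ D * g := by
      exact_mod_cast (resDegSum_down (k := M) (L := L) p).trans (resDegSum_up (k := F) (L := L) p)
    have hmW : Real.log (2 * m) ≤ W := by
      refine Real.log_le_log (by linarith) ?_
      nlinarith
    have h2 : (resDegSum M p : ℝ) * Real.log (2 * m) ≤ c * m := by
      have h3 : (resDegSum M p : ℝ) * Real.log (2 * m) ≤ D * g * W :=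
        mul_le_mul h1 hmW (Real.log_nonneg (by linarith)) (by positivity)
      have h4 : N0 * (D * g * W) ≤ N0 * (c * m) := by
        calc (N0 : ℝ) * (D * g * W) = D * (g * N0 * W) := by ring
          _ ≤ D * (c * N) := mul_le_mul_of_nonneg_left hcase (by linarith)
          _ = c * (m * r) := by rw [htow']; ring
          _ ≤ c * (m * N0) := by gcongr
          _ = N0 * (c * m) := by ring
      exact h3.trans (le_of_mul_le_mul_left h4 (by linarith))
    have h5 := number_field p β hgen hβ0 hβr c h2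
    exact (Real.le_log_iff_exp_le ((Real.exp_pos _).trans_le h5)).mpr h5
  · -- many residue classes
    refine (min_le_right _ _).trans ?_
    obtain ⟨B, hB1, hB2⟩ : ∃ B : ℕ, N ≤ g * B ∧ (B : ℝ) ≤ N / g + 1 := by
      refine ⟨⌈(N : ℝ) / g⌉₊, ?_, ?_⟩
      · have h1 := Nat.le_ceil ((N : ℝ) / g)
        rw [div_le_iff₀ (by linarith)] at h1
        have h2 : (N : ℝ) ≤ g * ⌈(N : ℝ) / g⌉₊ := by linarith
        exact_mod_cast h2
      · exact (Nat.ceil_lt_add_one (by positivity)).le
    have hFr : FrobeniusAt F q (B0 * B) := frob_of_part hp he hF hB1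
    have hBpos' := hFr.pos
    have hBpos : 0 < B := Nat.pos_of_mul_pos_left hBpos'
    have hB0pos : 0 < B0 := Nat.pos_of_mul_pos_right hBpos'
    have hB0' : (1 : ℝ) ≤ B0 := by exact_mod_cast hB0pos
    have hbeq : b = B0 := max_eq_right hB0'
    have hB1' : (1 : ℝ) ≤ B := by exact_mod_cast hBpos
    have hBδ : (B : ℝ) ≤ δ * l + 2 := by
      have h1 : (N : ℝ) / g ≤ N0 * W / c := by
        rw [div_le_div_iff₀ (by linarith) hc0]
        linarith
      have h2 : N0 * W / c ≤ δ * l + 1 := by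
        rw [div_le_iff₀ hc0]
        have e1 : (N0 : ℝ) * W ≤ N0 * (|A1| + k1 * l) := by
          refine mul_le_mul_of_nonneg_left ?_ (by linarith)
          linarith [le_abs_self A1]
        have e2 : (δ * l + 1) * c = (δ * l + 1) * (N0 * (k1 / δ + |A1|) + 1) := by rw [hc]
        have e3 : (N0 : ℝ) * (|A1| + k1 * l) ≤ (δ * l + 1) * (N0 * (k1 / δ + |A1|) + 1) := by
          have e4 : δ * l * (N0 * (k1 / δ)) = N0 * (k1 * l) := by
            field_simp
          have e5 : 0 ≤ δ * l * (N0 * |A1|) := by positivity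
          have e6 : 0 ≤ (N0 : ℝ) * (k1 / δ) := by positivity
          have e7 : 0 ≤ δ * l := by positivity
          have e8 : (δ * l + 1) * (N0 * (k1 / δ + |A1|) + 1) =
              δ * l * (N0 * (k1 / δ)) + δ * l * (N0 * |A1|) + δ * l + N0 * (k1 / δ) +
              N0 * |A1| + 1 := by ring
          rw [e8, e4]
          linarith
        linarith
      linarith
    have hX : Real.log (7 * ((B0 * B : ℕ) : ℝ) * D) ≤ k1 * l + a := by
      have e1 : Real.log (7 * ((B0 * B : ℕ) : ℝ) * D) =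
          Real.log 7 + Real.log b + Real.log B + Real.log D := by
        rw [hbeq]
        push_cast
        rw [Real.log_mul (by positivity) (by positivity), Real.log_mul (by norm_num)
          (by positivity), Real.log_mul (by positivity) (by positivity)]
        ring
      have e2 : Real.log 7 ≤ 3 := by
        have : Real.log 7 ≤ Real.log (2 ^ 3) := Real.log_le_log (by norm_num) (by norm_num)
        rw [Real.log_pow] at this
        have h2 := Real.log_two_lt_d9
        push_cast at this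
        linarith
      have e3 : Real.log B ≤ B - 1 := Real.log_le_sub_one_of_pos (by linarith)
      have e4 : δ * l ≤ l := by nlinarith
      rw [e1, ha, hk1]
      linarith [le_abs_self (Real.log N1)]
    have hX0 : 0 ≤ Real.log (7 * ((B0 * B : ℕ) : ℝ) * D) := by
      have e0 : (1 : ℝ) ≤ ((B0 * B : ℕ) : ℝ) := by exact_mod_cast hBpos'
      exact Real.log_nonneg (by nlinarith)
    have ha1 : 1 ≤ a := by
      have := abs_nonneg (Real.log N1)
      have := Real.log_nonneg hb1
      linarith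
    have hsq := sqrt_bound hQ0 hl0 hk1' hδ0.le hδ1 hδ2 ha1 (by linarith) hBδ hX0 hX
    rw [← hC] at hsq
    have hx0 : algebraMap M L (β : M) ≠ 0 := by
      intro h
      apply hβ0
      have h1 := (map_eq_zero (algebraMap M L)).1 h
      exact RingOfIntegers.coe_eq_zero_iff.1 h1
    have hxi : IsIntegral ℤ (algebraMap M L (β : M)) := β.isIntegral_coe.algebraMap
    have hxr : ∀ j : ℕ, 0 < j → (algebraMap M L (β : M)) ^ j ≠ 1 := by
      intro j hj h
      rw [← map_pow, ← map_one (algebraMap M L)] at h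
      have h1 := (algebraMap M L).injective h
      exact hβr j hj (RingOfIntegers.ext (by simpa using h1))
    have h1 := lower_at hFr (algebraMap M L (β : M)) hx0 hxi hxr
    rw [lam_algebraMap] at h1
    have h2 : ℚ⟮(β : M)⟯ = ⊤ := by
      have := hgen 0
      rwa [pow_zero, pow_one] at this
    rw [log_mahler β h2]
    have hlam : 0 ≤ lam (β : M) := lam_nonneg _
    set Λ := lam (β : M) with hΛ
    have h3 : loss q (B0 * B) D ≤ 4 * (q : ℝ) ^ 3 * (Real.exp C * √N) := by
      unfold loss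
      refine mul_le_mul_of_nonneg_left ?_ (by positivity)
      have e0 : 3 * ((B0 * B : ℕ) : ℝ) * Real.log q * Real.log (7 * ((B0 * B : ℕ) : ℝ) * D) =
          3 * B * Q * Real.log (7 * ((B0 * B : ℕ) : ℝ) * D) := by
        rw [hQ, hbeq]
        push_cast
        ring
      rw [e0]
      have e1 : √(N : ℝ) = Real.exp (l / 2) := by
        rw [Real.sqrt_eq_rpow, Real.rpow_def_of_pos (by linarith), hl]
        congr 1
        ring
      rw [e1, ← Real.exp_add]
      refine Real.exp_le_exp.2 ?_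
      linarith
    have h4 : (N : ℝ) ≤ (4 * (q : ℝ) ^ 3 * (Real.exp C * √N)) * (N0 * Λ) := by
      refine h1.trans ?_
      refine mul_le_mul h3 ?_ (by positivity) (by positivity)
      exact mul_le_mul_of_nonneg_right hrN0 hlam
    have hsN : 0 < √(N : ℝ) := Real.sqrt_pos.2 (by linarith)
    have hsN1 : 1 ≤ √(N : ℝ) := Real.one_le_sqrt.2 hN'
    have h5 : √(N : ℝ) * √N = N := Real.mul_self_sqrt (by linarith)
    have h6 : √(N : ℝ) ≤ 4 * (q : ℝ) ^ 3 * Real.exp C * N0 * Λ := by
      have h7 : √(N : ℝ) * √N ≤ √N * (4 * (q : ℝ) ^ 3 * Real.exp C * N0 * Λ) := by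
        rw [h5]
        refine h4.trans (le_of_eq ?_)
        ring
      exact le_of_mul_le_mul_left h7 hsN
    rw [div_le_iff₀ (by positivity)]
    have h8 : 4 * (q : ℝ) ^ 3 * Real.exp C * N0 * Λ ≤
        Λ * (4 * (q : ℝ) ^ 3 * Real.exp C * (N0 + 1)) := by
      have : 0 ≤ 4 * (q : ℝ) ^ 3 * Real.exp C * Λ := by positivity
      nlinarith
    linarith

end Pool.Agent.Q262.RL
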