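import Mathlib
import Pool.Agent.TH53.HR8

/-!
# Few residues at a part of the embeddings
-/

set_option autoImplicit false
set_option linter.unusedSectionVars false
set_option linter.style.haveILetI false

open Polynomial Finset UniqueFactorizationMonoid

namespace Pool.Agent.Q262.RL

open Pool.Agent.TH53.HR

section alg

variable {k : Type*} [Field k]

/-- the part of `g` composed of the irreducible factors of `H` -/
theorem part_lemma (g H : k[X]) (hg : g.Monic) (hH : H ≠ 0) (e : ℕ) (he : 1 ≤ e) :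
    ∃ A B Φ : k[X], g = A * B ∧ IsCoprime A B ∧ IsCoprime B H ∧ A.Monic ∧ Φ.Monic ∧ A ∣ Φ ^ e ∧
      e * Φ.natDegree ≤ A.natDegree + e * H.natDegree := by
  classical
  set m : k[X] → ℕ := fun q => (normalizedFactors g).count q with hm
  set D1 := (dfac g).filter fun q => q ∣ H with hD1
  set D2 := (dfac g).filter fun q => ¬ q ∣ H with hD2
  have hD1m : ∀ q ∈ D1, q.Monic := fun q hq => dfac_monic (Finset.mem_filter.mp hq).1
  have hD2m : ∀ q ∈ D2, q.Monic := fun q hq => dfac_monic (Finset.mem_filter.mp hq).1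
  have hgprod : g = ∏ q ∈ dfac g, q ^ m q := by
    have h1 := prod_normalizedFactors_eq hg.ne_zero
    rw [hg.normalize_eq_self] at h1
    conv_lhs => rw [← h1]
    rw [Finset.prod_multiset_count]
    rfl
  set A := ∏ q ∈ D1, q ^ m q with hA
  set B := ∏ q ∈ D2, q ^ m q with hB
  set Φ := ∏ q ∈ D1, q ^ ((m q + e - 1) / e) with hΦ
  have hgAB : g = A * B := by
    rw [hgprod, hA, hB, hD1, hD2, Finset.prod_filter_mul_prod_filter_not]
  have hAm : A.Monic := monic_prod_of_monic _ _ fun q hq => (hD1m q hq).pow _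
  have hΦm : Φ.Monic := monic_prod_of_monic _ _ fun q hq => (hD1m q hq).pow _
  have hAd : A.natDegree = ∑ q ∈ D1, m q * q.natDegree := by
    rw [hA, natDegree_prod_of_monic _ _ fun q hq => (hD1m q hq).pow _]
    exact Finset.sum_congr rfl fun q hq => (hD1m q hq).natDegree_pow _
  have hΦd : Φ.natDegree = ∑ q ∈ D1, ((m q + e - 1) / e) * q.natDegree := by
    rw [hΦ, natDegree_prod_of_monic _ _ fun q hq => (hD1m q hq).pow _]
    exact Finset.sum_congr rfl fun q hq => (hD1m q hq).natDegree_pow _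
  have hrad : ∑ q ∈ D1, q.natDegree ≤ H.natDegree := by
    rw [← natDegree_prod_of_monic _ _ fun q hq => hD1m q hq]
    refine natDegree_le_of_dvd ?_ hH
    refine Finset.prod_dvd_of_coprime ?_ fun q hq => (Finset.mem_filter.mp hq).2
    intro q hq r hr hne
    exact dfac_coprime (Finset.mem_filter.mp hq).1 (Finset.mem_filter.mp hr).1 hne
  refine ⟨A, B, Φ, hgAB, ?_, ?_, hAm, hΦm, ?_, ?_⟩
  · apply IsCoprime.prod_left
    intro q hq
    apply IsCoprime.prod_right
    intro r hr
    apply IsCoprime.pow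
    obtain ⟨hq1, hq2⟩ := Finset.mem_filter.mp hq
    obtain ⟨hr1, hr2⟩ := Finset.mem_filter.mp hr
    apply dfac_coprime hq1 hr1
    rintro rfl
    exact hr2 hq2
  · apply IsCoprime.prod_left
    intro q hq
    obtain ⟨hq1, hq2⟩ := Finset.mem_filter.mp hq
    exact ((dfac_irr hq1).coprime_iff_not_dvd.2 hq2).pow_left
  · rw [hA, hΦ, ← Finset.prod_pow]
    apply Finset.prod_dvd_prod_of_dvd
    intro q _
    rw [← pow_mul]
    exact pow_dvd_pow _ (ceil_ge he _)
  · rw [hΦd, hAd]
    calc e * ∑ q ∈ D1, ((m q + e - 1) / e) * q.natDegree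
        = ∑ q ∈ D1, (e * ((m q + e - 1) / e)) * q.natDegree := by
          rw [Finset.mul_sum]
          exact Finset.sum_congr rfl fun q _ => by ring
      _ ≤ ∑ q ∈ D1, (m q + e) * q.natDegree := by
          refine Finset.sum_le_sum fun q _ => Nat.mul_le_mul_right _ ?_
          have := ceil_le (e := e) (m q)
          omega
      _ = ∑ q ∈ D1, m q * q.natDegree + e * ∑ q ∈ D1, q.natDegree := by
          rw [Finset.mul_sum, ← Finset.sum_add_distrib]
          exact Finset.sum_congr rfl fun q _ => by ring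
      _ ≤ _ := Nat.add_le_add_left (Nat.mul_le_mul_left _ hrad) _

end alg

variable {p : ℕ} {V : ValuationSubring ℂ}

/-- the degree of the part is at least the number of the embeddings -/
theorem card_le_part (hp : p.Prime) (hV : Good p V) {ι : Type*} [Fintype ι] (f : ℤ[X]) (w : ι → V)
    (hf : f.map (Int.castRingHom ℂ) = ∏ i, (X - C (w i : ℂ))) (H : ℤ[X]) (A B : (ZMod p)[X])
    (hA0 : A ≠ 0)
    (hAB : f.map (Int.castRingHom (ZMod p)) = A * B)
    (hBH : IsCoprime B (H.map (Int.castRingHom (ZMod p))))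
    (G : Finset ι) (hG : ∀ i ∈ G, aeval (w i) H ∈ IsLocalRing.maximalIdeal V) :
    G.card ≤ A.natDegree := by
  classical
  have := charP_Rk hp hV
  have : Fact p.Prime := ⟨hp⟩
  set ψ := ZMod.castHom (dvd_refl p) (Rk V) with hψ
  have hfV : f.map (Int.castRingHom V) = ∏ i, (X - C (w i)) := by
    apply Polynomial.map_injective V.subtype V.subtype_injective
    rw [Polynomial.map_map, Polynomial.map_prod]
    have : V.subtype.comp (Int.castRingHom V) = Int.castRingHom ℂ := RingHom.ext_int _ _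
    rw [this, hf]
    refine Finset.prod_congr rfl fun i _ => ?_
    rw [Polynomial.map_sub, Polynomial.map_X, Polynomial.map_C]
    rfl
  have hfk : (A.map ψ) * (B.map ψ) = ∏ i, (X - C (IsLocalRing.residue V (w i))) := by
    rw [← Polynomial.map_mul, ← hAB, Polynomial.map_map]
    have h1 : ψ.comp (Int.castRingHom (ZMod p)) = (IsLocalRing.residue V).comp (Int.castRingHom V) :=
      RingHom.ext_int _ _
    rw [h1, ← Polynomial.map_map, hfV, Polynomial.map_prod]
    refine Finset.prod_congr rfl fun i _ => ?_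
    rw [Polynomial.map_sub, Polynomial.map_X, Polynomial.map_C]
  have hdvd : (∏ i ∈ G, (X - C (IsLocalRing.residue V (w i)))) ∣ A.map ψ := by
    have h1 : (∏ i ∈ G, (X - C (IsLocalRing.residue V (w i)))) ∣ A.map ψ * B.map ψ := by
      rw [hfk]
      exact Finset.prod_dvd_prod_of_subset _ _ _ (Finset.subset_univ _)
    refine IsCoprime.dvd_of_dvd_mul_right ?_ h1
    apply IsCoprime.prod_left
    intro i hi
    rw [(irreducible_X_sub_C _).coprime_iff_not_dvd, dvd_iff_isRoot]
    intro h
    have h2 : ((H.map (Int.castRingHom (ZMod p))).map ψ).eval (IsLocalRing.residue V (w i)) = 0 := by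
      rw [← residue_aeval hp hV]
      exact (IsLocalRing.residue_eq_zero_iff _).2 (hG i hi)
    obtain ⟨a, b, hab⟩ := hBH
    have h3 := congrArg (fun P => (P.map ψ).eval (IsLocalRing.residue V (w i))) hab
    simp only [Polynomial.map_add, Polynomial.map_mul, eval_add, eval_mul, Polynomial.map_one,
      eval_one] at h3
    rw [h2, show (B.map ψ).eval (IsLocalRing.residue V (w i)) = 0 from h] at h3
    simp at h3
  have h2 := natDegree_le_of_dvd hdvd (by
    rw [Ne, Polynomial.map_eq_zero]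
    exact hA0)
  rw [natDegree_prod _ _ fun i _ => X_sub_C_ne_zero _] at h2
  simp only [natDegree_X_sub_C, Finset.sum_const, smul_eq_mul, mul_one] at h2
  rwa [natDegree_map] at h2

/-- the real inequality -/
lemma final_real2 {p k E d t n R C B lM lp l2n lkn T0 S0 P : ℝ} (hp2 : 2 ≤ p) (hlp : 1 / 2 ≤ lp)
    (hn : 1 ≤ n) (hB : 1 ≤ B) (hdB : n ≤ B * d) (ht : 0 ≤ t) (hT0 : 0 ≤ T0)
    (htT : t ≤ T0 * n) (htl : t * l2n ≤ T0 * n) (hEt : E * t ≤ S0 * n)
    (hlk : 0 ≤ Real.log k)
    (hlkn : lkn ≤ Real.log k + l2n) (hk1 : 4 * B * T0 ≤ k)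
    (hk2 : 1 + T0 * (Real.log k + 1) ≤ k / (4 * B ^ 2)) (hP : 0 < P) (hlM : 0 ≤ lM) (hS0 : 0 < S0)
    (h : (p - 1) * (d * (k * d - 2 * t) * lp) ≤
      t * (n * ((p - 1) * lkn + 2 * (E * P) * lM))) :
    1 / (2 * S0 * P) ≤ lM := by
  have hB0 : 0 < B := by linarith
  have hd : n / B ≤ d := by rwa [div_le_iff₀ hB0, mul_comm]
  have hk0 : 0 ≤ k := le_trans (by positivity) hk1
  -- lower bound of the left side
  have h1 : k * n / (2 * B) ≤ k * d - 2 * t := by
    have e1 : k * (n / B) ≤ k * d := mul_le_mul_of_nonneg_left hd hk0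
    have e2 : 2 * t ≤ k * n / (2 * B) := by
      rw [le_div_iff₀ (by positivity)]
      have := mul_le_mul_of_nonneg_right hk1 (show 0 ≤ n by linarith)
      nlinarith
    have e3 : k * (n / B) = k * n / (2 * B) + k * n / (2 * B) := by
      field_simp
      ring
    linarith
  have h2 : n / B * (k * n / (2 * B)) ≤ d * (k * d - 2 * t) :=
    mul_le_mul hd h1 (by positivity) (le_trans (by positivity) hd)
  have h3 : n / B * (k * n / (2 * B)) * (1 / 2) ≤ d * (k * d - 2 * t) * lp :=
    mul_le_mul h2 hlp (by norm_num) (le_trans (by positivity) h2)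
  have h4 : n / B * (k * n / (2 * B)) * (1 / 2) = n ^ 2 * (k / (4 * B ^ 2)) := by
    field_simp
    ring
  rw [h4] at h3
  have h5 : n ^ 2 * (1 + T0 * (Real.log k + 1)) ≤ d * (k * d - 2 * t) * lp :=
    le_trans (mul_le_mul_of_nonneg_left hk2 (by positivity)) h3
  have h6 : (p - 1) * (n ^ 2 * (1 + T0 * (Real.log k + 1))) ≤
      t * (n * ((p - 1) * lkn + 2 * (E * P) * lM)) :=
    le_trans (mul_le_mul_of_nonneg_left h5 (by linarith)) h
  have h7 : t * (n * ((p - 1) * lkn + 2 * (E * P) * lM)) ≤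
      (p - 1) * (n ^ 2 * (T0 * (Real.log k + 1))) + 2 * (S0 * n) * n * (P * lM) := by
    have e1 : t * lkn ≤ T0 * n * (Real.log k + 1) := by
      have := mul_le_mul_of_nonneg_left hlkn ht
      have e2 : t * Real.log k ≤ T0 * n * Real.log k := mul_le_mul_of_nonneg_right htT hlk
      nlinarith
    have e3 : (p - 1) * (n * (t * lkn)) ≤ (p - 1) * (n * (T0 * n * (Real.log k + 1))) :=
      mul_le_mul_of_nonneg_left (mul_le_mul_of_nonneg_left e1 (by linarith)) (by linarith)
    have e4 : (E * t) * (n * (P * lM)) ≤ (S0 * n) * (n * (P * lM)) :=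
      mul_le_mul_of_nonneg_right hEt (by positivity)
    nlinarith
  have h8 : (p - 1) * n ^ 2 ≤ 2 * (S0 * n) * n * (P * lM) := by
    have := h6.trans h7
    nlinarith
  have h9 : n ^ 2 * 1 ≤ n ^ 2 * (lM * (2 * S0 * P)) := by
    have e1 : n ^ 2 * 1 ≤ (p - 1) * n ^ 2 := by nlinarith [sq_nonneg n]
    refine e1.trans (h8.trans (le_of_eq ?_))
    ring
  rw [div_le_iff₀ (by positivity)]
  exact le_of_mul_le_mul_left h9 (by positivity)

end Pool.Agent.Q262.RL
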