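import Mathlib
import Pool.Agent.Q262.RL.Part

/-!
# Few residues at a part of the embeddings: the bound
-/

set_option autoImplicit false
set_option linter.unusedSectionVars false
set_option linter.style.haveILetI false

open Polynomial Finset UniqueFactorizationMonoid

namespace Pool.Agent.Q262.RL

open Pool.Agent.TH53.HR

lemma exists_k {B T0 : ℝ} (hB : 1 ≤ B) (hT0 : 1 ≤ T0) : ∃ k : ℕ, 0 < k ∧ 4 * B * T0 ≤ (k : ℝ) ∧
    1 + T0 * (Real.log k + 1) ≤ (k : ℝ) / (4 * B ^ 2) := by
  set s : ℝ := 8 * B ^ 2 * T0 with hs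
  have hs0 : 0 < s := by positivity
  have hs1 : 1 ≤ s := by nlinarith [sq_nonneg (B - 1)]
  have hls : 0 ≤ Real.log s := Real.log_nonneg hs1
  refine ⟨⌈8 * B ^ 2 * (1 + T0 * Real.log s) + 4 * B * T0⌉₊, ?_, ?_, ?_⟩
  · refine Nat.ceil_pos.2 ?_
    positivity
  · have h1 := Nat.le_ceil (8 * B ^ 2 * (1 + T0 * Real.log s) + 4 * B * T0)
    have h2 : 0 ≤ 8 * B ^ 2 * (1 + T0 * Real.log s) := by positivity
    linarith
  · set k : ℕ := ⌈8 * B ^ 2 * (1 + T0 * Real.log s) + 4 * B * T0⌉₊ with hk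
    have h1 : 8 * B ^ 2 * (1 + T0 * Real.log s) + 4 * B * T0 ≤ (k : ℝ) := Nat.le_ceil _
    have h0 : 0 < 4 * B * T0 := by positivity
    have hk0 : (0 : ℝ) < k := by
      have h2 : 0 ≤ 8 * B ^ 2 * (1 + T0 * Real.log s) := by positivity
      linarith
    have h2 : Real.log k ≤ k / s - 1 + Real.log s := by
      have h3 := Real.log_le_sub_one_of_pos (show 0 < (k : ℝ) / s by positivity)
      rw [Real.log_div hk0.ne' hs0.ne'] at h3
      linarith
    have h3 : T0 * Real.log k ≤ k / (8 * B ^ 2) + T0 * (Real.log s - 1) := by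
      have h4 := mul_le_mul_of_nonneg_left h2 (show 0 ≤ T0 by linarith)
      have h5 : T0 * (k / s) = k / (8 * B ^ 2) := by
        rw [hs]
        field_simp
      nlinarith
    have h4 : 1 + T0 * Real.log s ≤ k / (8 * B ^ 2) := by
      rw [le_div_iff₀ (by positivity)]
      linarith
    have h5 : (k : ℝ) / (4 * B ^ 2) = k / (8 * B ^ 2) + k / (8 * B ^ 2) := by
      field_simp
      norm_num
    rw [h5]
    linarith

/-- **Few residues at a part of the embeddings.** -/
theorem hr_part {p : ℕ} (hp : p.Prime) (B C : ℝ) (hB : 1 ≤ B) (hC : 0 ≤ C) : ∃ μ : ℝ, 0 < μ ∧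
    ∀ (f : ℤ[X]), Irreducible f → f.Monic → 1 < (f.map (Int.castRingHom ℂ)).mahlerMeasure →
      NondegAt p f → ∀ (V : ValuationSubring ℂ), Good p V → ∀ (ι : Type) [Fintype ι] (w : ι → V),
      f.map (Int.castRingHom ℂ) = ∏ i, (X - Polynomial.C (w i : ℂ)) → ∀ (H : ℤ[X]),
      H.map (Int.castRingHom (ZMod p)) ≠ 0 → ∀ (G : Finset ι),
      (∀ i ∈ G, aeval (w i) H ∈ IsLocalRing.maximalIdeal V) →
      (f.natDegree : ℝ) ≤ B * G.card →
      (H.natDegree : ℝ) * Real.log (2 * f.natDegree) ≤ C * f.natDegree →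
      μ ≤ Real.log (f.map (Int.castRingHom ℂ)).mahlerMeasure := by
  haveI : Fact p.Prime := ⟨hp⟩
  have hp2 : (2 : ℝ) ≤ p := by exact_mod_cast hp.two_le
  have hl2 := Real.log_two_gt_d9
  set C' : ℝ := C + 2 with hC'
  set S0 : ℝ := 2 + 2 * C' with hS0
  set T0 : ℝ := S0 * C' with hT0
  have hC'2 : 2 ≤ C' := by linarith
  have hS02 : 2 ≤ S0 := by linarith
  have hT01 : 1 ≤ T0 := by nlinarith
  obtain ⟨k, hk0, hk1, hk2⟩ := exists_k hB hT01
  refine ⟨1 / (2 * S0 * (p : ℝ) ^ (k + 1)), by positivity, ?_⟩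
  intro f hf hm hM hnd V hV ι _ w hw H hH G hG hBG hR
  have hdeg : f.natDegree ≠ 0 := by
    intro h
    have := hm.natDegree_eq_zero.mp h
    exact hf.not_isUnit (this ▸ isUnit_one)
  set g := f.map (Int.castRingHom (ZMod p)) with hg
  have hgm : g.Monic := hm.map _
  have hgd : g.natDegree = f.natDegree := hm.natDegree_map _
  set n := f.natDegree with hn
  have hn1 : (1:ℝ) ≤ n := by exact_mod_cast Nat.one_le_iff_ne_zero.mpr hdeg
  set R := H.natDegree + 1 with hRdef
  have hR1 : (1 : ℝ) ≤ R := by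
    rw [hRdef]
    push_cast
    have : (0 : ℝ) ≤ (H.natDegree : ℝ) := Nat.cast_nonneg _
    linarith
  have hl2n1 : 1 / 2 ≤ Real.log (2 * n) := by
    have : Real.log 2 ≤ Real.log (2 * n) := Real.log_le_log two_pos (by linarith)
    linarith
  have hl2n2 : Real.log (2 * n) ≤ 2 * n := by
    have := Real.log_le_sub_one_of_pos (show (0:ℝ) < 2 * n by linarith)
    linarith
  have hRl : (R : ℝ) * Real.log (2 * n) ≤ C' * n := by
    rw [hRdef]
    push_cast
    rw [hC']
    linarith
  have hRn : (R : ℝ) ≤ 2 * C' * n := by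
    have : (R : ℝ) * (1 / 2) ≤ R * Real.log (2 * n) :=
      mul_le_mul_of_nonneg_left hl2n1 (by linarith)
    linarith
  set E := n / R + 1 with hE
  have hRpos : 0 < R := Nat.succ_pos _
  have hE1 : 1 ≤ E := Nat.le_add_left _ _
  have hER : E * R ≤ n + R := by
    rw [hE, add_mul, one_mul]
    exact Nat.add_le_add_right (Nat.div_mul_le_self n R) _
  have hnER : n ≤ E * R := by
    have := (Nat.lt_div_mul_add (a := n) (b := R) hRpos).le
    rw [hE, add_mul, one_mul]
    exact this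
  have hER' : (E : ℝ) * R ≤ n + R := by exact_mod_cast hER
  have hnER' : (n : ℝ) ≤ E * R := by exact_mod_cast hnER
  obtain ⟨A, B', Φ, hAB, hco, hBH, hAm, hΦm, hAΦ, het⟩ :=
    part_lemma g (H.map (Int.castRingHom (ZMod p))) hgm hH E hE1
  have hcard := card_le_part hp hV f w hw H A B' hAm.ne_zero hAB hBH G hG
  have hcard' : (G.card : ℝ) ≤ A.natDegree := by exact_mod_cast hcard
  have hdB : (n : ℝ) ≤ B * A.natDegree :=
    hBG.trans (mul_le_mul_of_nonneg_left hcard' (by linarith))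
  have hdn : A.natDegree ≤ n := by
    have := natDegree_le_of_dvd (Dvd.intro B' hAB.symm) hgm.ne_zero
    rwa [hgd] at this
  have hΦ0 : 0 < Φ.natDegree := by
    by_contra h
    have h3 : Φ.natDegree = 0 := by omega
    have h4 := hΦm.natDegree_eq_zero.mp h3
    rw [h4, one_pow] at hAΦ
    have h5 := natDegree_le_of_dvd hAΦ one_ne_zero
    rw [natDegree_one] at h5
    have h6 : A.natDegree = 0 := by omega
    rw [h6] at hdB
    push_cast at hdB
    linarith
  obtain ⟨F, hF1, hF2, hF3⟩ := lifts_and_natDegree_eq_and_monic (f := Int.castRingHom (ZMod p))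
    (by
      obtain ⟨P, hP⟩ := exists_lift p Φ
      exact ⟨P, hP⟩) hΦm
  have key := poly_ineq hp f hf hm hM hnd A B' hAB hco F hF3 (by rw [hF2]; exact hΦ0) E hE1
    (by rw [hF1]; exact hAΦ) k hk0
  rw [hF2] at key
  have hkr : (1 : ℝ) ≤ k := by exact_mod_cast hk0
  have hEt : (E : ℝ) * Φ.natDegree ≤ S0 * n := by
    have h1 : (E : ℝ) * Φ.natDegree ≤ A.natDegree + E * R := by
      have h2 : E * Φ.natDegree ≤ A.natDegree + E * R := by
        refine het.trans (Nat.add_le_add_left (Nat.mul_le_mul_left _ ?_) _)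
        exact (natDegree_map_le).trans (Nat.le_succ _)
      exact_mod_cast h2
    have h2 : (A.natDegree : ℝ) ≤ n := by exact_mod_cast hdn
    rw [hS0]
    linarith
  have ht0 : (0 : ℝ) ≤ Φ.natDegree := Nat.cast_nonneg _
  have hE1' : (1 : ℝ) ≤ E := by exact_mod_cast hE1
  have htR : (Φ.natDegree : ℝ) ≤ S0 * R := by
    have h1 : (Φ.natDegree : ℝ) * n ≤ (S0 * R) * n := by
      calc (Φ.natDegree : ℝ) * n ≤ Φ.natDegree * (E * R) := mul_le_mul_of_nonneg_left hnER' ht0
        _ = (E * Φ.natDegree) * R := by ring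
        _ ≤ (S0 * n) * R := mul_le_mul_of_nonneg_right hEt (by linarith)
        _ = (S0 * R) * n := by ring
    exact le_of_mul_le_mul_right h1 (by linarith)
  have htn : (Φ.natDegree : ℝ) ≤ S0 * n := by nlinarith
  refine final_real2 (p := p) (k := k) (E := E) (d := A.natDegree) (t := Φ.natDegree) (n := n)
    (R := R) (C := C) (B := B) (lp := Real.log p) (l2n := Real.log (2 * n))
    (lkn := Real.log (k * n)) (T0 := T0) (S0 := S0) hp2 ?_ hn1 hB hdB ht0 (by linarith) ?_ ?_ hEt
    (Real.log_nonneg hkr) ?_ hk1 hk2 (by positivity) (Real.log_pos hM).le (by linarith) key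
  · have : Real.log 2 ≤ Real.log p := Real.log_le_log two_pos hp2
    linarith
  · rw [hT0]
    nlinarith
  · calc (Φ.natDegree : ℝ) * Real.log (2 * n) ≤ (S0 * R) * Real.log (2 * n) :=
          mul_le_mul_of_nonneg_right htR (by linarith)
      _ = S0 * (R * Real.log (2 * n)) := by ring
      _ ≤ S0 * (C' * n) := mul_le_mul_of_nonneg_left hRl (by linarith)
      _ = T0 * n := by rw [hT0]; ring
  · rw [Real.log_mul (by positivity) (by positivity)]
    have : Real.log n ≤ Real.log (2 * n) := Real.log_le_log (by linarith) (by linarith)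
    linarith

end Pool.Agent.Q262.RL
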