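import Mathlib
import Pool.Agent.Q262.RL.Cnt
import Pool.Agent.Q262.RL.Part2
import Pool.Agent.Q262.RL.Key

/-!
# Few residues at a part of the embeddings: number fields
-/

set_option autoImplicit false
set_option linter.unusedSectionVars false
set_option linter.style.haveILetI false

open Finset NumberField Module Polynomial IntermediateField

namespace Pool.Agent.Q262.RL

open Pool.Agent.TH53.HR (Good exists_val span_maximal span_ne_bot NondegAt CInj_of_adjoin)
open Pool.Agent.H388SL Pool.Agent.H389R3.LR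
open Pool.Agent.Q262.AB (fib mem_fib card_fib)

variable {p : ℕ} {V : ValuationSubring ℂ}

/-- an integer polynomial of small degree with values in an ideal -/
theorem exists_poly {F L : Type} [Field F] [NumberField F] [Field L] [NumberField L] [Algebra F L]
    (hp : p.Prime) (T : Finset (Ideal (𝓞 F))) (hT : T ⊆ All p F) (β : 𝓞 L) :
    ∃ H : ℤ[X], H.map (Int.castRingHom (ZMod p)) ≠ 0 ∧
      H.natDegree ≤ (∑ P ∈ T, P.inertiaDeg ℤ) * finrank F L ∧
      aeval β H ∈ (∏ P ∈ T, P).map (algebraMap (𝓞 F) (𝓞 L)) := by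
  classical
  haveI : Fact p.Prime := ⟨hp⟩
  set I := (∏ P ∈ T, P).map (algebraMap (𝓞 F) (𝓞 L)) with hI
  set h := (∑ P ∈ T, P.inertiaDeg ℤ) * finrank F L with hh
  have hfr : finrank (𝓞 F) (𝓞 L) = finrank F L := by
    exact (IsFractionRing.finrank_eq (𝓞 F) F (𝓞 L) L).symm
  have hcard : Nat.card (𝓞 L ⧸ I) = p ^ h := by
    have h1 : Nat.card (𝓞 L ⧸ I) = Ideal.absNorm I := by
      rw [Ideal.absNorm_apply, Submodule.cardQuot_apply]
    rw [h1, hI, Ideal.absNorm_algebraMap, hfr, map_prod, hh, pow_mul, ← Finset.prod_pow_eq_pow_sum]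
    congr 1
    refine Finset.prod_congr rfl fun P hP => ?_
    have hPo := (mem_All hp).1 (hT hP)
    haveI := hPo.1
    haveI := hPo.2
    exact (Ideal.pow_inertiaDeg p P).symm
  haveI : Finite (𝓞 L ⧸ I) := Nat.finite_of_card_ne_zero (by
    rw [hcard]
    exact pow_ne_zero _ hp.ne_zero)
  letI : Fintype (𝓞 L ⧸ I) := Fintype.ofFinite _
  let φ : (Fin (h + 1) → ZMod p) → 𝓞 L ⧸ I := fun a =>
    Ideal.Quotient.mk I (∑ i, ((a i).val : 𝓞 L) * β ^ (i : ℕ))
  obtain ⟨a, b, hab, hφ⟩ := Fintype.exists_ne_map_eq_of_card_lt φ (by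
    rw [← Nat.card_eq_fintype_card, hcard, Fintype.card_fun, ZMod.card, Fintype.card_fin]
    exact Nat.pow_lt_pow_right hp.one_lt (Nat.lt_succ_self h))
  set H : ℤ[X] := ∑ i : Fin (h + 1), C (((a i).val : ℤ) - ((b i).val : ℤ)) * X ^ (i : ℕ) with hH
  refine ⟨H, ?_, ?_, ?_⟩
  · intro h0
    apply hab
    funext i
    have h1 := congrArg (fun u => Polynomial.coeff u (i : ℕ)) h0
    simp only [hH, Polynomial.coeff_map, Polynomial.finsetSum_coeff, Polynomial.coeff_C_mul,
      Polynomial.coeff_X_pow, Polynomial.coeff_zero] at h1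
    rw [Finset.sum_eq_single i] at h1
    · simp only [if_true, mul_one, eq_intCast] at h1
      push_cast at h1
      rw [ZMod.natCast_zmod_val, ZMod.natCast_zmod_val] at h1
      exact sub_eq_zero.1 h1
    · intro j _ hj
      rw [if_neg (fun hc => hj (Fin.ext hc.symm)), mul_zero]
    · intro hc
      exact absurd (Finset.mem_univ i) hc
  · refine Polynomial.natDegree_sum_le_of_forall_le _ _ fun i _ => ?_
    refine (Polynomial.natDegree_C_mul_X_pow_le _ _).trans ?_
    exact Nat.lt_succ_iff.1 i.2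
  · rw [← Ideal.Quotient.eq_zero_iff_mem]
    have h1 : aeval β H = ∑ i : Fin (h + 1), ((a i).val : 𝓞 L) * β ^ (i : ℕ) -
        ∑ i : Fin (h + 1), ((b i).val : 𝓞 L) * β ^ (i : ℕ) := by
      rw [hH, map_sum, ← Finset.sum_sub_distrib]
      refine Finset.sum_congr rfl fun i _ => ?_
      simp only [map_mul, map_pow, aeval_C, aeval_X]
      rw [← sub_mul]
      congr 1
      simp
    rw [h1, map_sub]
    exact sub_eq_zero.2 hφ

/-- the restriction of an embedding -/
noncomputable def res (F : Type) {L : Type} [Field F] [NumberField F] [Field L] [NumberField L]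
    [Algebra F L] (σ : L →ₐ[ℚ] ℂ) : F →ₐ[ℚ] ℂ := σ.comp (IsScalarTower.toAlgHom ℚ F L)

lemma res_apply {F L : Type} [Field F] [NumberField F] [Field L] [NumberField L]
    [Algebra F L] (σ : L →ₐ[ℚ] ℂ) (x : F) : res F σ x = σ (algebraMap F L x) := rfl

/-- elements of the extended ideal have small values at the embeddings above `T` -/
theorem val_lt_of_mem {F L : Type} [Field F] [NumberField F] [Field L] [NumberField L] [Algebra F L]
    (hV : Good p V) (T : Finset (Ideal (𝓞 F))) (σ : L →ₐ[ℚ] ℂ)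
    (hσ : pr hV (res F σ) ∈ T) {x : 𝓞 L}
    (hx : x ∈ (∏ P ∈ T, P).map (algebraMap (𝓞 F) (𝓞 L))) : V.valuation (σ x) < 1 := by
  have h1 : (∏ P ∈ T, P).map (algebraMap (𝓞 F) (𝓞 L)) ≤ pr hV σ := by
    rw [Ideal.map_le_iff_le_comap]
    refine le_trans ((pr_prime hV (res F σ)).prod_le.2 ⟨_, hσ, le_rfl⟩) ?_
    intro y hy
    rw [Ideal.mem_comap, mem_pr]
    rw [mem_pr] at hy
    exact hy
  exact h1 hx

/-- **Few residues at a part of the embeddings, for number fields.** -/
theorem number_field_part (hp : p.Prime) (B c : ℝ) (hB : 1 ≤ B) (hc0 : 0 ≤ c) :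
    ∃ μ : ℝ, 0 < μ ∧ ∀ (K : Type) [Field K] [NumberField K] (a : 𝓞 K),
      (∀ s : ℕ, IntermediateField.adjoin ℚ {(a : K) ^ p ^ s} = ⊤) →
      a ≠ 0 → (∀ m : ℕ, 0 < m → a ^ m ≠ 1) → ∀ (V : ValuationSubring ℂ), Good p V →
      ∀ (H : ℤ[X]), H.map (Int.castRingHom (ZMod p)) ≠ 0 → ∀ (G : Finset (K →ₐ[ℚ] ℂ)),
      (∀ τ ∈ G, V.valuation (aeval (τ (a : K)) H) < 1) →
      (finrank ℚ K : ℝ) ≤ B * G.card →
      (H.natDegree : ℝ) * Real.log (2 * finrank ℚ K) ≤ c * finrank ℚ K →
      μ ≤ Real.log ((minpoly ℤ (a : K)).map (Int.castRingHom ℂ)).mahlerMeasure := by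
  obtain ⟨μ, hμ, hpart⟩ := hr_part hp B c hB hc0
  refine ⟨μ, hμ, ?_⟩
  intro K _ _ a hgen h0 hroot V hV H hH G hG hBG hR
  classical
  have hα : IsIntegral ℤ (a : K) := a.isIntegral_coe
  have hc : CInj (a : K) := by
    have := CInj_of_adjoin (hgen 0)
    simpa using this
  set f := minpoly ℤ (a : K) with hf
  have hfm : f.Monic := minpoly.monic hα
  have hfi : Irreducible f := minpoly.irreducible hα
  have hpmap : f.map (Int.castRingHom ℂ) = ∏ τ : K →ₐ[ℚ] ℂ, (X - C (τ (a : K))) := by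
    rw [← minpoly_map_eq hc, minpoly.isIntegrallyClosed_eq_field_fractions' ℚ hα,
      Polynomial.map_map]
    rfl
  have hdeg : f.natDegree = finrank ℚ K := by
    have h1 : (f.map (Int.castRingHom ℂ)).natDegree = f.natDegree := hfm.natDegree_map _
    rw [← h1, hpmap, natDegree_prod_of_monic _ _ fun τ _ => monic_X_sub_C _]
    simp only [natDegree_X_sub_C, Finset.sum_const, smul_eq_mul, mul_one]
    rw [Finset.card_univ, AlgHom.card]
  have h0' : (a : K) ≠ 0 := by
    intro h
    exact h0 (RingOfIntegers.ext (by rw [h]; simp))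
  have hroot' : ∀ m : ℕ, 0 < m → (a : K) ^ m ≠ 1 := by
    intro m hm h
    apply hroot m hm
    apply RingOfIntegers.ext
    simpa using h
  have hlam := lam_pos hα h0' hroot'
  have hMM : (f.map (Int.castRingHom ℂ)).mahlerMeasure = ∏ τ : K →ₐ[ℚ] ℂ, max 1 ‖τ (a : K)‖ := by
    rw [hpmap, Finset.prod_eq_multiset_prod, prod_mahlerMeasure_eq_mahlerMeasure_prod,
      Multiset.map_map, Finset.prod_eq_multiset_prod]
    congr 1
    refine Multiset.map_congr rfl fun τ _ => ?_
    rw [Function.comp_apply, mahlerMeasure_X_sub_C]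
  have hMlog : Real.log (f.map (Int.castRingHom ℂ)).mahlerMeasure = lam (a : K) := by
    rw [hMM, Real.log_prod]
    · rfl
    · intro τ _
      have : (0:ℝ) < max 1 ‖τ (a : K)‖ := lt_of_lt_of_le one_pos (le_max_left _ _)
      exact this.ne'
  have hM0 : 0 < (f.map (Int.castRingHom ℂ)).mahlerMeasure := by
    rw [hMM]
    exact Finset.prod_pos fun τ _ => lt_of_lt_of_le one_pos (le_max_left _ _)
  have hM : 1 < (f.map (Int.castRingHom ℂ)).mahlerMeasure := by
    rw [← Real.log_pos_iff hM0.le, hMlog]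
    exact hlam
  have hnd : NondegAt p f := by
    have hz : ∀ z : ℂ, aeval z f = 0 → ∃ σ : K →ₐ[ℚ] ℂ, σ (a : K) = z := by
      intro z hz
      rw [Polynomial.aeval_def, ← Polynomial.eval_map] at hz
      change (f.map (Int.castRingHom ℂ)).eval z = 0 at hz
      rw [hpmap, eval_prod] at hz
      obtain ⟨σ, -, hσ⟩ := Finset.prod_eq_zero_iff.mp hz
      refine ⟨σ, ?_⟩
      simp only [eval_sub, eval_X, eval_C] at hσ
      exact (sub_eq_zero.mp hσ).symm
    intro z w hzf hwf s hs
    obtain ⟨σ, rfl⟩ := hz z hzf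
    obtain ⟨τ, rfl⟩ := hz w hwf
    have h1 := CInj_of_adjoin (hgen s)
    have h2 : σ = τ := h1 (by simpa using hs)
    rw [h2]
  refine hpart f hfi hfm hM hnd V hV (K →ₐ[ℚ] ℂ)
    (fun τ => ⟨τ (a : K), hV.int _ (hα.map (τ.restrictScalars ℤ))⟩) hpmap H hH G ?_
    (by rw [hdeg]; exact hBG) (by rw [hdeg]; exact hR)
  intro τ hτ
  rw [ValuationSubring.valuation_lt_one_iff, Pool.Agent.TH53.HR.coe_aeval]
  exact hG τ hτ

open Classical in
/-- **The count.** -/
theorem count_part {F L M : Type} [Field F] [NumberField F] [Field L] [NumberField L] [Algebra F L]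
    [Field M] [NumberField M] [Algebra M L] (hp : p.Prime) (hV : Good p V)
    (T : Finset (Ideal (𝓞 F))) (hT : T ⊆ All p F) (B : ℕ)
    (hB : finrank ℚ F ≤ B * ∑ P ∈ T, P.ramificationIdx ℤ * P.inertiaDeg ℤ)
    (G : Finset (M →ₐ[ℚ] ℂ)) (hG : ∀ σ : L →ₐ[ℚ] ℂ, pr hV (res F σ) ∈ T → res M σ ∈ G) :
    (finrank ℚ M : ℝ) ≤ B * G.card := by
  haveI : FiniteDimensional F L := FiniteDimensional.right ℚ F L
  haveI : FiniteDimensional M L := FiniteDimensional.right ℚ M L
  have htow : finrank ℚ M * finrank M L = finrank ℚ F * finrank F L := by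
    rw [Module.finrank_mul_finrank ℚ M L, Module.finrank_mul_finrank ℚ F L]
  have hrpos : 0 < finrank M L := finrank_pos
  rw [count_emb hp hV T hT] at hB
  have h1 : ∑ σ : L →ₐ[ℚ] ℂ, (if pr hV (res F σ) ∈ T then (1 : ℝ) else 0) =
      (univ.filter fun v : F →ₐ[ℚ] ℂ => pr hV v ∈ T).card * finrank F L := by
    rw [sum_fibers (F := F) (L := L)
      (fun σ : L →ₐ[ℚ] ℂ => (if pr hV (res F σ) ∈ T then (1 : ℝ) else 0))]
    have e1 : ∀ v : F →ₐ[ℚ] ℂ, ∑ τ ∈ fib (L := L) v,
        (if pr hV (res F τ) ∈ T then (1 : ℝ) else 0) =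
        if pr hV v ∈ T then (finrank F L : ℝ) else 0 := by
      intro v
      have e2 : ∀ τ ∈ fib (L := L) v, (if pr hV (res F τ) ∈ T then (1 : ℝ) else 0) =
          if pr hV v ∈ T then (1 : ℝ) else 0 := by
        intro τ hτ
        have : res F τ = v := by
          ext x
          rw [res_apply]
          exact mem_fib.1 hτ x
        rw [this]
      rw [sum_congr rfl e2, sum_const, card_fib, nsmul_eq_mul]
      split_ifs <;> simp
    rw [sum_congr rfl fun v _ => e1 v, ← Finset.sum_filter, sum_const, nsmul_eq_mul]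
  have h2 : ∑ σ : L →ₐ[ℚ] ℂ, (if res M σ ∈ G then (1 : ℝ) else 0) =
      G.card * finrank M L := by
    rw [sum_fibers (F := M) (L := L)
      (fun σ : L →ₐ[ℚ] ℂ => (if res M σ ∈ G then (1 : ℝ) else 0))]
    have e1 : ∀ v : M →ₐ[ℚ] ℂ, ∑ τ ∈ fib (L := L) v,
        (if res M τ ∈ G then (1 : ℝ) else 0) =
        if v ∈ G then (finrank M L : ℝ) else 0 := by
      intro v
      have e2 : ∀ τ ∈ fib (L := L) v, (if res M τ ∈ G then (1 : ℝ) else 0) =
          if v ∈ G then (1 : ℝ) else 0 := by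
        intro τ hτ
        have : res M τ = v := by
          ext x
          rw [res_apply]
          exact mem_fib.1 hτ x
        rw [this]
      rw [sum_congr rfl e2, sum_const, card_fib, nsmul_eq_mul]
      split_ifs <;> simp
    rw [sum_congr rfl fun v _ => e1 v, ← Finset.sum_filter, sum_const, nsmul_eq_mul]
    congr 2
    rw [Finset.filter_mem_eq_inter, Finset.univ_inter]
  have h3 : ∑ σ : L →ₐ[ℚ] ℂ, (if pr hV (res F σ) ∈ T then (1 : ℝ) else 0) ≤
      ∑ σ : L →ₐ[ℚ] ℂ, (if res M σ ∈ G then (1 : ℝ) else 0) := by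
    refine Finset.sum_le_sum fun σ _ => ?_
    split_ifs with c1 c2 c2
    · exact le_rfl
    · exact absurd (hG σ c1) c2
    · exact zero_le_one
    · exact le_rfl
  rw [h1, h2] at h3
  have hr' : (0 : ℝ) < finrank M L := by exact_mod_cast hrpos
  have htow' : (finrank ℚ M : ℝ) * finrank M L = finrank ℚ F * finrank F L := by
    exact_mod_cast htow
  have hB' : (finrank ℚ F : ℝ) ≤ B * (univ.filter fun v : F →ₐ[ℚ] ℂ => pr hV v ∈ T).card := by
    exact_mod_cast hB
  have h4 : (finrank ℚ M : ℝ) * finrank M L ≤ (B * G.card) * finrank M L := by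
    rw [htow']
    calc (finrank ℚ F : ℝ) * finrank F L
        ≤ (B * (univ.filter fun v : F →ₐ[ℚ] ℂ => pr hV v ∈ T).card) * finrank F L :=
          mul_le_mul_of_nonneg_right hB' (Nat.cast_nonneg _)
      _ = B * ((univ.filter fun v : F →ₐ[ℚ] ℂ => pr hV v ∈ T).card * finrank F L) := by ring
      _ ≤ B * (G.card * finrank M L) := mul_le_mul_of_nonneg_left h3 (Nat.cast_nonneg _)
      _ = _ := by ring
  exact le_of_mul_le_mul_right h4 hr'

end Pool.Agent.Q262.RL
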