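import Mathlib
import Pool.Agent.Q262.RL.Key3
import Pool.Agent.Q262.RL.Pf

/-!
# Lehmer's problem and subfields with a Frobenius automorphism at a part of the embeddings
-/

set_option autoImplicit false
set_option linter.unusedSectionVars false
set_option linter.style.haveILetI false

open Finset NumberField Module IntermediateField Polynomial

namespace Pool.Agent.Q262.RL

open Pool.Agent.TH53.HR (Good exists_val span_maximal span_ne_bot)
open Pool.Agent.Q191.MV (FrobeniusAt loss lower_at)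
open Pool.Agent.Y399.MG (log_mahler)
open Pool.Agent.H388SL (lam lam_nonneg)

/-- `F` has an automorphism `τ` and a set `T` of prime ideals above `p` with `x ^ q ≡ τ x` modulo
each of them, such that the sum of their local degrees is at least `[F : ℚ] / B`. -/
def FrobMass (p q B : ℕ) (F : Type) [Field F] [NumberField F] : Prop :=
  ∃ (τ : F ≃+* F) (T : Finset (Ideal (𝓞 F))),
    (∀ P ∈ T, P ∈ (Ideal.span {(p : ℤ)}).primesOver (𝓞 F) ∧
      ∀ x : 𝓞 F, x ^ q - RingOfIntegers.mapRingHom (τ : F →+* F) x ∈ P) ∧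
    finrank ℚ F ≤ B * ∑ P ∈ T, P.ramificationIdx ℤ * P.inertiaDeg ℤ

theorem frobAt_of {F : Type} [Field F] [NumberField F] {p : ℕ} (hp : p.Prime) {l : ℕ}
    (hl : 0 < l) {τ : F ≃+* F} {T : Finset (Ideal (𝓞 F))}
    (hT : ∀ P ∈ T, P ∈ (Ideal.span {(p : ℤ)}).primesOver (𝓞 F) ∧
      ∀ x : 𝓞 F, x ^ p ^ l - RingOfIntegers.mapRingHom (τ : F →+* F) x ∈ P) {B1 : ℕ}
    (hB : finrank ℚ F ≤ (∑ P ∈ T, P.inertiaDeg ℤ) * B1) : FrobeniusAt F (p ^ l) B1 := by
  refine ⟨p, l, τ, T, hp, hl, rfl, ?_, ?_⟩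
  · intro P hP
    obtain ⟨⟨hPp, hPo⟩, hx⟩ := hT P hP
    have hpP : (p : 𝓞 F) ∈ P := by
      have h1 : (p : ℤ) ∈ Ideal.span {(p : ℤ)} := Ideal.mem_span_singleton_self _
      rw [hPo.over] at h1
      have h2 : algebraMap ℤ (𝓞 F) (p : ℤ) ∈ P := h1
      simpa using h2
    exact ⟨hPp, hpP, hx⟩
  · have h1 : ∏ P ∈ T, Ideal.absNorm P = p ^ ∑ P ∈ T, P.inertiaDeg ℤ := by
      rw [← Finset.prod_pow_eq_pow_sum]
      refine Finset.prod_congr rfl fun P hP => ?_
      haveI := (hT P hP).1.1
      haveI := (hT P hP).1.2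
      exact (Ideal.pow_inertiaDeg p P).symm
    rw [h1, ← pow_mul]
    exact Nat.pow_le_pow_right hp.pos hB

/-- **The lower bound.** -/
theorem key4 {p : ℕ} (hp : p.Prime) {e : ℕ} (he : 0 < e) (B0 κ N0 N1 : ℕ) : ∃ μ : ℝ, 0 < μ ∧
    ∀ (F L M : Type) [Field F] [NumberField F] [Field L] [NumberField L] [Algebra F L]
      [Field M] [NumberField M] [Algebra M L] (β : 𝓞 M), FrobMass p (p ^ e) B0 F →
      finrank F L ≤ N1 * finrank ℚ F ^ κ → finrank M L ≤ N0 → β ≠ 0 →
      (∀ m : ℕ, 0 < m → β ^ m ≠ 1) → (∀ i : ℕ, ℚ⟮(β : M) ^ p ^ i⟯ = ⊤) →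
      μ ≤ Real.log ((minpoly ℤ (β : M)).map (Int.castRingHom ℂ)).mahlerMeasure := by
  haveI : Fact p.Prime := ⟨hp⟩
  set q : ℕ := p ^ e with hq
  have hq2 : 2 ≤ q := by
    have h1 : p ^ 1 ≤ p ^ e := Nat.pow_le_pow_right hp.pos he
    have h2 := hp.two_le
    rw [pow_one] at h1
    omega
  have hq2' : (2 : ℝ) ≤ q := by exact_mod_cast hq2
  set Q : ℝ := Real.log q with hQ
  have hQ0 : 0 < Q := Real.log_pos (by linarith)
  set k1 : ℝ := κ + 1 with hk1
  have hk1' : 1 ≤ k1 := by
    have : (0 : ℝ) ≤ κ := Nat.cast_nonneg κ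
    linarith
  set δ : ℝ := 1 / (12 * Q * k1 + 1) with hδ
  have hden : 0 < 12 * Q * k1 + 1 := by positivity
  have hδ0 : 0 < δ := by positivity
  have hδ1 : δ ≤ 1 := by
    rw [hδ, div_le_one hden]
    have : 0 ≤ 12 * Q * k1 := by positivity
    linarith
  have hδ2 : 12 * Q * k1 * δ ≤ 1 := by
    rw [hδ, mul_one_div, div_le_one hden]
    linarith
  set A1 : ℝ := Real.log (2 * N1) with hA1
  set c : ℝ := N0 * (k1 / δ + |A1|) + 1 with hc
  have hc0 : 0 < c := by positivity
  set a : ℝ := 6 + |Real.log N1| with ha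
  set C : ℝ := 1 + 3 * Q * (3 * a + 2 * k1) with hC
  obtain ⟨μ1, hμ1, hpart⟩ := number_field_part hp (max 1 (B0 : ℝ)) c (le_max_left _ _) hc0.le
  refine ⟨min μ1 (1 / (4 * (q : ℝ) ^ 3 * Real.exp C * (N0 + 1))), lt_min hμ1 (by positivity), ?_⟩
  intro F L M _ _ _ _ _ _ _ _ β hF hD hM hβ0 hβr hgen
  classical
  obtain ⟨τ, T, hT, hmass⟩ := hF
  have hTA : T ⊆ All p F := fun P hP => (mem_All hp).2 (hT P hP).1
  haveI : FiniteDimensional F L := FiniteDimensional.right ℚ F L
  haveI : FiniteDimensional M L := FiniteDimensional.right ℚ M L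
  have hDpos : 0 < finrank F L := finrank_pos
  have hMpos : 0 < finrank M L := finrank_pos
  have hmpos : 0 < finrank ℚ M := finrank_pos
  have hNpos : 0 < finrank ℚ F := finrank_pos
  have htow : finrank ℚ M * finrank M L = finrank ℚ F * finrank F L := by
    rw [Module.finrank_mul_finrank ℚ M L, Module.finrank_mul_finrank ℚ F L]
  set N := finrank ℚ F with hN
  set D := finrank F L with hDdef
  set m := finrank ℚ M with hm
  set r := finrank M L with hr
  set g := ∑ P ∈ T, P.inertiaDeg ℤ with hg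
  have hgpos : 0 < g := by
    by_contra h0
    have h1 : g = 0 := by omega
    rw [hg, Finset.sum_eq_zero_iff] at h1
    have h2 : ∑ P ∈ T, P.ramificationIdx ℤ * P.inertiaDeg ℤ = 0 :=
      Finset.sum_eq_zero fun P hP => by rw [h1 P hP, mul_zero]
    rw [h2, mul_zero] at hmass
    omega
  have hN1pos : 0 < N1 := by
    by_contra h
    rw [show N1 = 0 by omega, zero_mul] at hD
    omega
  have hN0pos : 0 < N0 := by omega
  have hN' : (1 : ℝ) ≤ N := by exact_mod_cast hNpos
  have hD' : (1 : ℝ) ≤ D := by exact_mod_cast hDpos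
  have hm' : (1 : ℝ) ≤ m := by exact_mod_cast hmpos
  have hr' : (1 : ℝ) ≤ r := by exact_mod_cast hMpos
  have hN1' : (1 : ℝ) ≤ N1 := by exact_mod_cast hN1pos
  have hN0' : (1 : ℝ) ≤ N0 := by exact_mod_cast hN0pos
  have hg' : (1 : ℝ) ≤ g := by exact_mod_cast hgpos
  have hrN0 : (r : ℝ) ≤ N0 := by exact_mod_cast hM
  have htow' : (m : ℝ) * r = N * D := by exact_mod_cast htow
  set l : ℝ := Real.log N with hl
  have hl0 : 0 ≤ l := Real.log_nonneg hN'
  have hlogD : Real.log D ≤ Real.log N1 + κ * l := by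
    have h1 : (D : ℝ) ≤ N1 * (N : ℝ) ^ κ := by exact_mod_cast hD
    have h2 := Real.log_le_log (by linarith) h1
    rwa [Real.log_mul (by positivity) (by positivity), Real.log_pow] at h2
  set W : ℝ := Real.log (2 * (N * D)) with hW
  have hWle : W ≤ A1 + k1 * l := by
    rw [hW, hA1, Real.log_mul (by norm_num) (by positivity), Real.log_mul (by positivity)
      (by positivity), Real.log_mul (by norm_num) (by positivity), ← hl, hk1]
    linarith
  have hW0 : 0 < W := Real.log_pos (by nlinarith)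
  rcases le_or_gt (g * N0 * W) (c * N) with hcase | hcase
  · -- few residue classes
    refine (min_le_left _ _).trans ?_
    obtain ⟨V, hV⟩ := exists_val p hp
    set β' : 𝓞 L := algebraMap (𝓞 M) (𝓞 L) β with hβ'
    obtain ⟨H, hH0, hHd, hHm⟩ := exists_poly (L := L) hp T hTA β'
    set G : Finset (M →ₐ[ℚ] ℂ) :=
      Finset.univ.filter fun ρ => V.valuation (aeval (ρ (β : M)) H) < 1 with hG
    have hcount := count_part (L := L) (M := M) hp hV T hTA B0 hmass G (fun σ hσ => by
      rw [hG, Finset.mem_filter]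
      refine ⟨Finset.mem_univ _, ?_⟩
      have h1 := val_lt_of_mem (L := L) hV T σ hσ hHm
      have h2 : σ ((aeval β' H : 𝓞 L) : L) = aeval (res M σ (β : M)) H := by
        have e1 : ((aeval β' H : 𝓞 L) : L) = aeval (β' : L) H :=
          (Polynomial.aeval_algebraMap_apply L β' H).symm
        rw [e1]
        have e2 : (σ.restrictScalars ℤ) (aeval (β' : L) H) =
            aeval ((σ.restrictScalars ℤ) (β' : L)) H :=
          (Polynomial.aeval_algHom_apply (σ.restrictScalars ℤ) (β' : L) H).symm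
        exact e2
      rwa [h2] at h1)
    refine hpart M β hgen hβ0 hβr V hV H hH0 G (fun ρ hρ => (Finset.mem_filter.1 hρ).2)
      (hcount.trans (mul_le_mul_of_nonneg_right (le_max_right _ _) (Nat.cast_nonneg _))) ?_
    have hmW : Real.log (2 * m) ≤ W := by
      refine Real.log_le_log (by linarith) ?_
      nlinarith
    have hHd' : (H.natDegree : ℝ) ≤ g * D := by exact_mod_cast hHd
    have h3 : (H.natDegree : ℝ) * Real.log (2 * m) ≤ g * D * W :=
      mul_le_mul hHd' hmW (Real.log_nonneg (by linarith)) (by positivity)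
    have h4 : N0 * (g * D * W) ≤ N0 * (c * m) := by
      calc (N0 : ℝ) * (g * D * W) = D * (g * N0 * W) := by ring
        _ ≤ D * (c * N) := mul_le_mul_of_nonneg_left hcase (by linarith)
        _ = c * (m * r) := by rw [htow']; ring
        _ ≤ c * (m * N0) := by gcongr
        _ = N0 * (c * m) := by ring
    exact h3.trans (le_of_mul_le_mul_left h4 (by linarith))
  · -- many residue classes
    refine (min_le_right _ _).trans ?_
    obtain ⟨B, hB1, hB2⟩ : ∃ B : ℕ, N ≤ g * B ∧ (B : ℝ) ≤ N / g + 1 := by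
      refine ⟨⌈(N : ℝ) / g⌉₊, ?_, ?_⟩
      · have h1 := Nat.le_ceil ((N : ℝ) / g)
        rw [div_le_iff₀ (by linarith)] at h1
        have h2 : (N : ℝ) ≤ g * ⌈(N : ℝ) / g⌉₊ := by linarith
        exact_mod_cast h2
      · exact (Nat.ceil_lt_add_one (by positivity)).le
    have hFr : FrobeniusAt F q B := frobAt_of hp he hT hB1
    have hBpos := hFr.pos
    have hB1' : (1 : ℝ) ≤ B := by exact_mod_cast hBpos
    have hBδ : (B : ℝ) ≤ δ * l + 2 := by
      have h1 : (N : ℝ) / g ≤ N0 * W / c := by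
        rw [div_le_div_iff₀ (by linarith) hc0]
        linarith
      have h2 : N0 * W / c ≤ δ * l + 1 := by
        rw [div_le_iff₀ hc0]
        have e1 : (N0 : ℝ) * W ≤ N0 * (|A1| + k1 * l) := by
          refine mul_le_mul_of_nonneg_left ?_ (by linarith)
          linarith [le_abs_self A1]
        have e2 : (δ * l + 1) * c = (δ * l + 1) * (N0 * (k1 / δ + |A1|) + 1) := by rw [hc]
        have e3 : (N0 : ℝ) * (|A1| + k1 * l) ≤ (δ * l + 1) * (N0 * (k1 / δ + |A1|) + 1) := by
          have e4 : δ * l * (N0 * (k1 / δ)) = N0 * (k1 * l) := by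
            field_simp
          have e5 : 0 ≤ δ * l * (N0 * |A1|) := by positivity
          have e6 : 0 ≤ (N0 : ℝ) * (k1 / δ) := by positivity
          have e7 : 0 ≤ δ * l := by positivity
          have e8 : (δ * l + 1) * (N0 * (k1 / δ + |A1|) + 1) =
              δ * l * (N0 * (k1 / δ)) + δ * l * (N0 * |A1|) + δ * l + N0 * (k1 / δ) +
              N0 * |A1| + 1 := by ring
          rw [e8, e4]
          linarith
        linarith
      linarith
    have hX : Real.log (7 * B * D) ≤ k1 * l + a := by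
      have e1 : Real.log (7 * B * D) = Real.log 7 + Real.log B + Real.log D := by
        rw [Real.log_mul (by positivity) (by positivity), Real.log_mul (by norm_num)
          (by positivity)]
      have e2 : Real.log 7 ≤ 3 := by
        have : Real.log 7 ≤ Real.log (2 ^ 3) := Real.log_le_log (by norm_num) (by norm_num)
        rw [Real.log_pow] at this
        have h2 := Real.log_two_lt_d9
        push_cast at this
        linarith
      have e3 : Real.log B ≤ B - 1 := Real.log_le_sub_one_of_pos (by linarith)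
      have e4 : δ * l ≤ l := by nlinarith
      rw [e1, ha, hk1]
      linarith [le_abs_self (Real.log N1)]
    have hX0 : 0 ≤ Real.log (7 * B * D) := Real.log_nonneg (by nlinarith)
    have ha1 : 1 ≤ a := by
      have := abs_nonneg (Real.log N1)
      linarith
    have hsq := sqrt_bound hQ0 hl0 hk1' hδ0.le hδ1 hδ2 ha1 (by linarith) hBδ hX0 hX
    rw [← hC] at hsq
    have hx0 : algebraMap M L (β : M) ≠ 0 := by
      intro h
      apply hβ0
      have h1 := (map_eq_zero (algebraMap M L)).1 h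
      exact RingOfIntegers.coe_eq_zero_iff.1 h1
    have hxi : IsIntegral ℤ (algebraMap M L (β : M)) := β.isIntegral_coe.algebraMap
    have hxr : ∀ j : ℕ, 0 < j → (algebraMap M L (β : M)) ^ j ≠ 1 := by
      intro j hj h
      rw [← map_pow, ← map_one (algebraMap M L)] at h
      have h1 := (algebraMap M L).injective h
      exact hβr j hj (RingOfIntegers.ext (by simpa using h1))
    have h1 := lower_at hFr (algebraMap M L (β : M)) hx0 hxi hxr
    rw [lam_algebraMap] at h1
    have h2 : ℚ⟮(β : M)⟯ = ⊤ := by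
      have := hgen 0
      rwa [pow_zero, pow_one] at this
    rw [log_mahler β h2]
    have hlam : 0 ≤ lam (β : M) := lam_nonneg _
    set Λ := lam (β : M) with hΛ
    have h3 : loss q B D ≤ 4 * (q : ℝ) ^ 3 * (Real.exp C * √N) := by
      unfold loss
      refine mul_le_mul_of_nonneg_left ?_ (by positivity)
      have e1 : √(N : ℝ) = Real.exp (l / 2) := by
        rw [Real.sqrt_eq_rpow, Real.rpow_def_of_pos (by linarith), hl]
        congr 1
        ring
      rw [e1, ← Real.exp_add]
      refine Real.exp_le_exp.2 ?_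
      linarith
    have h4 : (N : ℝ) ≤ (4 * (q : ℝ) ^ 3 * (Real.exp C * √N)) * (N0 * Λ) := by
      refine h1.trans ?_
      refine mul_le_mul h3 ?_ (by positivity) (by positivity)
      exact mul_le_mul_of_nonneg_right hrN0 hlam
    have hsN : 0 < √(N : ℝ) := Real.sqrt_pos.2 (by linarith)
    have hsN1 : 1 ≤ √(N : ℝ) := Real.one_le_sqrt.2 hN'
    have h5 : √(N : ℝ) * √N = N := Real.mul_self_sqrt (by linarith)
    have h6 : √(N : ℝ) ≤ 4 * (q : ℝ) ^ 3 * Real.exp C * N0 * Λ := by
      have h7 : √(N : ℝ) * √N ≤ √N * (4 * (q : ℝ) ^ 3 * Real.exp C * N0 * Λ) := by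
        rw [h5]
        refine h4.trans (le_of_eq ?_)
        ring
      exact le_of_mul_le_mul_left h7 hsN
    rw [div_le_iff₀ (by positivity)]
    have h8 : 4 * (q : ℝ) ^ 3 * Real.exp C * N0 * Λ ≤
        Λ * (4 * (q : ℝ) ^ 3 * Real.exp C * (N0 + 1)) := by
      have : 0 ≤ 4 * (q : ℝ) ^ 3 * Real.exp C * Λ := by positivity
      nlinarith
    linarith

end Pool.Agent.Q262.RL
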