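import Mathlib
import Pool.Agent.Q262.RL.Key2
import Pool.Agent.Q262.RL.Key4

/-!
# Conditions on the primes above a prime number, and the bound for the Mahler measure
-/

set_option autoImplicit false
set_option linter.unusedSectionVars false
set_option linter.style.haveILetI false

open Finset NumberField Module IntermediateField Polynomial

namespace Pool.Agent.Q262.RL

open Pool.Agent.TH53.HR (exists_val)
open Pool.Agent.Y399.MG (log_mahler)
open Pool.Agent.H388SL (lam lam_nonneg)

theorem all_of_mass {F : Type} [Field F] [NumberField F] {p : ℕ} (hp : p.Prime) {q : ℕ}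
    (h : FrobMass p q 1 F) : FrobAll p q F := by
  classical
  obtain ⟨τ, T, hT, hN⟩ := h
  refine ⟨τ, fun P hP => ?_⟩
  by_contra hc
  have hPT : P ∉ T := fun h => hc ((hT P h).2)
  obtain ⟨V, hV⟩ := exists_val p hp
  have hsub : insert P T ⊆ All p F := by
    intro Q hQ
    rcases Finset.mem_insert.1 hQ with rfl | hQ
    · exact (mem_All hp).2 hP
    · exact (mem_All hp).2 (hT Q hQ).1
  have h1 := count_emb hp hV (insert P T) hsub
  rw [Finset.sum_insert hPT] at h1
  have h2 : (univ.filter fun v : F →ₐ[ℚ] ℂ => pr hV v ∈ insert P T).card ≤ finrank ℚ F := by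
    refine (Finset.card_filter_le _ _).trans (le_of_eq ?_)
    rw [Finset.card_univ, AlgHom.card]
  have hP1 := hP.1
  have hP2 := hP.2
  have h3 : 0 < P.ramificationIdx ℤ * P.inertiaDeg ℤ :=
    Nat.mul_pos (Ideal.ramificationIdx_pos P ℤ) (Ideal.inertiaDeg_pos P ℤ)
  omega

theorem mass_of_res {F : Type} [Field F] [NumberField F] {p : ℕ} (hp : p.Prime) {f B : ℕ}
    (T : Finset (Ideal (𝓞 F)))
    (hT : ∀ P ∈ T, P ∈ (Ideal.span {(p : ℤ)}).primesOver (𝓞 F) ∧ P.inertiaDeg ℤ ≤ f)
    (hN : finrank ℚ F ≤ B * ∑ P ∈ T, P.ramificationIdx ℤ * P.inertiaDeg ℤ) :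
    FrobMass p (p ^ f.factorial) B F :=
  ⟨RingEquiv.refl F, T, fun P hP => ⟨(hT P hP).1, fun x => frob_at_prime hp (hT P hP).1 (hT P hP).2 x⟩,
    hN⟩

/-- the bound for the Mahler measure, linear in the ramification indices -/
theorem ram_mahler {F K M : Type} [Field F] [NumberField F] [Field K] [NumberField K] [Algebra F K]
    [Field M] [NumberField M] [Algebra M K]
    {p : ℕ} (hp : p.Prime) {l E : ℕ} (hl : 0 < l) (hF : FrobAll p (p ^ l) F)
    (hE : RamLe p E F) (α : 𝓞 M) (hα0 : α ≠ 0) (hroot : ∀ m : ℕ, 0 < m → α ^ m ≠ 1)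
    (hgen : ℚ⟮(α : M)⟯ = ⊤) :
    (finrank ℚ F : ℝ) ≤ rcost p l E (finrank F K) * (finrank M K *
      Real.log ((minpoly ℤ (α : M)).map (Int.castRingHom ℂ)).mahlerMeasure) := by
  have hx0 : algebraMap M K (α : M) ≠ 0 := by
    intro h
    apply hα0
    have h1 := (map_eq_zero (algebraMap M K)).1 h
    exact RingOfIntegers.coe_eq_zero_iff.1 h1
  have hxi : IsIntegral ℤ (algebraMap M K (α : M)) := α.isIntegral_coe.algebraMap
  have hxr : ∀ j : ℕ, 0 < j → (algebraMap M K (α : M)) ^ j ≠ 1 := by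
    intro j hj h
    rw [← map_pow, ← map_one (algebraMap M K)] at h
    have h1 := (algebraMap M K).injective h
    exact hroot j hj (RingOfIntegers.ext (by simpa using h1))
  have h1 := ram_bound hp hl hF hE (algebraMap M K (α : M)) hx0 hxi hxr
  rw [lam_algebraMap, ← log_mahler α hgen] at h1
  exact h1

end Pool.Agent.Q262.RL
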